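import Mathlib

set_option autoImplicit false

/-! Algebra of the angle between `h = (1, η)` and `C h`, `C` diagonal with different entries. -/

namespace Pool.Agent.P8H20.EL

open Finset

variable {N : ℕ}

/-- `|h|²` -/
noncomputable def fA (η : Fin N → ℝ) : ℝ := 1 + ∑ l, η l ^ 2

/-- `⟨Ch, h⟩` -/
noncomputable def fP (c0 : ℝ) (c η : Fin N → ℝ) : ℝ := c0 + ∑ l, c l * η l ^ 2

/-- `|Ch|²` -/
noncomputable def fS (c0 : ℝ) (c η : Fin N → ℝ) : ℝ := c0 ^ 2 + ∑ l, c l ^ 2 * η l ^ 2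

/-- the quadratic polynomial of the derivatives -/
noncomputable def fL (c0 : ℝ) (c η : Fin N → ℝ) (t : ℝ) : ℝ :=
  2 * t * fA η * fS c0 c η - fP c0 c η * fS c0 c η - t ^ 2 * fP c0 c η * fA η

/-- quantitative separation of the entries -/
structure Good (κ M : ℝ) (c0 : ℝ) (c : Fin N → ℝ) : Prop where
  k0 : 0 < κ
  k1 : κ ≤ 1
  m1 : 1 ≤ M
  c0k : κ ≤ |c0|
  ck : ∀ l, κ ≤ |c l|
  c0c : ∀ l, κ ≤ |c l - c0|
  cc : ∀ l l', l ≠ l' → κ ≤ |c l - c l'|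
  c0m : |c0| ≤ M
  cm : ∀ l, |c l| ≤ M

lemma exists_good (c0 : ℝ) (c : Fin N → ℝ) (h0 : c0 ≠ 0) (hc : ∀ l, c l ≠ 0)
    (h1 : ∀ l, c l ≠ c0) (h2 : Function.Injective c) : ∃ κ M, Good κ M c0 c := by
  classical
  -- a finite set of positive numbers
  set s : Finset ℝ := {1, |c0|} ∪ univ.image (fun l => |c l|) ∪ univ.image (fun l => |c l - c0|) ∪
    ((univ.filter fun p : Fin N × Fin N => p.1 ≠ p.2).image fun p => |c p.1 - c p.2|) with hs
  have hne : s.Nonempty := ⟨1, by simp [hs]⟩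
  set κ := s.min' hne with hκ
  have hk0 : 0 < κ := by
    have h := s.min'_mem hne
    rw [← hκ] at h
    simp only [hs, mem_union, mem_insert, mem_singleton, mem_image, mem_univ, true_and,
      mem_filter, Prod.exists] at h
    rcases h with ((((h | h) | ⟨l, h⟩) | ⟨l, h⟩) | ⟨l, l', hl, h⟩)
    · rw [h]; exact one_pos
    · rw [h]; exact abs_pos.2 h0
    · rw [← h]; exact abs_pos.2 (hc l)
    · rw [← h]; exact abs_pos.2 (sub_ne_zero.2 (h1 l))
    · rw [← h]; exact abs_pos.2 (sub_ne_zero.2 fun e => hl (h2 e))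
  have hle : ∀ x ∈ s, κ ≤ x := fun x hx => s.min'_le x hx
  refine ⟨κ, 1 + |c0| + ∑ l, |c l|, hk0, hle _ (by simp [hs]), ?_, hle _ (by simp [hs]), ?_, ?_,
    ?_, ?_, ?_⟩
  · have : 0 ≤ ∑ l, |c l| := sum_nonneg fun _ _ => abs_nonneg _
    have := abs_nonneg c0
    linarith
  · intro l
    exact hle _ (by simp [hs])
  · intro l
    exact hle _ (by simp [hs])
  · intro l l' hl
    refine hle _ ?_
    simp only [hs, mem_union, mem_image, mem_filter, mem_univ, true_and, Prod.exists]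
    right
    exact ⟨l, l', hl, rfl⟩
  · have : 0 ≤ ∑ l, |c l| := sum_nonneg fun _ _ => abs_nonneg _
    linarith
  · intro l
    have h3 : |c l| ≤ ∑ l, |c l| :=
      single_le_sum (f := fun l => |c l|) (fun _ _ => abs_nonneg _) (mem_univ l)
    have := abs_nonneg c0
    linarith

section

variable {κ M c0 : ℝ} {c : Fin N → ℝ}

lemma fA_ge (η : Fin N → ℝ) : 1 ≤ fA η := by
  unfold fA
  have : 0 ≤ ∑ l, η l ^ 2 := sum_nonneg fun _ _ => sq_nonneg _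
  linarith

lemma fA_le {η : Fin N → ℝ} (h : ∀ l, |η l| ≤ 1) : fA η ≤ N + 1 := by
  unfold fA
  have : ∑ l, η l ^ 2 ≤ ∑ _l : Fin N, (1 : ℝ) := sum_le_sum fun l _ => by
    have := abs_nonneg (η l)
    rw [← sq_abs]
    nlinarith [h l]
  simp at this
  linarith

lemma fS_ge (hG : Good κ M c0 c) (η : Fin N → ℝ) : κ ^ 2 ≤ fS c0 c η := by
  unfold fS
  have : 0 ≤ ∑ l, c l ^ 2 * η l ^ 2 := sum_nonneg fun _ _ => by positivity
  have h2 : κ ^ 2 ≤ c0 ^ 2 := by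
    rw [← sq_abs c0]
    exact pow_le_pow_left₀ hG.k0.le hG.c0k 2
  linarith

lemma fS_le (hG : Good κ M c0 c) {η : Fin N → ℝ} (h : ∀ l, |η l| ≤ 1) :
    fS c0 c η ≤ M ^ 2 * (N + 1) := by
  unfold fS
  have h1 : ∑ l, c l ^ 2 * η l ^ 2 ≤ ∑ _l : Fin N, M ^ 2 := sum_le_sum fun l _ => by
    have a1 : c l ^ 2 ≤ M ^ 2 := by
      rw [← sq_abs]
      exact pow_le_pow_left₀ (abs_nonneg _) (hG.cm l) 2
    have a2 : η l ^ 2 ≤ 1 := by
      rw [← sq_abs]
      exact pow_le_one₀ (abs_nonneg _) (h l)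
    nlinarith [sq_nonneg (η l), sq_nonneg (c l)]
  have h2 : c0 ^ 2 ≤ M ^ 2 := by
    rw [← sq_abs]
    exact pow_le_pow_left₀ (abs_nonneg _) hG.c0m 2
  simp at h1
  nlinarith

/-- the Gram determinant -/
lemma gram_ge (hG : Good κ M c0 c) (η : Fin N → ℝ) :
    κ ^ 2 * ∑ l, η l ^ 2 ≤ fA η * fS c0 c η - fP c0 c η ^ 2 := by
  have hCS : (∑ l, c l * η l ^ 2) ^ 2 ≤ (∑ l, η l ^ 2) * ∑ l, c l ^ 2 * η l ^ 2 := by
    have h := Finset.sum_mul_sq_le_sq_mul_sq univ η (fun l => c l * η l)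
    have e1 : ∑ l, η l * (c l * η l) = ∑ l, c l * η l ^ 2 := sum_congr rfl fun l _ => by ring
    have e2 : ∑ l, (c l * η l) ^ 2 = ∑ l, c l ^ 2 * η l ^ 2 := sum_congr rfl fun l _ => by ring
    rw [e1, e2] at h
    exact h
  have h1 : ∑ l, (c l - c0) ^ 2 * η l ^ 2 =
      ∑ l, c l ^ 2 * η l ^ 2 - 2 * c0 * ∑ l, c l * η l ^ 2 + c0 ^ 2 * ∑ l, η l ^ 2 := by
    rw [mul_sum, mul_sum, ← sum_sub_distrib, ← sum_add_distrib]
    exact sum_congr rfl fun l _ => by ring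
  have h2 : κ ^ 2 * ∑ l, η l ^ 2 ≤ ∑ l, (c l - c0) ^ 2 * η l ^ 2 := by
    rw [mul_sum]
    refine sum_le_sum fun l _ => mul_le_mul_of_nonneg_right ?_ (sq_nonneg _)
    rw [← sq_abs (c l - c0)]
    exact pow_le_pow_left₀ hG.k0.le (hG.c0c l) 2
  unfold fA fS fP
  nlinarith

/-- three small values -/
lemma three (hG : Good κ M c0 c) (η : Fin N → ℝ) (i j : Fin N) (hij : i ≠ j)
    (h0 : |fL c0 c η c0| < κ ^ 5 / (2 * M ^ 2)) (hi : |fL c0 c η (c i)| < κ ^ 5 / (2 * M ^ 2))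
    (hj : |fL c0 c η (c j)| < κ ^ 5 / (2 * M ^ 2)) : False := by
  have hk := hG.k0
  have hm := hG.m1
  have hA := fA_ge η
  have hS := fS_ge hG η
  set e := κ ^ 5 / (2 * M ^ 2) with he
  have hid : 2 * (fA η * fS c0 c η) * ((c j - c0) * (c0 - c i) * (c i - c j)) =
      fL c0 c η c0 * (c i ^ 2 - c j ^ 2) + fL c0 c η (c i) * (c j ^ 2 - c0 ^ 2) +
        fL c0 c η (c j) * (c0 ^ 2 - c i ^ 2) := by
    unfold fL
    ring
  have hAS : κ ^ 2 ≤ fA η * fS c0 c η := by nlinarith [sq_nonneg κ]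
  have hsq : ∀ x y : ℝ, |x| ≤ M → |y| ≤ M → |x ^ 2 - y ^ 2| ≤ M ^ 2 := by
    intro x y hx hy
    have h1 : x ^ 2 ≤ M ^ 2 := by
      rw [← sq_abs]
      exact pow_le_pow_left₀ (abs_nonneg _) hx 2
    have h2 : y ^ 2 ≤ M ^ 2 := by
      rw [← sq_abs]
      exact pow_le_pow_left₀ (abs_nonneg _) hy 2
    rw [abs_le]
    constructor <;> nlinarith [sq_nonneg x, sq_nonneg y]
  have hL : 2 * κ ^ 5 ≤ |2 * (fA η * fS c0 c η) * ((c j - c0) * (c0 - c i) * (c i - c j))| := by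
    rw [abs_mul, abs_mul _ (c i - c j), abs_mul (c j - c0),
      abs_of_nonneg (by nlinarith [sq_nonneg κ] : 0 ≤ 2 * (fA η * fS c0 c η)),
      abs_sub_comm c0 (c i)]
    have a1 := hG.c0c j
    have a2 := hG.c0c i
    have a3 := hG.cc i j hij
    have a4 : 0 ≤ 2 * (fA η * fS c0 c η) := by nlinarith [sq_nonneg κ]
    calc 2 * κ ^ 5 = 2 * κ ^ 2 * (κ * κ * κ) := by ring
      _ ≤ 2 * (fA η * fS c0 c η) * (|c j - c0| * |c i - c0| * |c i - c j|) := by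
          gcongr
  have hR : |2 * (fA η * fS c0 c η) * ((c j - c0) * (c0 - c i) * (c i - c j))| ≤
      3 * e * M ^ 2 := by
    rw [hid]
    refine (abs_add_three _ _ _).trans ?_
    rw [abs_mul, abs_mul, abs_mul]
    have b1 := hsq (c i) (c j) (hG.cm i) (hG.cm j)
    have b2 := hsq (c j) c0 (hG.cm j) hG.c0m
    have b3 := hsq c0 (c i) hG.c0m (hG.cm i)
    have c1 := mul_le_mul h0.le b1 (abs_nonneg _) ((abs_nonneg _).trans h0.le)
    have c2 := mul_le_mul hi.le b2 (abs_nonneg _) ((abs_nonneg _).trans hi.le)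
    have c3 := mul_le_mul hj.le b3 (abs_nonneg _) ((abs_nonneg _).trans hj.le)
    linarith
  have h5 : 3 * e * M ^ 2 = 3 / 2 * κ ^ 5 := by
    rw [he]
    field_simp
  have : 0 < κ ^ 5 := by positivity
  linarith

/-- Euler's relation -/
lemma euler (η : Fin N → ℝ) :
    fL c0 c η c0 = -∑ l, η l ^ 2 * fL c0 c η (c l) := by
  have e1 : ∑ l, η l ^ 2 * fL c0 c η (c l) =
      2 * (∑ l, c l * η l ^ 2) * fA η * fS c0 c η - (∑ l, η l ^ 2) * (fP c0 c η * fS c0 c η) -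
        (∑ l, c l ^ 2 * η l ^ 2) * fP c0 c η * fA η := by
    rw [mul_sum, sum_mul, sum_mul, sum_mul, sum_mul, sum_mul, ← sum_sub_distrib,
      ← sum_sub_distrib]
    exact sum_congr rfl fun l _ => by unfold fL; ring
  rw [e1]
  have h1 : ∑ l, c l * η l ^ 2 = fP c0 c η - c0 := by unfold fP; ring
  have h2 : ∑ l, η l ^ 2 = fA η - 1 := by unfold fA; ring
  have h3 : ∑ l, c l ^ 2 * η l ^ 2 = fS c0 c η - c0 ^ 2 := by unfold fS; ring
  rw [h1, h2, h3]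
  unfold fL
  ring

/-- the size of the gradient -/
noncomputable def fD (c0 : ℝ) (c η : Fin N → ℝ) : ℝ := ∑ j, |η j * fL c0 c η (c j)|

lemma L0_le {η : Fin N → ℝ} (h : ∀ l, |η l| ≤ 1) : |fL c0 c η c0| ≤ fD c0 c η := by
  rw [euler, abs_neg]
  refine (abs_sum_le_sum_abs _ _).trans ?_
  unfold fD
  refine sum_le_sum fun l _ => ?_
  rw [pow_two, mul_assoc, abs_mul (η l) (η l * _)]
  have := abs_nonneg (η l * fL c0 c η (c l))
  nlinarith [h l]

/-- the factors -/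
noncomputable def fpsi (c0 t s : ℝ) : ℝ := |s * (t * s ^ 2 - c0)|

lemma psi_le (hG : Good κ M c0 c) (j : Fin N) {s : ℝ} (hs : |s| ≤ 1) :
    fpsi c0 (c j) s ≤ 2 * M * |s| := by
  unfold fpsi
  rw [abs_mul, mul_comm]
  apply mul_le_mul_of_nonneg_right _ (abs_nonneg _)
  have h1 : |c j * s ^ 2 - c0| ≤ |c j * s ^ 2| + |c0| := abs_sub _ _
  have h2 : |c j * s ^ 2| ≤ M := by
    rw [abs_mul, abs_of_nonneg (sq_nonneg s)]
    have : s ^ 2 ≤ 1 := by
      rw [← sq_abs]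
      exact pow_le_one₀ (abs_nonneg _) hs
    have h3 := hG.cm j
    have h4 := abs_nonneg (c j)
    nlinarith [sq_nonneg s]
  linarith [hG.c0m]

lemma psi_nonneg (c0 t s : ℝ) : 0 ≤ fpsi c0 t s := abs_nonneg _

end

end Pool.Agent.P8H20.EL
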