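import Pool.Agent.P8H20.EL.Key3
import Pool.Agent.H153R4.Main

set_option autoImplicit false

/-! Random functions with a rotation invariant correlation: moments over dyadic time blocks. -/

namespace Pool.Agent.P8H20.EL

open Complex MeasureTheory Set
open Pool.Agent.H153R4 (dd BS cube cube_meas cube_vol kk ch four_ch two_ch interp plancherel)
open scoped ENNReal FourierTransform ComplexConjugate RealInnerProductSpace

variable {n : ℕ} {Ω : Type*} [MeasurableSpace Ω]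

/-- the square of the transform of the correlation -/
noncomputable def KK (g : E n → ℂ) (h y : E n) : ℝ≥0∞ := ‖𝓕 (kk g h) y‖ₑ ^ 2

/-- the correlation -/
noncomputable def HG (P : Measure Ω) (G : Ω → E n → ℂ) (h y : E n) : ℝ≥0∞ :=
  ∫⁻ ω, KK (G ω) h y ∂P

/-- bounded random functions on the unit ball with invariant correlation -/
structure RF (P : Measure Ω) (G : Ω → E n → ℂ) : Prop where
  meas : Measurable (Function.uncurry G)
  bd : ∀ ω z, ‖G ω z‖ ≤ 1
  supp : ∀ ω z, 1 < ‖z‖ → G ω z = 0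
  inv : Inv (HG P G)

variable {P : Measure Ω} {G : Ω → E n → ℂ}

lemma RF.bs (hG : RF P G) (ω : Ω) : BS 1 (G ω) := by
  refine ⟨hG.meas.comp measurable_prodMk_left, hG.bd ω, fun z hz => hG.supp ω z ?_⟩
  by_contra hc
  apply hz
  intro j
  push Not at hc
  exact (PiLp.norm_apply_le z j).trans hc

lemma meas_kk (hG : Measurable (Function.uncurry G)) :
    Measurable fun p : Ω × E n × E n => KK (G p.1) p.2.1 p.2.2 := by
  unfold KK
  apply Measurable.pow_const
  apply Measurable.enorm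
  simp only [Real.fourier_eq]
  have h1 : Measurable fun r : (Ω × E n × E n) × E n =>
      Real.fourierChar (-⟪r.2, r.1.2.2⟫) • kk (G r.1.1) r.1.2.1 r.2 := by
    have hin : Measurable fun r : (Ω × E n × E n) × E n => -⟪r.2, r.1.2.2⟫ := by fun_prop
    have hc : Measurable fun r : (Ω × E n × E n) × E n =>
        ((Real.fourierChar (-⟪r.2, r.1.2.2⟫) : Circle) : ℂ) :=
      (continuous_subtype_val.comp Real.continuous_fourierChar).measurable.comp hin
    have hk : Measurable fun r : (Ω × E n × E n) × E n => kk (G r.1.1) r.1.2.1 r.2 := by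
      unfold kk
      have e1 : Measurable fun r : (Ω × E n × E n) × E n => (r.1.1, r.2 + r.1.2.1) := by fun_prop
      have e2 : Measurable fun r : (Ω × E n × E n) × E n => (r.1.1, r.2) := by fun_prop
      exact (hG.comp e1).mul (continuous_conj.measurable.comp (hG.comp e2))
    exact hc.mul hk
  exact (h1.stronglyMeasurable.integral_prod_right' (ν := volume)).measurable

lemma meas_ch (c : Fin n → ℝ) (hG : Measurable (Function.uncurry G)) :
    Measurable fun p : Ω × ℝ × E n => 𝓕 (ch (p.2.1 • c) (G p.1)) p.2.2 := by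
  simp only [Real.fourier_eq]
  have h1 : Measurable fun r : (Ω × ℝ × E n) × E n =>
      Real.fourierChar (-⟪r.2, r.1.2.2⟫) • ch (r.1.2.1 • c) (G r.1.1) r.2 := by
    have hin : Measurable fun r : (Ω × ℝ × E n) × E n => -⟪r.2, r.1.2.2⟫ := by fun_prop
    have hc : Measurable fun r : (Ω × ℝ × E n) × E n =>
        ((Real.fourierChar (-⟪r.2, r.1.2.2⟫) : Circle) : ℂ) :=
      (continuous_subtype_val.comp Real.continuous_fourierChar).measurable.comp hin
    have hk : Measurable fun r : (Ω × ℝ × E n) × E n => ch (r.1.2.1 • c) (G r.1.1) r.2 := by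
      unfold ch
      have e2 : Measurable fun r : (Ω × ℝ × E n) × E n => (r.1.1, r.2) := by fun_prop
      have hsum : Measurable fun r : (Ω × ℝ × E n) × E n =>
          -(2 * Real.pi * ∑ j, (r.1.2.1 • c) j * r.2 j ^ 2) := by
        refine (measurable_const.mul (Finset.measurable_sum _ fun j _ => ?_)).neg
        simp only [Pi.smul_apply, smul_eq_mul]
        fun_prop
      exact (Complex.measurable_exp.comp
        ((Complex.measurable_ofReal.comp hsum).mul measurable_const)).mul (hG.comp e2)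
    exact hc.mul hk
  exact (h1.stronglyMeasurable.integral_prod_right' (ν := volume)).measurable

lemma HG_meas [SFinite P] (hG : RF P G) : Measurable (Function.uncurry (HG P G)) := by
  have h0 := meas_kk hG.meas
  have hp : Measurable fun p : (E n × E n) × Ω => (p.2, p.1) := by fun_prop
  have h2 : Measurable fun p : (E n × E n) × Ω => KK (G p.2) p.1.1 p.1.2 := (h0.comp hp :)
  have h4 := h2.lintegral_prod_right' (ν := P)
  exact h4

/-- the volume of the cube -/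
noncomputable def Vc (n : ℕ) : ℝ≥0∞ := volume (cube n)

lemma Vc_fin (n : ℕ) : Vc n ≠ ⊤ := (cube_vol n).ne

lemma Vc_pos (n : ℕ) : Vc n ≠ 0 := by
  unfold Vc
  have h1 : Metric.ball (0 : E n) 1 ⊆ cube n := by
    intro z hz j
    rw [mem_ball_zero_iff] at hz
    exact (PiLp.norm_apply_le z j).trans hz.le
  have h2 := Metric.measure_ball_pos volume (0 : E n) one_pos
  exact (h2.trans_le (measure_mono h1)).ne'

lemma F_bd {g : E n → ℂ} (hg : BS 1 g) (x : E n) : ‖𝓕 g x‖ₑ ≤ Vc n := by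
  rw [← ofReal_norm]
  refine (ENNReal.ofReal_le_ofReal (hg.fbd x)).trans (le_of_eq ?_)
  rw [mul_one, ENNReal.ofReal_toReal (cube_vol n).ne]
  rfl

lemma BS.one_kk {g : E n → ℂ} (hg : BS 1 g) (h : E n) : BS 1 (kk g h) := by
  have := hg.kk h
  rwa [one_pow] at this

lemma BS.pl {g : E n → ℂ} (hg : BS 1 g) : ∫⁻ y, ‖𝓕 g y‖ₑ ^ 2 ≤ Vc n := by
  rw [plancherel _ hg.int (hg.memLp 2)]
  refine hg.l2.trans (le_of_eq ?_)
  rw [one_pow, ENNReal.ofReal_one, mul_one]
  rfl

variable {N : ℕ}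

lemma adm_HG {G : Ω → E (N + 2) → ℂ} [IsProbabilityMeasure P] (hG : RF P G) :
    Adm (Vc (N + 2) * (Vc (N + 2) ^ 2)⁻¹) 2 (fun h y => HG P G h y * (Vc (N + 2) ^ 2)⁻¹) := by
  have hV2 : Vc (N + 2) ^ 2 ≠ 0 := pow_ne_zero 2 (Vc_pos _)
  have hV3 : Vc (N + 2) ^ 2 ≠ ⊤ := ENNReal.pow_ne_top (Vc_fin _)
  have hV4 : (Vc (N + 2) ^ 2)⁻¹ ≠ ⊤ := ENNReal.inv_ne_top.2 hV2
  have hm := HG_meas hG
  refine ⟨fun O h y => ?_, hm.mul_const _, fun h y => ?_, fun h => ?_, fun h y hh => ?_⟩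
  · show HG P G (O h) (O y) * _ = _
    rw [hG.inv O h y]
  · have h1 : HG P G h y ≤ Vc (N + 2) ^ 2 := by
      unfold HG KK
      calc ∫⁻ ω, ‖𝓕 (kk (G ω) h) y‖ₑ ^ 2 ∂P ≤ ∫⁻ _ω, Vc (N + 2) ^ 2 ∂P := by
            refine lintegral_mono fun ω => ?_
            exact pow_le_pow_left' (F_bd (BS.one_kk (hG.bs ω) h) y) 2
        _ = Vc (N + 2) ^ 2 := by simp
    calc HG P G h y * (Vc (N + 2) ^ 2)⁻¹ ≤ Vc (N + 2) ^ 2 * (Vc (N + 2) ^ 2)⁻¹ :=
          mul_le_mul' h1 le_rfl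
      _ = 1 := ENNReal.mul_inv_cancel hV2 hV3
  · rw [lintegral_mul_const' _ _ hV4]
    refine mul_le_mul' ?_ le_rfl
    unfold HG
    have h0 := meas_kk hG.meas
    have hp : Measurable fun p : E (N + 2) × Ω => (p.2, h, p.1) := by fun_prop
    have h2 : Measurable fun p : E (N + 2) × Ω => KK (G p.2) h p.1 := (h0.comp hp :)
    rw [lintegral_lintegral_swap h2.aemeasurable]
    calc ∫⁻ ω, (∫⁻ y, KK (G ω) h y) ∂P ≤ ∫⁻ _ω, Vc (N + 2) ∂P :=
          lintegral_mono fun ω => BS.pl (BS.one_kk (hG.bs ω) h)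
      _ = Vc (N + 2) := by simp
  · have h1 : ∀ ω, kk (G ω) h = 0 := by
      intro ω
      ext z
      unfold kk
      by_cases hz : 1 < ‖z‖
      · rw [hG.supp ω z hz]
        simp
      · rw [hG.supp ω (z + h), zero_mul]
        · rfl
        · have h2 : ‖h‖ ≤ ‖z + h‖ + ‖z‖ := by
            calc ‖h‖ = ‖(z + h) - z‖ := by simp
              _ ≤ _ := norm_sub_le _ _
          linarith
    have h2 : HG P G h y = 0 := by
      unfold HG KK
      simp only [h1]
      have h3 : 𝓕 (0 : E (N + 2) → ℂ) y = 0 := by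
        rw [Real.fourier_eq]
        simp
      simp [h3]
    rw [h2, zero_mul]

/-- the fourth moment over a dyadic block -/
lemma block4 (hN : 1 ≤ N) (c : Fin (N + 2) → ℝ) (hc0 : ∀ j, c j ≠ 0) (hc : Function.Injective c)
    {a : ℝ} (ha0 : 0 < a) (ha : a < 1) :
    ∃ K : ℝ≥0∞, K ≠ ⊤ ∧ ∀ {Ω : Type} [MeasurableSpace Ω] (P : Measure Ω) [IsProbabilityMeasure P]
      (G : Ω → E (N + 2) → ℂ), RF P G → ∀ T : ℝ, 0 < T →
      ∫⁻ ω, (∫⁻ t in Ioc T (2 * T), ∫⁻ x, ‖𝓕 (ch (t • c) (G ω)) x‖ₑ ^ 4) ∂P ≤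
        K * ENNReal.ofReal (T ^ (1 - ((N : ℝ) + 2) * a)) := by
  have hV2 : Vc (N + 2) ^ 2 ≠ 0 := pow_ne_zero 2 (Vc_pos _)
  have hV3 : Vc (N + 2) ^ 2 ≠ ⊤ := ENNReal.pow_ne_top (Vc_fin _)
  have hV4 : (Vc (N + 2) ^ 2)⁻¹ ≠ ⊤ := ENNReal.inv_ne_top.2 hV2
  obtain ⟨K, hK, h⟩ := key hN c hc0 hc (B2 := Vc (N + 2) * (Vc (N + 2) ^ 2)⁻¹)
    (ENNReal.mul_ne_top (Vc_fin _) hV4) 2 ha0 ha
  refine ⟨Vc (N + 2) ^ 2 * K, ENNReal.mul_ne_top hV3 hK, ?_⟩
  intro Ω _ P _ G hG T hT
  have h1 := h _ (adm_HG hG) T hT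
  have h2 : ∫⁻ ω, (∫⁻ t in Ioc T (2 * T), ∫⁻ x, ‖𝓕 (ch (t • c) (G ω)) x‖ₑ ^ 4) ∂P =
      ∫⁻ t in Ioc T (2 * T), ∫⁻ h, HG P G h (dd (t • c) h) := by
    have e1 : ∀ ω, ∀ t : ℝ, ∫⁻ x, ‖𝓕 (ch (t • c) (G ω)) x‖ₑ ^ 4 =
        ∫⁻ h, KK (G ω) h (dd (t • c) h) := fun ω t => four_ch (hG.bs ω) _
    simp only [e1]
    have hdm : Measurable fun p : ℝ × E (N + 2) => dd (p.1 • c) p.2 := by
      unfold dd
      apply (PiLp.volume_preserving_toLp (Fin (N + 2))).measurable.comp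
      rw [measurable_pi_iff]
      intro j
      simp only [Pi.smul_apply, smul_eq_mul]
      fun_prop
    have h0 := meas_kk hG.meas
    have hp : Measurable fun p : (Ω × ℝ) × E (N + 2) => (p.1.1, p.2, dd (p.1.2 • c) p.2) := by
      have e1 : Measurable fun p : (Ω × ℝ) × E (N + 2) => (p.1.2, p.2) := by fun_prop
      have e2 : Measurable fun p : (Ω × ℝ) × E (N + 2) => dd (p.1.2 • c) p.2 := (hdm.comp e1 :)
      have e3 : Measurable fun p : (Ω × ℝ) × E (N + 2) => p.1.1 := by fun_prop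
      have e4 : Measurable fun p : (Ω × ℝ) × E (N + 2) => p.2 := by fun_prop
      exact e3.prodMk (e4.prodMk e2)
    have hm : Measurable fun p : (Ω × ℝ) × E (N + 2) =>
        KK (G p.1.1) p.2 (dd (p.1.2 • c) p.2) := (h0.comp hp :)
    have hm2 := hm.lintegral_prod_right' (ν := (volume : Measure (E (N + 2))))
    rw [lintegral_lintegral_swap]
    · refine lintegral_congr fun t => ?_
      have e5 : Measurable fun p : Ω × E (N + 2) => ((p.1, t), p.2) := by fun_prop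
      have e6 : Measurable fun p : Ω × E (N + 2) => KK (G p.1) p.2 (dd (t • c) p.2) :=
        (hm.comp e5 :)
      rw [lintegral_lintegral_swap e6.aemeasurable]
      rfl
    · exact hm2.aemeasurable
  rw [h2]
  have h3 : ∫⁻ t in Ioc T (2 * T), ∫⁻ h, HG P G h (dd (t • c) h) = Vc (N + 2) ^ 2 *
      ∫⁻ t in Ioc T (2 * T), ∫⁻ h, HG P G h (dd (t • c) h) * (Vc (N + 2) ^ 2)⁻¹ := by
    rw [← lintegral_const_mul' _ _ hV3]
    refine lintegral_congr fun t => ?_
    rw [lintegral_mul_const' _ _ hV4, mul_comm, mul_assoc, ENNReal.inv_mul_cancel hV2 hV3,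
      mul_one]
  rw [h3, mul_assoc]
  exact mul_le_mul' le_rfl h1

end Pool.Agent.P8H20.EL
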