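import Pool.Agent.P8H20.EL.Fin1

set_option autoImplicit false

/-! Random functions with a rotation invariant correlation: the global estimate. -/

namespace Pool.Agent.P8H20.EL

open Complex MeasureTheory Set
open Pool.Agent.H153R4 (dd BS cube cube_meas cube_vol kk ch four_ch two_ch interp plancherel)
open scoped ENNReal FourierTransform ComplexConjugate RealInnerProductSpace

variable {n : ℕ} {Ω : Type*} [MeasurableSpace Ω]

/-- the size of the extension -/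
noncomputable def CC (c : Fin n → ℝ) (g : E n → ℂ) (t : ℝ) (x : E n) : ℝ≥0∞ :=
  ‖𝓕 (ch (t • c) g) x‖ₑ

/-- the moments -/
noncomputable def II (P : Measure Ω) (G : Ω → E n → ℂ) (c : Fin n → ℝ) (q : ℝ) (S : Set ℝ) :
    ℝ≥0∞ :=
  ∫⁻ ω, (∫⁻ t in S, ∫⁻ x, CC c (G ω) t x ^ q) ∂P

variable {P : Measure Ω} {G : Ω → E n → ℂ}

lemma CC_meas (c : Fin n → ℝ) (hG : RF P G) :
    Measurable fun p : Ω × ℝ × E n => CC c (G p.1) p.2.1 p.2.2 := (meas_ch c hG.meas).enorm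

lemma CC_meas2 (c : Fin n → ℝ) (q : ℝ) (hG : RF P G) :
    Measurable fun p : Ω × ℝ => ∫⁻ x, CC c (G p.1) p.2 x ^ q := by
  have h1 := (CC_meas c hG).pow_const q
  have h2 : Measurable fun p : (Ω × ℝ) × E n => (p.1.1, p.1.2, p.2) := by fun_prop
  have h3 : Measurable fun p : (Ω × ℝ) × E n => CC c (G p.1.1) p.1.2 p.2 ^ q := (h1.comp h2 :)
  have h4 := h3.lintegral_prod_right' (ν := (volume : Measure (E n)))
  exact h4

lemma II_meas [SFinite P] (c : Fin n → ℝ) (q : ℝ) (hG : RF P G) (S : Set ℝ) :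
    Measurable fun ω => ∫⁻ t in S, ∫⁻ x, CC c (G ω) t x ^ q := by
  have h4 := (CC_meas2 c q hG).lintegral_prod_right' (ν := volume.restrict S)
  exact h4

lemma II_prod [SFinite P] (c : Fin n → ℝ) (q : ℝ) (hG : RF P G) (S : Set ℝ) :
    II P G c q S = ∫⁻ w, CC c (G w.1) w.2.1 w.2.2 ^ q
      ∂(P.prod ((volume.restrict S).prod (volume : Measure (E n)))) := by
  have h1 := (CC_meas c hG).pow_const q
  rw [lintegral_prod _ h1.aemeasurable]
  unfold II
  refine lintegral_congr fun ω => ?_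
  have h2 : Measurable fun p : ℝ × E n => (ω, p.1, p.2) := by fun_prop
  have h3 : Measurable fun p : ℝ × E n => CC c (G ω) p.1 p.2 ^ q := (h1.comp h2 :)
  have h4 : ∫⁻ y : ℝ × E n, CC c (G (ω, y).1) (ω, y).2.1 (ω, y).2.2 ^ q
      ∂((volume.restrict S).prod volume) = ∫⁻ y : ℝ × E n, CC c (G ω) y.1 y.2 ^ q
      ∂((volume.restrict S).prod volume) := rfl
  rw [h4, lintegral_prod _ h3.aemeasurable]

lemma CC_le (c : Fin n → ℝ) (hG : RF P G) (ω : Ω) (t : ℝ) (x : E n) :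
    CC c (G ω) t x ≤ Vc n := F_bd (by
      have := (hG.bs ω).ch (t • c)
      exact this) x

lemma II_mono_q [SFinite P] (c : Fin n → ℝ) (q q0 : ℝ) (hq0 : 0 ≤ q0) (hq : q0 ≤ q)
    (hG : RF P G) (S : Set ℝ) : II P G c q S ≤ Vc n ^ (q - q0) * II P G c q0 S := by
  have hV : Vc n ^ (q - q0) ≠ ⊤ := ENNReal.rpow_ne_top_of_nonneg (by linarith) (Vc_fin n)
  unfold II
  rw [← lintegral_const_mul' _ _ hV]
  refine lintegral_mono fun ω => ?_
  rw [← lintegral_const_mul' _ _ hV]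
  refine lintegral_mono fun t => ?_
  rw [← lintegral_const_mul' _ _ hV]
  refine lintegral_mono fun x => ?_
  have h1 := CC_le c hG ω t x
  calc CC c (G ω) t x ^ q = CC c (G ω) t x ^ ((q - q0) + q0) := by ring_nf
    _ = CC c (G ω) t x ^ (q - q0) * CC c (G ω) t x ^ q0 :=
        ENNReal.rpow_add_of_nonneg _ _ (by linarith) hq0
    _ ≤ _ := mul_le_mul' (ENNReal.rpow_le_rpow h1 (by linarith)) le_rfl

lemma II_two [IsProbabilityMeasure P] (c : Fin n → ℝ) (hG : RF P G) (S : Set ℝ) :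
    II P G c 2 S ≤ Vc n * volume S := by
  have h1 : ∀ ω, ∀ t : ℝ, ∫⁻ x, CC c (G ω) t x ^ (2 : ℝ) ≤ Vc n := by
    intro ω t
    simp only [ENNReal.rpow_ofNat]
    exact BS.pl ((hG.bs ω).ch (t • c))
  unfold II
  calc ∫⁻ ω, (∫⁻ t in S, ∫⁻ x, CC c (G ω) t x ^ (2 : ℝ)) ∂P ≤ ∫⁻ _ω, (∫⁻ _t in S, Vc n) ∂P :=
        lintegral_mono fun ω => lintegral_mono fun t => h1 ω t
    _ = Vc n * volume S := by simp

variable {N : ℕ}

/-- the moments over a dyadic block -/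
lemma block_q (hN : 1 ≤ N) (c : Fin (N + 2) → ℝ) (hc0 : ∀ j, c j ≠ 0) (hc : Function.Injective c)
    (q : ℝ) (hq : 2 + 2 / ((N : ℝ) + 2) < q) (hq4 : q ≤ 4) :
    ∃ (K : ℝ≥0∞) (e : ℝ), K ≠ ⊤ ∧ e < 0 ∧
      ∀ {Ω : Type} [MeasurableSpace Ω] (P : Measure Ω) [IsProbabilityMeasure P]
      (G : Ω → E (N + 2) → ℂ), RF P G → ∀ T : ℝ, 0 < T →
      II P G c q (Ioc T (2 * T)) ≤ K * ENNReal.ofReal (T ^ e) := by
  have hn : (0 : ℝ) < (N : ℝ) + 2 := by positivity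
  have hq2 : 2 < q := by
    have : 0 < 2 / ((N : ℝ) + 2) := by positivity
    linarith
  have h2 : 2 / (((N : ℝ) + 2) * (q - 2)) < 1 := by
    rw [div_lt_one (mul_pos hn (by linarith))]
    have h3 : 2 / ((N : ℝ) + 2) < q - 2 := by linarith
    rw [div_lt_iff₀ hn] at h3
    linarith
  obtain ⟨a, ha1, ha⟩ := exists_between h2
  have ha0 : 0 < a := lt_trans (div_pos two_pos (mul_pos hn (by linarith))) ha1
  have he : 1 - ((N : ℝ) + 2) * a * ((q - 2) / 2) < 0 := by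
    rw [div_lt_iff₀ (mul_pos hn (by linarith))] at ha1
    nlinarith
  obtain ⟨K, hK, h4⟩ := block4 hN c hc0 hc ha0 ha
  refine ⟨Vc (N + 2) ^ ((4 - q) / 2) * K ^ ((q - 2) / 2),
    1 - ((N : ℝ) + 2) * a * ((q - 2) / 2), ?_, he, ?_⟩
  · exact ENNReal.mul_ne_top (ENNReal.rpow_ne_top_of_nonneg (by linarith) (Vc_fin _))
      (ENNReal.rpow_ne_top_of_nonneg (by linarith) hK)
  intro Ω _ P _ G hG T hT
  rw [II_prod c q hG]
  refine (interp _ _ (CC_meas c hG) q hq2.le hq4).trans ?_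
  have b2 : ∫⁻ w, CC c (G w.1) w.2.1 w.2.2 ^ 2
      ∂(P.prod ((volume.restrict (Ioc T (2 * T))).prod (volume : Measure (E (N + 2))))) ≤
      Vc (N + 2) * ENNReal.ofReal T := by
    have h5 := II_two c hG (Ioc T (2 * T))
    rw [II_prod c 2 hG] at h5
    simp only [ENNReal.rpow_ofNat] at h5
    refine h5.trans (le_of_eq ?_)
    rw [Real.volume_Ioc]
    congr 2
    ring
  have b4 : ∫⁻ w, CC c (G w.1) w.2.1 w.2.2 ^ 4
      ∂(P.prod ((volume.restrict (Ioc T (2 * T))).prod (volume : Measure (E (N + 2))))) ≤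
      K * ENNReal.ofReal (T ^ (1 - ((N : ℝ) + 2) * a)) := by
    have h5 := h4 P G hG T hT
    have h6 : II P G c 4 (Ioc T (2 * T)) ≤ K * ENNReal.ofReal (T ^ (1 - ((N : ℝ) + 2) * a)) := by
      unfold II
      simp only [ENNReal.rpow_ofNat]
      exact h5
    rw [II_prod c 4 hG] at h6
    simp only [ENNReal.rpow_ofNat] at h6
    exact h6
  refine (mul_le_mul' (ENNReal.rpow_le_rpow b2 (by linarith)) (ENNReal.rpow_le_rpow b4
    (by linarith))).trans (le_of_eq ?_)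
  rw [ENNReal.mul_rpow_of_nonneg _ _ (by linarith : 0 ≤ (4 - q) / 2),
    ENNReal.mul_rpow_of_nonneg _ _ (by linarith : 0 ≤ (q - 2) / 2),
    ENNReal.ofReal_rpow_of_pos hT, ENNReal.ofReal_rpow_of_pos (by positivity)]
  have h7 : ENNReal.ofReal (T ^ ((4 - q) / 2)) *
      ENNReal.ofReal ((T ^ (1 - ((N : ℝ) + 2) * a)) ^ ((q - 2) / 2)) =
      ENNReal.ofReal (T ^ (1 - ((N : ℝ) + 2) * a * ((q - 2) / 2))) := by
    rw [← ENNReal.ofReal_mul (by positivity), ← Real.rpow_mul hT.le, ← Real.rpow_add hT]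
    congr 2
    ring
  rw [← h7]
  ring

lemma II_iUnion [SFinite P] (c : Fin n → ℝ) (q : ℝ) (hG : RF P G) (S : ℕ → Set ℝ) :
    II P G c q (⋃ j, S j) ≤ ∑' j, II P G c q (S j) := by
  unfold II
  rw [← lintegral_tsum fun j => (II_meas c q hG (S j)).aemeasurable]
  exact lintegral_mono fun ω => lintegral_iUnion_le _ _

lemma II_mono (c : Fin n → ℝ) (q : ℝ) {S T : Set ℝ} (h : S ⊆ T) :
    II P G c q S ≤ II P G c q T := by
  unfold II
  exact lintegral_mono fun ω => lintegral_mono_set h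

lemma II_union [SFinite P] (c : Fin n → ℝ) (q : ℝ) (hG : RF P G) (S T : Set ℝ) :
    II P G c q (S ∪ T) ≤ II P G c q S + II P G c q T := by
  unfold II
  rw [← lintegral_add_left (II_meas c q hG S)]
  exact lintegral_mono fun ω => lintegral_union_le _ _ _

lemma Ioi_cover : Ioi (1 : ℝ) ⊆ ⋃ j : ℕ, Ioc ((2 : ℝ) ^ j) (2 * 2 ^ j) := by
  intro t ht
  have ht' : 1 < t := ht
  obtain ⟨j, hj1, hj2⟩ := exists_nat_pow_near ht'.le (by norm_num : (1 : ℝ) < 2)
  rcases eq_or_lt_of_le hj1 with h | h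
  · -- `t` is a power of two
    have hj : j ≠ 0 := by
      rintro rfl
      rw [pow_zero] at h
      linarith
    obtain ⟨i, rfl⟩ := Nat.exists_eq_succ_of_ne_zero hj
    rw [mem_iUnion]
    refine ⟨i, ?_, ?_⟩
    · rw [← h, Nat.succ_eq_add_one, pow_succ]
      have : (0 : ℝ) < 2 ^ i := by positivity
      linarith
    · rw [← h, Nat.succ_eq_add_one, pow_succ]
      linarith
  · rw [mem_iUnion]
    refine ⟨j, h, ?_⟩
    rw [pow_succ] at hj2
    linarith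

lemma pos_q (hN : 1 ≤ N) (c : Fin (N + 2) → ℝ) (hc0 : ∀ j, c j ≠ 0) (hc : Function.Injective c)
    (q : ℝ) (hq : 2 + 2 / ((N : ℝ) + 2) < q) (hq4 : q ≤ 4) :
    ∃ K : ℝ≥0∞, K ≠ ⊤ ∧
      ∀ {Ω : Type} [MeasurableSpace Ω] (P : Measure Ω) [IsProbabilityMeasure P]
      (G : Ω → E (N + 2) → ℂ), RF P G → II P G c q (Ioi 1) ≤ K := by
  obtain ⟨K, e, hK, he, h⟩ := block_q hN c hc0 hc q hq hq4
  set x : ℝ≥0∞ := ENNReal.ofReal ((2 : ℝ) ^ e) with hx
  have hx1 : x < 1 := by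
    rw [hx, ENNReal.ofReal_lt_one]
    exact Real.rpow_lt_one_of_one_lt_of_neg (by norm_num) he
  have hj : ∀ j : ℕ, ENNReal.ofReal (((2 : ℝ) ^ j) ^ e) = x ^ j := by
    intro j
    rw [hx, ← ENNReal.ofReal_pow (by positivity)]
    congr 1
    rw [← Real.rpow_natCast, ← Real.rpow_mul (by norm_num), mul_comm, Real.rpow_mul (by norm_num),
      Real.rpow_natCast]
  refine ⟨K * (1 - x)⁻¹, ENNReal.mul_ne_top hK ?_, ?_⟩
  · rw [ENNReal.inv_ne_top]
    exact (tsub_pos_of_lt hx1).ne'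
  intro Ω _ P _ G hG
  refine (II_mono c q Ioi_cover).trans ((II_iUnion c q hG _).trans ?_)
  rw [← ENNReal.tsum_geometric, ← ENNReal.tsum_mul_left]
  refine ENNReal.tsum_le_tsum fun j => ?_
  rw [← hj]
  exact h P G hG _ (by positivity)

lemma II_neg (c : Fin n → ℝ) (q : ℝ) : II P G c q (Iio (-1)) = II P G (-c) q (Ioi 1) := by
  unfold II
  refine lintegral_congr fun ω => ?_
  rw [← lintegral_indicator measurableSet_Iio, ← lintegral_indicator measurableSet_Ioi]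
  have h := (Measure.measurePreserving_neg (volume : Measure ℝ)).lintegral_comp_emb
    (MeasurableEquiv.neg ℝ).measurableEmbedding
    ((Iio (-1 : ℝ)).indicator fun t => ∫⁻ x, CC c (G ω) t x ^ q)
  rw [← h]
  refine lintegral_congr fun t => ?_
  by_cases ht : 1 < t
  · rw [indicator_of_mem (show -t ∈ Iio (-1 : ℝ) from neg_lt_neg ht),
      indicator_of_mem (show t ∈ Ioi (1 : ℝ) from ht)]
    unfold CC
    rw [neg_smul, smul_neg]
  · rw [indicator_of_notMem (show -t ∉ Iio (-1 : ℝ) from fun h => ht (neg_lt_neg_iff.1 h)),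
      indicator_of_notMem (show t ∉ Ioi (1 : ℝ) from ht)]

theorem core_low (hN : 1 ≤ N) (c : Fin (N + 2) → ℝ) (hc0 : ∀ j, c j ≠ 0)
    (hc : Function.Injective c) (q : ℝ) (hq : 2 + 2 / ((N : ℝ) + 2) < q) (hq4 : q ≤ 4) :
    ∃ K : ℝ≥0∞, K ≠ ⊤ ∧
      ∀ {Ω : Type} [MeasurableSpace Ω] (P : Measure Ω) [IsProbabilityMeasure P]
      (G : Ω → E (N + 2) → ℂ), RF P G → II P G c q univ ≤ K := by
  have hq2 : 2 < q := by
    have : 0 < 2 / ((N : ℝ) + 2) := by positivity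
    linarith
  obtain ⟨K1, hK1, h1⟩ := pos_q hN c hc0 hc q hq hq4
  obtain ⟨K2, hK2, h2⟩ := pos_q hN (-c) (fun j => neg_ne_zero.2 (hc0 j))
    (fun i j hij => hc (neg_injective hij)) q hq hq4
  refine ⟨Vc (N + 2) ^ (q - 2) * (Vc (N + 2) * volume (Icc (-1 : ℝ) 1)) + (K1 + K2), ?_, ?_⟩
  · refine ENNReal.add_ne_top.2 ⟨ENNReal.mul_ne_top (ENNReal.rpow_ne_top_of_nonneg
      (by linarith) (Vc_fin _)) (ENNReal.mul_ne_top (Vc_fin _) ?_), ENNReal.add_ne_top.2 ⟨hK1, hK2⟩⟩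
    rw [Real.volume_Icc]
    exact ENNReal.ofReal_ne_top
  intro Ω _ P _ G hG
  have hcov : (univ : Set ℝ) ⊆ Icc (-1) 1 ∪ (Ioi 1 ∪ Iio (-1)) := by
    intro t _
    rcases lt_or_ge 1 t with h | h
    · exact Or.inr (Or.inl h)
    · rcases lt_or_ge t (-1) with h' | h'
      · exact Or.inr (Or.inr h')
      · exact Or.inl ⟨h', h⟩
  refine (II_mono c q hcov).trans ((II_union c q hG _ _).trans (add_le_add ?_ ?_))
  · refine (II_mono_q c q 2 (by norm_num) hq2.le hG _).trans ?_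
    exact mul_le_mul' le_rfl (II_two c hG _)
  · refine (II_union c q hG _ _).trans (add_le_add (h1 P G hG) ?_)
    rw [II_neg]
    exact h2 P G hG

/-- **The global estimate.** -/
theorem core (hN : 1 ≤ N) (c : Fin (N + 2) → ℝ) (hc0 : ∀ j, c j ≠ 0)
    (hc : Function.Injective c) (q : ℝ) (hq : 2 + 2 / ((N : ℝ) + 2) < q) :
    ∃ K : ℝ≥0∞, K ≠ ⊤ ∧
      ∀ {Ω : Type} [MeasurableSpace Ω] (P : Measure Ω) [IsProbabilityMeasure P]
      (G : Ω → E (N + 2) → ℂ), RF P G → II P G c q univ ≤ K := by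
  rcases le_or_gt q 4 with h4 | h4
  · exact core_low hN c hc0 hc q hq h4
  · have h5 : 2 + 2 / ((N : ℝ) + 2) < 4 := by
      have hn : (0 : ℝ) ≤ N := Nat.cast_nonneg N
      have : 2 / ((N : ℝ) + 2) ≤ 1 := by
        rw [div_le_one (by linarith)]
        linarith
      linarith
    obtain ⟨K, hK, h⟩ := core_low hN c hc0 hc 4 h5 le_rfl
    refine ⟨Vc (N + 2) ^ (q - 4) * K, ENNReal.mul_ne_top (ENNReal.rpow_ne_top_of_nonneg
      (by linarith) (Vc_fin _)) hK, ?_⟩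
    intro Ω _ P _ G hG
    exact (II_mono_q c q 4 (by norm_num) h4.le hG _).trans (mul_le_mul' le_rfl (h P G hG))

end Pool.Agent.P8H20.EL
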