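import Pool.Agent.P8H20.EL.Fin2
import Pool.Agent.P8H66.QP.N

set_option autoImplicit false

/-! The paraboloid: changes of variables and cutting off with strips. -/

namespace Pool.Agent.P8H20.EL

open MeasureTheory Set
open Pool.Agent.P8H66.QP (EX EP Nq Nq_eq Dom Ps st st_meas st_le st_Nq rho rho_sum EP_meas EP_le
  EP_smul GG)
open Pool.Agent.TH277.HT (ch ch_norm ch_enorm ch_add ch_cont)
open scoped ENNReal FourierTransform RealInnerProductSpace

variable {n : ℕ}

/-- translations -/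
lemma EX_shift (f : E n → ℂ) (v : E n) (t : ℝ) (x : E n) :
    EX (fun ξ => f (ξ - v)) t x = ch (⟪v, x⟫ + ‖v‖ ^ 2 * t) * EX f t (x + (2 * t) • v) := by
  unfold EX
  rw [← integral_add_right_eq_self _ v, ← integral_const_mul]
  refine integral_congr_ae (ae_of_all _ fun ξ => ?_)
  simp only [add_sub_cancel_right]
  rw [← mul_assoc, ← ch_add]
  congr 2
  rw [inner_add_left, inner_add_right, inner_smul_right, norm_add_sq_real]
  ring

/-- rotations -/
lemma EX_rot (f : E n → ℂ) (e : E n ≃ₗᵢ[ℝ] E n) (t : ℝ) (x : E n) :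
    EX (fun ξ => f (e ξ)) t x = EX f t (e x) := by
  unfold EX
  have h := e.measurePreserving.integral_comp e.toHomeomorph.measurableEmbedding
    (fun η => ch (⟪η, e x⟫ + ‖η‖ ^ 2 * t) * f η)
  rw [← h]
  refine integral_congr_ae (ae_of_all _ fun ξ => ?_)
  simp only [e.inner_map_map, e.norm_map]

/-- dilations -/
noncomputable def dil (d : Fin n → ℝ) (ξ : E n) : E n := WithLp.toLp 2 fun j => d j * ξ j

lemma dil_meas (d : Fin n → ℝ) : Measurable (dil d) := by
  unfold dil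
  apply (PiLp.volume_preserving_toLp (Fin n)).measurable.comp
  rw [measurable_pi_iff]
  intro j
  fun_prop

/-- the dilation as a linear map -/
noncomputable def dilL (d : Fin n → ℝ) : E n →ₗ[ℝ] E n where
  toFun := dil d
  map_add' x y := by
    ext j
    simp [dil, mul_add]
  map_smul' r x := by
    ext j
    simp only [dil, PiLp.smul_apply, smul_eq_mul, RingHom.id_apply]
    ring

lemma dil_dil (d : Fin n → ℝ) (hd : ∀ j, d j ≠ 0) (ξ : E n) :
    dil (fun j => (d j)⁻¹) (dil d ξ) = ξ := by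
  ext j
  simp only [dil]
  rw [← mul_assoc, inv_mul_cancel₀ (hd j), one_mul]

lemma dil_vol (d : Fin n → ℝ) (hd : ∀ j, d j ≠ 0) :
    ∃ κ : ℝ, 0 < κ ∧ Measure.map (dil d) (volume : Measure (E n)) = ENNReal.ofReal κ • volume := by
  have hdet : LinearMap.det (dilL d) ≠ 0 := by
    intro h
    have h1 : (dilL fun j => (d j)⁻¹) ∘ₗ dilL d = LinearMap.id := by
      ext1 ξ
      exact dil_dil d hd ξ
    have h2 := congrArg LinearMap.det h1
    rw [LinearMap.det_comp, h, mul_zero, LinearMap.det_id] at h2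
    exact zero_ne_one h2
  have h := Measure.map_linearMap_addHaar_eq_smul_addHaar (volume : Measure (E n)) hdet
  exact ⟨|(LinearMap.det (dilL d))⁻¹|, abs_pos.2 (inv_ne_zero hdet), h⟩

lemma inner_dil (d : Fin n → ℝ) (hd : ∀ j, d j ≠ 0) (ξ x : E n) :
    ⟪dil d ξ, dil (fun j => (d j)⁻¹) x⟫ = ⟪ξ, x⟫ := by
  rw [PiLp.inner_apply, PiLp.inner_apply]
  refine Finset.sum_congr rfl fun j _ => ?_
  simp only [dil, RCLike.inner_apply, conj_trivial]
  have := hd j
  field_simp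

lemma norm_dil (d : Fin n → ℝ) (hd : ∀ j, d j ≠ 0) (ξ : E n) :
    ‖ξ‖ ^ 2 = ∑ j, 1 / d j ^ 2 * (dil d ξ) j ^ 2 := by
  rw [EuclideanSpace.real_norm_sq_eq]
  refine Finset.sum_congr rfl fun j _ => ?_
  simp only [dil]
  have := hd j
  field_simp

lemma EX_dil (d : Fin n → ℝ) (hd : ∀ j, d j ≠ 0) {κ : ℝ} (hκ : 0 < κ)
    (hv : Measure.map (dil d) (volume : Measure (E n)) = ENNReal.ofReal κ • volume)
    {f : E n → ℂ} (hf : Measurable f) (t : ℝ) (x : E n) :
    ‖EX (fun ξ => f (dil d ξ)) t x‖ₑ =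
      ENNReal.ofReal κ * CC (fun j => 1 / d j ^ 2) f (-t) (-dil (fun j => (d j)⁻¹) x) := by
  set c : Fin n → ℝ := fun j => 1 / d j ^ 2 with hc
  set F : E n → ℂ := fun ζ => ch (⟪ζ, dil (fun j => (d j)⁻¹) x⟫ + (∑ j, c j * ζ j ^ 2) * t) * f ζ
    with hF
  have hFm : Measurable F := by
    have h1 : Continuous fun ζ : E n =>
        ch (⟪ζ, dil (fun j => (d j)⁻¹) x⟫ + (∑ j, c j * ζ j ^ 2) * t) := ch_cont.comp (by fun_prop)
    exact h1.measurable.mul hf
  have h1 : EX (fun ξ => f (dil d ξ)) t x = κ * ∫ ζ, F ζ := by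
    have h2 : ∫ ζ, F ζ ∂(Measure.map (dil d) (volume : Measure (E n))) =
        ∫ ξ, F (dil d ξ) :=
      integral_map (dil_meas d).aemeasurable hFm.aestronglyMeasurable
    rw [hv, integral_smul_measure, ENNReal.toReal_ofReal hκ.le] at h2
    unfold EX
    rw [← Complex.real_smul, h2]
    refine integral_congr_ae (ae_of_all _ fun ξ => ?_)
    simp only [hF]
    rw [inner_dil d hd, norm_dil d hd]
  have h3 : ∫ ζ, F ζ = 𝓕 (Pool.Agent.H153R4.ch ((-t) • c) f) (-dil (fun j => (d j)⁻¹) x) := by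
    rw [Real.fourier_eq']
    refine integral_congr_ae (ae_of_all _ fun ζ => ?_)
    simp only [hF, Pool.Agent.H153R4.ch, smul_eq_mul]
    rw [← mul_assoc]
    congr 1
    unfold ch
    rw [← Complex.exp_add]
    congr 1
    have e1 : ∑ j, ((-t) • c) j * ζ j ^ 2 = -((∑ j, c j * ζ j ^ 2) * t) := by
      rw [Finset.sum_mul, ← Finset.sum_neg_distrib]
      refine Finset.sum_congr rfl fun j _ => ?_
      simp only [Pi.smul_apply, smul_eq_mul]
      ring
    rw [e1, inner_neg_right]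
    push_cast
    ring
  rw [h1, enorm_mul, h3]
  congr 1
  rw [← ofReal_norm, Complex.norm_real, Real.norm_eq_abs, abs_of_pos hκ]

/-- the norm of the dilates -/
lemma Nq_dil (d : Fin n → ℝ) (hd : ∀ j, d j ≠ 0) (q : ℝ) (hq : 0 ≤ q) :
    ∃ K : ℝ≥0∞, K ≠ ⊤ ∧ ∀ (b : OrthonormalBasis (Fin n) ℝ (E n)) (v : E n) (f : E n → ℂ),
      Measurable f → Nq q (fun ξ => f (dil d (b.repr (ξ - v)))) =
        K * ∫⁻ t : ℝ, ∫⁻ x, CC (fun j => 1 / d j ^ 2) f t x ^ q := by
  obtain ⟨κ, hκ, hv⟩ := dil_vol d hd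
  obtain ⟨κ', hκ', hv'⟩ := dil_vol (fun j => (d j)⁻¹) (fun j => inv_ne_zero (hd j))
  refine ⟨ENNReal.ofReal κ ^ q * ENNReal.ofReal κ', ENNReal.mul_ne_top
    (ENNReal.rpow_ne_top_of_nonneg hq ENNReal.ofReal_ne_top) ENNReal.ofReal_ne_top, ?_⟩
  intro b v f hf
  set c : Fin n → ℝ := fun j => 1 / d j ^ 2 with hc
  have hdm := dil_meas d
  have hfm : Measurable fun ξ : E n => f (dil d (b.repr (ξ - v))) := by
    refine hf.comp (hdm.comp ?_)
    fun_prop
  rw [Nq_eq q hfm]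
  -- translations and rotations
  have h1 : ∀ t x, ‖EX (fun ξ => f (dil d (b.repr (ξ - v)))) t x‖ₑ =
      ENNReal.ofReal κ * CC c f (-t) (-dil (fun j => (d j)⁻¹) (b.repr (x + (2 * t) • v))) := by
    intro t x
    rw [EX_shift (fun ξ => f (dil d (b.repr ξ))), enorm_mul, ch_enorm, one_mul,
      EX_rot (fun ξ => f (dil d ξ)) b.repr, EX_dil d hd hκ hv hf]
  simp only [h1]
  have hCm : ∀ t, Measurable fun x => CC c f t x ^ q := by
    intro t
    apply Measurable.pow_const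
    unfold CC
    apply Measurable.enorm
    have h2 := meas_ch (Ω := Unit) (G := fun _ => f) c (hf.comp measurable_snd)
    have h3 : Measurable fun x : E n => ((), t, x) := by fun_prop
    exact (h2.comp h3 :)
  have h2 : ∀ t : ℝ, ∫⁻ x, (ENNReal.ofReal κ *
      CC c f (-t) (-dil (fun j => (d j)⁻¹) (b.repr (x + (2 * t) • v)))) ^ q =
      ENNReal.ofReal κ ^ q * ENNReal.ofReal κ' * ∫⁻ x, CC c f (-t) x ^ q := by
    intro t
    have e1 : ∫⁻ x, (ENNReal.ofReal κ *
      CC c f (-t) (-dil (fun j => (d j)⁻¹) (b.repr (x + (2 * t) • v)))) ^ q =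
      ENNReal.ofReal κ ^ q * ∫⁻ x,
        CC c f (-t) (-dil (fun j => (d j)⁻¹) (b.repr (x + (2 * t) • v))) ^ q := by
      rw [← lintegral_const_mul' _ _ (ENNReal.rpow_ne_top_of_nonneg hq ENNReal.ofReal_ne_top)]
      refine lintegral_congr fun x => ?_
      rw [ENNReal.mul_rpow_of_nonneg _ _ hq]
    rw [e1, mul_assoc]
    congr 1
    have e2 : ∫⁻ x, CC c f (-t) (-dil (fun j => (d j)⁻¹) (b.repr (x + (2 * t) • v))) ^ q =
        ∫⁻ x, CC c f (-t) (-dil (fun j => (d j)⁻¹) (b.repr x)) ^ q :=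
      lintegral_add_right_eq_self
        (fun x => CC c f (-t) (-dil (fun j => (d j)⁻¹) (b.repr x)) ^ q) _
    have hm1 : Measurable fun x => CC c f (-t) (-x) ^ q := (hCm (-t)).comp measurable_neg
    have e3 : ∫⁻ x, CC c f (-t) (-dil (fun j => (d j)⁻¹) (b.repr x)) ^ q =
        ∫⁻ x, CC c f (-t) (-dil (fun j => (d j)⁻¹) x) ^ q :=
      b.measurePreserving_repr.lintegral_comp (hm1.comp (dil_meas _))
    have e4 : ∫⁻ x, CC c f (-t) (-dil (fun j => (d j)⁻¹) x) ^ q =
        ENNReal.ofReal κ' * ∫⁻ x, CC c f (-t) (-x) ^ q := by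
      rw [← smul_eq_mul, ← lintegral_smul_measure, ← hv', lintegral_map hm1 (dil_meas _)]
    have e5 : ∫⁻ x, CC c f (-t) (-x) ^ q = ∫⁻ x, CC c f (-t) x ^ q :=
      (Measure.measurePreserving_neg (volume : Measure (E n))).lintegral_comp (hCm (-t))
    rw [e2, e3, e4, e5]
  simp only [h2]
  rw [lintegral_const_mul' _ _ (ENNReal.mul_ne_top
    (ENNReal.rpow_ne_top_of_nonneg hq ENNReal.ofReal_ne_top) ENNReal.ofReal_ne_top)]
  congr 1
  have h3 : Measurable fun t : ℝ => ∫⁻ x, CC c f t x ^ q := by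
    have h4 := (meas_ch (Ω := Unit) (G := fun _ => f) c (hf.comp measurable_snd)).enorm.pow_const q
    have h5 : Measurable fun p : ℝ × E n => ((), p.1, p.2) := by fun_prop
    have h6 : Measurable fun p : ℝ × E n => CC c f p.1 p.2 ^ q := (h4.comp h5 :)
    exact h6.lintegral_prod_right'
  exact (Measure.measurePreserving_neg (volume : Measure ℝ)).lintegral_comp h3

end Pool.Agent.P8H20.EL
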