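import Pool.Agent.P8H20.EL.Fin3

set_option autoImplicit false

/-! The paraboloid: cutting off with polytopes, superpositions. -/

namespace Pool.Agent.P8H20.EL

open MeasureTheory Set
open Pool.Agent.P8H66.QP (EX EP Nq Nq_eq Dom Ps st st_meas st_le st_Nq rho_sum EP_meas EP_le
  EP_smul GG half)
open Pool.Agent
open Pool.Agent.TH277.HT (ch ch_norm ch_enorm ch_add ch_cont)
open scoped ENNReal FourierTransform RealInnerProductSpace

variable {n : ℕ} {Ω : Type*} [MeasurableSpace Ω]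

lemma EPr_meas {f : Ω → E n → ℂ} (hf : Measurable (Function.uncurry f)) :
    Measurable fun r : Ω × (E n × ℝ) => EP (f r.1) r.2 := by
  unfold EP EX
  have h1 : Measurable fun q : (Ω × (E n × ℝ)) × E n =>
      ch (⟪q.2, q.1.2.1⟫ + ‖q.2‖ ^ 2 * q.1.2.2) * f q.1.1 q.2 := by
    apply Measurable.mul
    · have h2 : Continuous fun q : (E n × ℝ) × E n => ch (⟪q.2, q.1.1⟫ + ‖q.2‖ ^ 2 * q.1.2) :=
        ch_cont.comp (by fun_prop)
      have h3 : Measurable fun q : (Ω × (E n × ℝ)) × E n => (q.1.2, q.2) := by fun_prop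
      exact (h2.measurable.comp h3 :)
    · have h3 : Measurable fun q : (Ω × (E n × ℝ)) × E n => (q.1.1, q.2) := by fun_prop
      exact (hf.comp h3 :)
  exact (h1.stronglyMeasurable.integral_prod_right' (ν := (volume : Measure (E n)))).measurable

lemma Nqr_meas {f : Ω → E n → ℂ} (hf : Measurable (Function.uncurry f)) (q : ℝ) :
    Measurable fun ω => Nq q (f ω) := by
  unfold Nq
  exact ((EPr_meas hf).enorm.pow_const q).lintegral_prod_right'

lemma Nq_smul (q : ℝ) (hq : 0 ≤ q) (a : ℂ) (f : E n → ℂ) :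
    Nq q (fun ξ => a * f ξ) = ‖a‖ₑ ^ q * Nq q f := by
  unfold Nq
  rw [← lintegral_const_mul' _ _ (ENNReal.rpow_ne_top_of_nonneg hq enorm_ne_top)]
  refine lintegral_congr fun p => ?_
  rw [EP_smul, enorm_mul, ENNReal.mul_rpow_of_nonneg _ _ hq]

/-- random functions and strips -/
lemma strip_rand {m : ℕ} {q q' δ : ℝ} (hq' : 1 ≤ q') (hqq : q' < q) (hδ : 0 < δ) {P : Measure Ω}
    {f : Ω → E (m + 1) → ℂ} (hf : Measurable (Function.uncurry f)) (hd : ∀ ω, Dom (f ω))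
    (μ : E (m + 1)) (hμ : δ ≤ ‖μ‖) (β : ℝ) :
    ∫⁻ ω, Nq q (fun ξ => f ω ξ * st μ β ξ) ∂P ≤ (2 : ℝ≥0∞) ^ (q - 1) * (∫⁻ ω, Nq q (f ω) ∂P +
      (∑' l, 2 * P8H66.QP.rho δ ((q - q') / q) l) ^ q * ∫⁻ ω, Nq q' (f ω) ∂P) := by
  have hq0 : 0 < q := by linarith
  have hSg : (∑' l, 2 * P8H66.QP.rho δ ((q - q') / q) l) ≠ ⊤ :=
    rho_sum hδ (div_pos (by linarith) hq0)
  have h1 : ∀ ω, Nq q (fun ξ => f ω ξ * st μ β ξ) ≤ (2 : ℝ≥0∞) ^ (q - 1) * (Nq q (f ω) +
      (∑' l, 2 * P8H66.QP.rho δ ((q - q') / q) l) ^ q * Nq q' (f ω)) := by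
    intro ω
    refine (st_Nq hq' hqq hδ (hd ω) μ hμ β).trans ?_
    refine (ENNReal.rpow_add_le_mul_rpow_add_rpow _ _ (by linarith)).trans (le_of_eq ?_)
    rw [ENNReal.mul_rpow_of_nonneg _ _ hq0.le, ← ENNReal.rpow_mul, ← ENNReal.rpow_mul,
      one_div_mul_cancel hq0.ne', ENNReal.rpow_one, ENNReal.rpow_one]
  refine (lintegral_mono h1).trans (le_of_eq ?_)
  rw [lintegral_const_mul' _ _ (ENNReal.rpow_ne_top_of_nonneg (by linarith) (by norm_num)),
    lintegral_add_left (Nqr_meas hf q),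
    lintegral_const_mul' _ _ (ENNReal.rpow_ne_top_of_nonneg hq0.le hSg)]

variable {N : ℕ}

/-- the basic functions -/
noncomputable def BF (c0 : ℝ) (d : Fin n → ℝ) (b : OrthonormalBasis (Fin n) ℝ (E n)) (v : E n)
    (G : Ω → E n → ℂ) (ω : Ω) (ξ : E n) : ℂ := c0 * G ω (dil d (b.repr (ξ - v)))

lemma BF_meas (c0 : ℝ) (d : Fin n → ℝ) (b : OrthonormalBasis (Fin n) ℝ (E n)) (v : E n)
    {G : Ω → E n → ℂ} (hG : Measurable (Function.uncurry G)) :
    Measurable (Function.uncurry (BF c0 d b v G)) := by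
  have h1 : Measurable fun p : Ω × E n => (p.1, dil d (b.repr (p.2 - v))) := by
    have h2 : Measurable fun p : Ω × E n => b.repr (p.2 - v) := by fun_prop
    have h3 : Measurable fun p : Ω × E n => dil d (b.repr (p.2 - v)) := ((dil_meas d).comp h2 :)
    exact measurable_fst.prodMk h3
  have h4 : Measurable fun p : Ω × E n => G p.1 (dil d (b.repr (p.2 - v))) := (hG.comp h1 :)
  exact h4.const_mul _

lemma exists_c0 (d : Fin (N + 2) → ℝ) (hd : ∀ j, d j ≠ 0) (R : ℝ) :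
    ∃ c0 : ℝ, 0 < c0 ∧ ∀ {Ω : Type} [MeasurableSpace Ω] (P : Measure Ω)
      (G : Ω → E (N + 2) → ℂ), RF P G → ∀ (b : OrthonormalBasis (Fin (N + 2)) ℝ (E (N + 2)))
      (v : E (N + 2)), ‖v‖ ≤ R → ∀ ω, Dom (BF c0 d b v G ω) := by
  set L : E (N + 2) →L[ℝ] E (N + 2) :=
    LinearMap.toContinuousLinearMap (dilL fun j => (d j)⁻¹) with hL
  set r : ℝ := ‖L‖ + R with hr
  refine ⟨Real.exp (-(Real.pi * r ^ 2)), Real.exp_pos _, ?_⟩
  intro Ω _ P G hG b v hv ω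
  refine ⟨(BF_meas _ d b v hG.meas).comp measurable_prodMk_left, fun ξ => ?_⟩
  have hGG : ‖(GG ξ : ℂ)‖ = Real.exp (-(Real.pi * ‖ξ‖ ^ 2)) := by
    unfold GG
    rw [Complex.norm_real, Real.norm_eq_abs, abs_of_pos (Real.exp_pos _)]
  rw [hGG]
  unfold BF
  by_cases h1 : 1 < ‖dil d (b.repr (ξ - v))‖
  · rw [hG.supp ω _ h1, mul_zero, norm_zero]
    exact (Real.exp_pos _).le
  · push Not at h1
    have h2 : ‖ξ - v‖ ≤ ‖L‖ := by
      have h3 : L (dil d (b.repr (ξ - v))) = b.repr (ξ - v) := dil_dil d hd _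
      calc ‖ξ - v‖ = ‖b.repr (ξ - v)‖ := (b.repr.norm_map _).symm
        _ = ‖L (dil d (b.repr (ξ - v)))‖ := by rw [h3]
        _ ≤ ‖L‖ * ‖dil d (b.repr (ξ - v))‖ := L.le_opNorm _
        _ ≤ ‖L‖ * 1 := by gcongr
        _ = ‖L‖ := mul_one _
    have h4 : ‖ξ‖ ≤ r := by
      calc ‖ξ‖ = ‖(ξ - v) + v‖ := by simp
        _ ≤ ‖ξ - v‖ + ‖v‖ := norm_add_le _ _
        _ ≤ r := by rw [hr]; linarith
    rw [norm_mul, Complex.norm_real, Real.norm_eq_abs, abs_of_pos (Real.exp_pos _)]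
    calc Real.exp (-(Real.pi * r ^ 2)) * ‖G ω (dil d (b.repr (ξ - v)))‖ ≤
          Real.exp (-(Real.pi * r ^ 2)) * 1 := by
            gcongr
            exact hG.bd ω _
      _ ≤ Real.exp (-(Real.pi * ‖ξ‖ ^ 2)) := by
          rw [mul_one]
          apply Real.exp_le_exp.2
          have := Real.pi_pos
          have h5 : ‖ξ‖ ^ 2 ≤ r ^ 2 := pow_le_pow_left₀ (norm_nonneg _) h4 2
          nlinarith

lemma Ps_meas {m : ℕ} (l : List (E (m + 1) × ℝ)) : Measurable (Ps l) := by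
  induction l with
  | nil =>
    have : (Ps [] : E (m + 1) → ℂ) = fun _ => 1 := by
      ext ξ
      simp [Ps]
    rw [this]
    exact measurable_const
  | cons p l ih =>
    have : (Ps (p :: l) : E (m + 1) → ℂ) = fun ξ => st p.1 p.2 ξ * Ps l ξ := by
      ext ξ
      simp [Ps]
    rw [this]
    exact (st_meas _ _).mul ih

lemma Ps_le {m : ℕ} (l : List (E (m + 1) × ℝ)) (ξ : E (m + 1)) : ‖Ps l ξ‖ ≤ 1 := by
  induction l with
  | nil => simp [Ps]
  | cons p l ih =>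
    have : Ps (p :: l) ξ = st p.1 p.2 ξ * Ps l ξ := by simp [Ps]
    rw [this, norm_mul]
    have := st_le p.1 p.2 ξ
    exact mul_le_one₀ this (norm_nonneg _) ih

/-- the random functions cut off with strips -/
theorem strips (hN : 1 ≤ N) (d : Fin (N + 2) → ℝ) (hd0 : ∀ j, 0 < d j)
    (hd : Function.Injective d) (R δ : ℝ) (hδ : 0 < δ) :
    ∃ c0 : ℝ, 0 < c0 ∧ ∀ k : ℕ, ∀ q : ℝ, 2 + 2 / ((N : ℝ) + 2) < q → ∃ C : ℝ≥0∞, C ≠ ⊤ ∧
      ∀ {Ω : Type} [MeasurableSpace Ω] (P : Measure Ω) [IsProbabilityMeasure P]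
      (G : Ω → E (N + 2) → ℂ), RF P G → ∀ (b : OrthonormalBasis (Fin (N + 2)) ℝ (E (N + 2)))
      (v : E (N + 2)), ‖v‖ ≤ R → ∀ l : List (E (N + 2) × ℝ), l.length = k →
      (∀ p ∈ l, δ ≤ ‖p.1‖) →
      ∫⁻ ω, Nq q (fun ξ => BF c0 d b v G ω ξ * Ps (m := N + 1) l ξ) ∂P ≤ C := by
  have hdn : ∀ j, d j ≠ 0 := fun j => (hd0 j).ne'
  obtain ⟨c0, hc0, hDom⟩ := exists_c0 d hdn R
  refine ⟨c0, hc0, fun k => ?_⟩
  set c : Fin (N + 2) → ℝ := fun j => 1 / d j ^ 2 with hc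
  have hcn : ∀ j, c j ≠ 0 := fun j => by
    have := hd0 j
    rw [hc]
    positivity
  have hcinj : Function.Injective c := by
    intro i j hij
    apply hd
    have h1 := hd0 i
    have h2 := hd0 j
    simp only [hc] at hij
    rw [div_eq_div_iff (by positivity) (by positivity), one_mul, one_mul] at hij
    nlinarith [mul_self_eq_mul_self_iff.1 (by nlinarith : d i * d i = d j * d j)]
  induction k with
  | zero =>
    intro q hq
    have hq0 : 0 < q := by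
      have : 0 < 2 / ((N : ℝ) + 2) := by positivity
      linarith
    obtain ⟨K, hK, hKK⟩ := core hN c hcn hcinj q hq
    obtain ⟨K', hK', hKK'⟩ := Nq_dil d hdn q hq0.le
    refine ⟨‖(c0 : ℂ)‖ₑ ^ q * (K' * K), ENNReal.mul_ne_top
      (ENNReal.rpow_ne_top_of_nonneg hq0.le enorm_ne_top) (ENNReal.mul_ne_top hK' hK), ?_⟩
    intro Ω _ P _ G hG b v hv l hl _
    have : l = [] := List.eq_nil_of_length_eq_zero hl
    subst this
    have h1 : ∀ ω, Nq q (fun ξ => BF c0 d b v G ω ξ * Ps (m := N + 1) [] ξ) =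
        ‖(c0 : ℂ)‖ₑ ^ q * (K' * ∫⁻ t : ℝ, ∫⁻ x, CC c (G ω) t x ^ q) := by
      intro ω
      have h2 : (fun ξ => BF c0 d b v G ω ξ * Ps (m := N + 1) [] ξ) =
          fun ξ => (c0 : ℂ) * G ω (dil d (b.repr (ξ - v))) := by
        ext ξ
        simp [BF, Ps]
      rw [h2, Nq_smul q hq0.le, hKK' b v (G ω) (hG.meas.comp measurable_prodMk_left)]
    simp only [h1]
    rw [lintegral_const_mul' _ _ (ENNReal.rpow_ne_top_of_nonneg hq0.le enorm_ne_top),
      lintegral_const_mul' _ _ hK']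
    have h3 := hKK P G hG
    unfold II at h3
    simp only [setLIntegral_univ] at h3
    gcongr
  | succ k ih =>
    intro q hq
    have hc1 : (0 : ℝ) < 2 / ((N : ℝ) + 2) := by positivity
    set q' : ℝ := (2 + 2 / ((N : ℝ) + 2) + q) / 2 with hq'
    have h1 : 2 + 2 / ((N : ℝ) + 2) < q' := by rw [hq']; linarith
    have h2 : q' < q := by rw [hq']; linarith
    have hq0 : 0 < q := by linarith
    obtain ⟨C1, hC1, H1⟩ := ih q hq
    obtain ⟨C2, hC2, H2⟩ := ih q' h1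
    have hSg : (∑' l, 2 * P8H66.QP.rho δ ((q - q') / q) l) ≠ ⊤ :=
      rho_sum hδ (div_pos (by linarith) hq0)
    refine ⟨(2 : ℝ≥0∞) ^ (q - 1) * (C1 + (∑' l, 2 * P8H66.QP.rho δ ((q - q') / q) l) ^ q * C2), ?_, ?_⟩
    · exact ENNReal.mul_ne_top (ENNReal.rpow_ne_top_of_nonneg (by linarith) (by norm_num))
        (ENNReal.add_ne_top.2 ⟨hC1, ENNReal.mul_ne_top
          (ENNReal.rpow_ne_top_of_nonneg hq0.le hSg) hC2⟩)
    intro Ω _ P _ G hG b v hv l hl hl2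
    obtain ⟨p, l', rfl⟩ := List.exists_cons_of_length_eq_add_one hl
    have hl3 : l'.length = k := by simpa using hl
    have hl4 : ∀ r ∈ l', δ ≤ ‖r.1‖ := fun r hr => hl2 r (List.mem_cons_of_mem _ hr)
    have e1 : ∀ ω, (fun ξ => BF c0 d b v G ω ξ * Ps (m := N + 1) (p :: l') ξ) =
        fun ξ => (BF c0 d b v G ω ξ * Ps (m := N + 1) l' ξ) * st p.1 p.2 ξ := by
      intro ω
      ext ξ
      simp only [Ps, List.map_cons, List.prod_cons]
      ring
    simp only [e1]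
    have hm : Measurable (Function.uncurry fun ω ξ =>
        BF c0 d b v G ω ξ * Ps (m := N + 1) l' ξ) :=
      (BF_meas c0 d b v hG.meas).mul ((Ps_meas l').comp measurable_snd)
    have hD : ∀ ω, Dom (m := N + 1) (fun ξ => BF c0 d b v G ω ξ * Ps (m := N + 1) l' ξ) :=
      fun ω => (hDom P G hG b v hv ω).mul (Ps_meas l') (Ps_le l')
    refine (strip_rand (m := N + 1) (by linarith : 1 ≤ q') h2 hδ hm hD p.1
      (hl2 p List.mem_cons_self) p.2).trans ?_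
    gcongr
    · exact H1 P G hG b v hv l' hl3 hl4
    · exact H2 P G hG b v hv l' hl3 hl4

/-- **The main estimate on polytopes.** -/
theorem poly (hN : 1 ≤ N) (d : Fin (N + 2) → ℝ) (hd0 : ∀ j, 0 < d j)
    (hd : Function.Injective d) (R : ℝ) (M : ℕ) (q : ℝ) (hq : 2 + 2 / ((N : ℝ) + 2) < q) :
    ∃ C : ℝ≥0∞, C ≠ ⊤ ∧
      ∀ {Ω : Type} [MeasurableSpace Ω] (P : Measure Ω) [IsProbabilityMeasure P]
      (G : Ω → E (N + 2) → ℂ), RF P G → ∀ (b : OrthonormalBasis (Fin (N + 2)) ℝ (E (N + 2)))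
      (v : E (N + 2)), ‖v‖ ≤ R → ∀ (ν : Fin M → E (N + 2)) (c : Fin M → ℝ),
      ∫⁻ ω, Nq q ({ξ : E (N + 2) | (∀ j, |ξ j| < 1) ∧ ∀ i, ⟪ν i, ξ⟫ < c i}.indicator
        fun ξ => G ω (dil d (b.repr (ξ - v)))) ∂P ≤ C := by
  have hq0 : 0 < q := by
    have : 0 < 2 / ((N : ℝ) + 2) := by positivity
    linarith
  have hδ : (0 : ℝ) < 1 / (((N + 1 : ℕ) : ℝ) + 1) := by positivity
  obtain ⟨c0, hc0, H⟩ := strips hN d hd0 hd R _ hδ
  obtain ⟨C, hC, HC⟩ := H ((N + 2) + M) q hq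
  refine ⟨‖((c0⁻¹ : ℝ) : ℂ)‖ₑ ^ q * C, ENNReal.mul_ne_top
    (ENNReal.rpow_ne_top_of_nonneg hq0.le enorm_ne_top) hC, ?_⟩
  intro Ω _ P _ G hG b v hv ν c
  choose μ β hμ hμ2 using fun i => half (m := N + 1) (ν i) (c i)
  set l : List (E (N + 2) × ℝ) :=
    List.ofFn (fun j : Fin (N + 2) => ((EuclideanSpace.single j 1 : E (N + 2)), (0 : ℝ))) ++
      List.ofFn (fun i => (μ i, β i)) with hl
  have hlen : l.length = (N + 2) + M := by
    rw [hl, List.length_append, List.length_ofFn, List.length_ofFn]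
  have hle : ∀ p ∈ l, 1 / (((N + 1 : ℕ) : ℝ) + 1) ≤ ‖p.1‖ := by
    intro p hp
    rw [hl, List.mem_append, List.mem_ofFn, List.mem_ofFn] at hp
    rcases hp with ⟨j, rfl⟩ | ⟨i, rfl⟩
    · simp only [PiLp.norm_single, norm_one]
      rw [div_le_one (by positivity)]
      have : (0 : ℝ) ≤ ((N + 1 : ℕ) : ℝ) := Nat.cast_nonneg _
      linarith
    · exact hμ i
  have h4 : ∀ ω, ({ξ : E (N + 2) | (∀ j, |ξ j| < 1) ∧ ∀ i, ⟪ν i, ξ⟫ < c i}.indicator
        fun ξ => G ω (dil d (b.repr (ξ - v)))) =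
      fun ξ => ((c0⁻¹ : ℝ) : ℂ) * (BF c0 d b v G ω ξ * Ps (m := N + 1) l ξ) := by
    intro ω
    ext ξ
    have hPs : Ps (m := N + 1) l ξ = (∏ j : Fin (N + 2), st (m := N + 1)
        (EuclideanSpace.single j 1) 0 ξ) * ∏ i, st (m := N + 1) (μ i) (β i) ξ := by
      unfold Ps
      rw [hl, List.map_append, List.prod_append, List.map_ofFn, List.map_ofFn, List.prod_ofFn,
        List.prod_ofFn]
      rfl
    have hst : ∀ j : Fin (N + 2), st (m := N + 1) (EuclideanSpace.single j 1) 0 ξ =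
        if |ξ j| < 1 then 1 else 0 := by
      intro j
      unfold st
      have : ⟪(EuclideanSpace.single j 1 : E (N + 2)), ξ⟫ = ξ j := by
        simp [EuclideanSpace.inner_single_left]
      rw [this, add_zero]
    have hcc : ((c0⁻¹ : ℝ) : ℂ) * (c0 : ℂ) = 1 := by
      rw [← Complex.ofReal_mul, inv_mul_cancel₀ hc0.ne', Complex.ofReal_one]
    by_cases h5 : ∀ j, |ξ j| < 1
    · have e1 : ∏ j : Fin (N + 2), st (m := N + 1) (EuclideanSpace.single j 1) 0 ξ = 1 := by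
        apply Finset.prod_eq_one
        intro j _
        rw [hst, if_pos (h5 j)]
      by_cases h6 : ∀ i, ⟪ν i, ξ⟫ < c i
      · have e4 : ∏ i, st (m := N + 1) (μ i) (β i) ξ = 1 := by
          apply Finset.prod_eq_one
          intro i _
          unfold st
          rw [if_pos ((hμ2 i ξ h5).2 (h6 i))]
        rw [indicator_of_mem (show ξ ∈ {ξ : E (N + 2) |
          (∀ j, |ξ j| < 1) ∧ ∀ i, ⟪ν i, ξ⟫ < c i} from ⟨h5, h6⟩), hPs, e1, e4]
        unfold BF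
        rw [mul_one, mul_one, ← mul_assoc, hcc, one_mul]
      · rw [indicator_of_notMem (fun h => h6 h.2), hPs]
        push Not at h6
        obtain ⟨i, hi⟩ := h6
        have e4 : ∏ i, st (m := N + 1) (μ i) (β i) ξ = 0 := by
          apply Finset.prod_eq_zero (Finset.mem_univ i)
          unfold st
          rw [if_neg]
          rw [hμ2 i ξ h5]
          exact not_lt.2 hi
        rw [e4]
        ring
    · rw [indicator_of_notMem (fun h => h5 h.1), hPs]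
      push Not at h5
      obtain ⟨j, hj⟩ := h5
      have e4 : ∏ j : Fin (N + 2), st (m := N + 1) (EuclideanSpace.single j 1) 0 ξ = 0 := by
        apply Finset.prod_eq_zero (Finset.mem_univ j)
        rw [hst, if_neg (not_lt.2 hj)]
      rw [e4]
      ring
  have h5 : ∀ ω, Nq q ({ξ : E (N + 2) | (∀ j, |ξ j| < 1) ∧ ∀ i, ⟪ν i, ξ⟫ < c i}.indicator
        fun ξ => G ω (dil d (b.repr (ξ - v)))) = ‖((c0⁻¹ : ℝ) : ℂ)‖ₑ ^ q *
      Nq q (fun ξ => BF c0 d b v G ω ξ * Ps (m := N + 1) l ξ) := by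
    intro ω
    rw [h4 ω, Nq_smul q hq0.le]
  simp only [h5]
  rw [lintegral_const_mul' _ _ (ENNReal.rpow_ne_top_of_nonneg hq0.le enorm_ne_top)]
  exact mul_le_mul' le_rfl (HC P G hG b v hv l hlen hle)

end Pool.Agent.P8H20.EL
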