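import Pool.Agent.P8H20.EL.Fin4

set_option autoImplicit false

/-! Superpositions, the singular value decomposition, random rotations. -/

namespace Pool.Agent.P8H20.EL

open MeasureTheory Set
open Pool.Agent.P8H66.QP (EX EP Nq Nq_eq EP_meas EP_le)
open Pool.Agent
open Pool.Agent.TH277.HT (ch ch_norm ch_enorm ch_add ch_cont)
open Pool.Agent.H153R4 (kk)
open scoped ENNReal FourierTransform RealInnerProductSpace

variable {n : ℕ}

/-- the open cube -/
def oc (n : ℕ) : Set (E n) := {ξ | ∀ j, |ξ j| < 1}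

lemma oc_meas (n : ℕ) : MeasurableSet (oc n) := by
  have : oc n = ⋂ j, {ξ : E n | |ξ j| < 1} := by
    ext ξ
    simp [oc]
  rw [this]
  exact MeasurableSet.iInter fun j => measurableSet_lt (by fun_prop) measurable_const

lemma oc_vol (n : ℕ) : volume (oc n) < ⊤ := by
  refine (measure_mono ?_).trans_lt (H153R4.cube_vol n)
  intro ξ hξ j
  exact (hξ j).le

/-- **Superpositions.** -/
lemma mink {Ω S : Type*} [MeasurableSpace Ω] [MeasurableSpace S] (P : Measure Ω) [SFinite P]
    (ρ : Measure S) [IsFiniteMeasure ρ] {q : ℝ} (hq : 1 ≤ q) (F : S → Ω → E n → ℂ)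
    (hFm : Measurable fun p : S × Ω × E n => F p.1 p.2.1 p.2.2)
    (hb : ∀ s ω ξ, ‖F s ω ξ‖ ≤ 1) (hs : ∀ s ω ξ, ξ ∉ oc n → F s ω ξ = 0) (C : ℝ≥0∞)
    (h : ∀ s, ∫⁻ ω, Nq q (F s ω) ∂P ≤ C) :
    ∫⁻ ω, Nq q (fun ξ => ∫ s, F s ω ξ ∂ρ) ∂P ≤ C * ρ univ ^ q := by
  have hq0 : 0 < q := by linarith
  have hρ : ρ univ ≠ ⊤ := measure_ne_top _ _
  -- measurability
  have m1 : Measurable fun r : ((Ω × S) × (E n × ℝ)) => EP (F r.1.2 r.1.1) r.2 := by
    have h1 : Measurable (Function.uncurry fun (p : Ω × S) (ξ : E n) => F p.2 p.1 ξ) := by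
      have h2 : Measurable fun p : (Ω × S) × E n => (p.1.2, p.1.1, p.2) := by fun_prop
      exact (hFm.comp h2 :)
    exact EPr_meas h1
  -- Fubini
  have hfub : ∀ ω z, EP (fun ξ => ∫ s, F s ω ξ ∂ρ) z = ∫ s, EP (F s ω) z ∂ρ := by
    intro ω z
    have hi : Integrable (Function.uncurry fun (s : S) (ξ : E n) =>
        ch (⟪ξ, z.1⟫ + ‖ξ‖ ^ 2 * z.2) * F s ω ξ) (ρ.prod (volume : Measure (E n))) := by
      have h0 : Measurable fun p : S × E n =>
          ch (⟪p.2, z.1⟫ + ‖p.2‖ ^ 2 * z.2) * F p.1 ω p.2 := by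
        have h1 : Continuous fun ξ : E n => ch (⟪ξ, z.1⟫ + ‖ξ‖ ^ 2 * z.2) :=
          ch_cont.comp (by fun_prop)
        have h2 : Measurable fun p : S × E n => (p.1, ω, p.2) := by fun_prop
        have h3 : Measurable fun p : S × E n => F p.1 ω p.2 := (hFm.comp h2 :)
        exact (h1.measurable.comp measurable_snd).mul h3
      have h1 : Integrable ((univ ×ˢ oc n : Set (S × E n)).indicator fun _ => (1 : ℝ))
          (ρ.prod (volume : Measure (E n))) := by
        rw [integrable_indicator_iff (MeasurableSet.univ.prod (oc_meas n))]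
        have hfin : IsFiniteMeasure ((ρ.prod (volume : Measure (E n))).restrict
            (univ ×ˢ oc n)) := by
          refine ⟨?_⟩
          rw [Measure.restrict_apply_univ, Measure.prod_prod]
          exact ENNReal.mul_lt_top hρ.lt_top (oc_vol n)
        exact integrable_const (1 : ℝ)
      refine h1.mono h0.aestronglyMeasurable (ae_of_all _ fun p => ?_)
      simp only [Function.uncurry]
      rw [norm_mul, ch_norm, one_mul]
      by_cases hp : p.2 ∈ oc n
      · rw [indicator_of_mem (show p ∈ univ ×ˢ oc n from ⟨mem_univ _, hp⟩), norm_one]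
        exact hb _ _ _
      · rw [hs _ _ _ hp, norm_zero]
        exact norm_nonneg _
    have h5 := integral_integral_swap hi
    unfold EP EX
    rw [h5]
    refine integral_congr_ae (ae_of_all _ fun ξ => ?_)
    simp only
    rw [integral_const_mul]
  -- Hölder
  have hhol : ∀ ω z, ‖EP (fun ξ => ∫ s, F s ω ξ ∂ρ) z‖ₑ ^ q ≤
      ρ univ ^ (q - 1) * ∫⁻ s, ‖EP (F s ω) z‖ₑ ^ q ∂ρ := by
    intro ω z
    have hzm : Measurable fun s => ‖EP (F s ω) z‖ₑ := by
      have h2 : Measurable fun s : S => ((ω, s), z) := by fun_prop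
      exact ((m1.comp h2 :)).enorm
    have h1 : ‖EP (fun ξ => ∫ s, F s ω ξ ∂ρ) z‖ₑ ≤ ∫⁻ s, ‖EP (F s ω) z‖ₑ ∂ρ := by
      rw [hfub]
      exact enorm_integral_le_lintegral_enorm _
    have h2 : ∫⁻ s, ‖EP (F s ω) z‖ₑ ∂ρ ≤
        ρ univ ^ (1 - 1 / q) * (∫⁻ s, ‖EP (F s ω) z‖ₑ ^ q ∂ρ) ^ (1 / q) := by
      have h3 := holder_one ρ (fun s => ‖EP (F s ω) z‖ₑ ^ q) (hzm.pow_const q).aemeasurable
        (1 / q) (by positivity) (by
          rw [div_le_one hq0]
          exact hq)
      refine le_trans (le_of_eq ?_) h3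
      refine lintegral_congr fun s => ?_
      rw [← ENNReal.rpow_mul, mul_one_div_cancel hq0.ne', ENNReal.rpow_one]
    calc ‖EP (fun ξ => ∫ s, F s ω ξ ∂ρ) z‖ₑ ^ q
        ≤ (ρ univ ^ (1 - 1 / q) * (∫⁻ s, ‖EP (F s ω) z‖ₑ ^ q ∂ρ) ^ (1 / q)) ^ q := by
          gcongr
          exact h1.trans h2
      _ = _ := by
          rw [ENNReal.mul_rpow_of_nonneg _ _ hq0.le, ← ENNReal.rpow_mul, ← ENNReal.rpow_mul,
            one_div_mul_cancel hq0.ne', ENNReal.rpow_one]
          congr 2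
          field_simp
  have hρq : ρ univ ^ (q - 1) ≠ ⊤ := ENNReal.rpow_ne_top_of_nonneg (by linarith) hρ
  have m2 : Measurable fun r : ((Ω × S) × (E n × ℝ)) => ‖EP (F r.1.2 r.1.1) r.2‖ₑ ^ q :=
    m1.enorm.pow_const q
  calc ∫⁻ ω, Nq q (fun ξ => ∫ s, F s ω ξ ∂ρ) ∂P
      ≤ ∫⁻ ω, (ρ univ ^ (q - 1) * ∫⁻ s, Nq q (F s ω) ∂ρ) ∂P := by
        refine lintegral_mono fun ω => ?_
        unfold Nq
        refine (lintegral_mono (hhol ω)).trans (le_of_eq ?_)
        rw [lintegral_const_mul' _ _ hρq, lintegral_lintegral_swap]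
        have h2 : Measurable fun r : (E n × ℝ) × S => ((ω, r.2), r.1) := by fun_prop
        have h3 : Measurable fun r : (E n × ℝ) × S => ‖EP (F r.2 ω) r.1‖ₑ ^ q := (m2.comp h2 :)
        exact h3.aemeasurable
    _ = ρ univ ^ (q - 1) * ∫⁻ s, (∫⁻ ω, Nq q (F s ω) ∂P) ∂ρ := by
        rw [lintegral_const_mul' _ _ hρq, lintegral_lintegral_swap]
        have h3 : Measurable fun r : Ω × S => ∫⁻ z, ‖EP (F r.2 r.1) z‖ₑ ^ q :=
          m2.lintegral_prod_right'
        exact h3.aemeasurable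
    _ ≤ ρ univ ^ (q - 1) * ∫⁻ _s, C ∂ρ := by
        gcongr with s
        exact h s
    _ = C * ρ univ ^ q := by
        rw [lintegral_const, mul_comm C (ρ univ), ← mul_assoc, mul_comm _ C]
        congr 1
        nth_rewrite 2 [← ENNReal.rpow_one (ρ univ)]
        rw [← ENNReal.rpow_add_of_nonneg _ _ (by linarith) zero_le_one]
        simp

/-- **The singular value decomposition.** -/
lemma svd (A : E n →ₗ[ℝ] E n) (h0 : ∀ i : Fin n, A.singularValues i ≠ 0) :
    ∃ (b : OrthonormalBasis (Fin n) ℝ (E n)) (W : E n ≃ₗᵢ[ℝ] E n),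
      ∀ ξ, A ξ = W (dil (fun i : Fin n => A.singularValues i) (b.repr ξ)) := by
  have hn : Module.finrank ℝ (E n) = n := finrank_euclideanSpace_fin
  have hT := A.isSymmetric_adjoint_comp_self
  set b := hT.eigenvectorBasis hn with hb
  set σ : Fin n → ℝ := fun i => A.singularValues i with hσ
  have hsq : ∀ i, σ i ^ 2 = hT.eigenvalues hn i := fun i => A.sq_singularValues_fin hn i
  set w : Fin n → E n := fun i => (σ i)⁻¹ • A (b i) with hw
  have hin : ∀ i j, ⟪A (b i), A (b j)⟫ = if i = j then σ i ^ 2 else 0 := by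
    intro i j
    rw [← LinearMap.adjoint_inner_right, ← LinearMap.comp_apply,
      hT.apply_eigenvectorBasis hn j, inner_smul_right, ← hsq]
    have h1 := orthonormal_iff_ite.1 b.orthonormal i j
    rw [← hb, h1]
    split_ifs with h
    · rw [h]
      simp
    · simp
  have horth : Orthonormal ℝ w := by
    rw [orthonormal_iff_ite]
    intro i j
    simp only [hw]
    rw [inner_smul_left, inner_smul_right, hin]
    split_ifs with h
    · subst h
      simp only [conj_trivial]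
      have := h0 i
      have : σ i ≠ 0 := this
      field_simp
    · simp
  obtain ⟨b', hb'⟩ := Orthonormal.exists_orthonormalBasis_extension_of_card_eq
    (𝕜 := ℝ) (E := E n) (ι := Fin n) (by simp) (v := w) (s := univ)
    (horth.comp _ Subtype.val_injective)
  refine ⟨b, b'.repr.symm, fun ξ => ?_⟩
  rw [← b'.sum_repr_symm]
  have h1 : A ξ = ∑ i, b.repr ξ i • A (b i) := by
    conv_lhs => rw [← b.sum_repr ξ]
    rw [map_sum]
    simp only [map_smul]
  rw [h1]
  refine Finset.sum_congr rfl fun i _ => ?_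
  rw [hb' i (mem_univ i)]
  simp only [dil, hw]
  rw [smul_smul]
  congr 1
  have : σ i ≠ 0 := h0 i
  field_simp

/-- rotations of the correlation -/
lemma KK_rot (g : E n → ℂ) (O : E n ≃ₗᵢ[ℝ] E n) (h y : E n) :
    KK (fun z => g (O z)) h y = KK g (O h) (O y) := by
  unfold KK
  congr 2
  rw [Real.fourier_eq', Real.fourier_eq']
  rw [← O.measurePreserving.integral_comp O.toHomeomorph.measurableEmbedding
    (fun w => Complex.exp (↑(-2 * Real.pi * ⟪w, O y⟫) * Complex.I) • kk g (O h) w)]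
  refine integral_congr_ae (ae_of_all _ fun z => ?_)
  simp only [O.inner_map_map, kk, map_add]

end Pool.Agent.P8H20.EL
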