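import Pool.Agent.P8H20.EL.Fin5

set_option autoImplicit false

/-! Random rotations and radial functions; the abstract form of the theorem. -/

namespace Pool.Agent.P8H20.EL

open MeasureTheory Set
open Pool.Agent.P8H66.QP (EX EP Nq Nq_eq EP_meas EP_le)
open Pool.Agent
open Pool.Agent.TH277.HT (ch ch_norm ch_enorm ch_add ch_cont)
open Pool.Agent.H153R4 (kk)
open scoped ENNReal FourierTransform RealInnerProductSpace

variable {n N : ℕ}

/-- the polytope in the open cube -/
def pt {M : ℕ} (ν : Fin M → E n) (c : Fin M → ℝ) : Set (E n) :=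
  {ξ | (∀ j, |ξ j| < 1) ∧ ∀ i, ⟪ν i, ξ⟫ < c i}

/-- **The abstract form.** -/
theorem super (hN : 1 ≤ N) (d : Fin (N + 2) → ℝ) (hd0 : ∀ j, 0 < d j)
    (hd : Function.Injective d) (R : ℝ) (M : ℕ) (q : ℝ) (hq : 2 + 2 / ((N : ℝ) + 2) < q) :
    ∃ C : ℝ≥0∞, C ≠ ⊤ ∧
      ∀ {Ω : Type} [MeasurableSpace Ω] (P : Measure Ω) [IsProbabilityMeasure P]
      {S : Type} [MeasurableSpace S] (ρ : Measure S) [IsFiniteMeasure ρ]
      (G : S → Ω → E (N + 2) → ℂ),
      (Measurable fun p : S × Ω × E (N + 2) => G p.1 p.2.1 p.2.2) → (∀ s, RF P (G s)) →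
      ∀ (b : OrthonormalBasis (Fin (N + 2)) ℝ (E (N + 2)))
      (v : S → E (N + 2)) (ν : S → Fin M → E (N + 2)) (c : S → Fin M → ℝ), Measurable v →
      Measurable ν → Measurable c → (∀ s, ‖v s‖ ≤ R) →
      ∫⁻ ω, Nq q (fun ξ => ∫ s, (pt (ν s) (c s)).indicator
        (fun ξ => G s ω (dil d (b.repr (ξ - v s)))) ξ ∂ρ) ∂P ≤ C * ρ univ ^ q := by
  have hq1 : 1 ≤ q := by
    have : 0 < 2 / ((N : ℝ) + 2) := by positivity
    linarith
  obtain ⟨C, hC, H⟩ := poly hN d hd0 hd R M q hq
  refine ⟨C, hC, ?_⟩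
  intro Ω _ P _ S _ ρ _ G hGm hG b v ν c hv hν hc hvR
  refine mink P ρ hq1 (fun s ω => (pt (ν s) (c s)).indicator
    (fun ξ => G s ω (dil d (b.repr (ξ - v s))))) ?_ ?_ ?_ C ?_
  · -- measurability
    have h1 : Measurable fun p : S × Ω × E (N + 2) =>
        (p.1, p.2.1, dil d (b.repr (p.2.2 - v p.1))) := by
      have h2 : Measurable fun p : S × Ω × E (N + 2) => b.repr (p.2.2 - v p.1) := by fun_prop
      have h3 : Measurable fun p : S × Ω × E (N + 2) => dil d (b.repr (p.2.2 - v p.1)) :=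
        ((dil_meas d).comp h2 :)
      exact measurable_fst.prodMk ((measurable_fst.comp measurable_snd).prodMk h3)
    have h4 : Measurable fun p : S × Ω × E (N + 2) => G p.1 p.2.1 (dil d (b.repr (p.2.2 - v p.1))) :=
      (hGm.comp h1 :)
    have h5 : MeasurableSet {p : S × Ω × E (N + 2) | p.2.2 ∈ pt (ν p.1) (c p.1)} := by
      unfold pt
      have e1 : {p : S × Ω × E (N + 2) | p.2.2 ∈ {ξ : E (N + 2) |
          (∀ j, |ξ j| < 1) ∧ ∀ i, ⟪ν p.1 i, ξ⟫ < c p.1 i}} =
          (⋂ j, {p : S × Ω × E (N + 2) | |p.2.2 j| < 1}) ∩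
          ⋂ i, {p : S × Ω × E (N + 2) | ⟪ν p.1 i, p.2.2⟫ < c p.1 i} := by
        ext p
        simp
      rw [e1]
      refine (MeasurableSet.iInter fun j => measurableSet_lt (by fun_prop) measurable_const).inter
        (MeasurableSet.iInter fun i => measurableSet_lt ?_ ?_)
      · have h6 : Measurable fun p : S × Ω × E (N + 2) => ν p.1 i :=
          (measurable_pi_apply i).comp (hν.comp measurable_fst)
        exact h6.inner (measurable_snd.comp measurable_snd)
      · exact (measurable_pi_apply i).comp (hc.comp measurable_fst)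
    have h7 := h4.indicator h5
    have h8 : (fun p : S × Ω × E (N + 2) => (pt (ν p.1) (c p.1)).indicator
        (fun ξ => G p.1 p.2.1 (dil d (b.repr (ξ - v p.1)))) p.2.2) =
        {p : S × Ω × E (N + 2) | p.2.2 ∈ pt (ν p.1) (c p.1)}.indicator
        (fun p => G p.1 p.2.1 (dil d (b.repr (p.2.2 - v p.1)))) := by
      ext p
      by_cases hp : p.2.2 ∈ pt (ν p.1) (c p.1)
      · rw [indicator_of_mem hp, indicator_of_mem (by exact hp)]
      · rw [indicator_of_notMem hp, indicator_of_notMem (by exact hp)]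
    rw [h8]
    exact h7
  · intro s ω ξ
    exact (norm_indicator_le_norm_self _ _).trans ((hG s).bd ω _)
  · intro s ω ξ hξ
    exact indicator_of_notMem (fun h => hξ h.1) _
  · intro s
    exact H P (G s) (hG s) b (v s) (hvR s) (ν s) (c s)

/-! ### radial functions -/

/-- radial functions on the unit ball -/
noncomputable def Gr (a : ℝ → ℂ) (r : ℝ) (_ω : Unit) (z : E n) : ℂ :=
  if ‖z‖ ≤ 1 then a (r * ‖z‖) else 0

lemma Gr_RF {a : ℝ → ℂ} (ha : Measurable a) (ha1 : ∀ u, ‖a u‖ ≤ 1) (r : ℝ) :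
    RF (Measure.dirac ()) (Gr (n := n) a r) := by
  refine ⟨?_, fun ω z => ?_, fun ω z hz => ?_, fun O h y => ?_⟩
  · unfold Gr
    refine Measurable.ite ?_ ?_ measurable_const
    · exact measurableSet_le (by fun_prop) measurable_const
    · exact ha.comp (by fun_prop)
  · unfold Gr
    split_ifs
    · exact ha1 _
    · simp
  · unfold Gr
    rw [if_neg (not_le.2 hz)]
  · unfold HG
    refine lintegral_congr fun ω => ?_
    rw [← KK_rot]
    congr 1
    ext z
    unfold Gr
    rw [O.norm_map]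

/-! ### random rotations -/

/-- the Borel sets of the orthogonal group -/
noncomputable instance instMS : MeasurableSpace (Matrix.orthogonalGroup (Fin n) ℝ) := borel _

instance instBS : BorelSpace (Matrix.orthogonalGroup (Fin n) ℝ) := ⟨rfl⟩

/-- the action -/
noncomputable def act (U : Matrix.orthogonalGroup (Fin n) ℝ) (z : E n) : E n :=
  Matrix.toEuclideanCLM (n := Fin n) (𝕜 := ℝ) (U : Matrix (Fin n) (Fin n) ℝ) z

lemma act_mul (U V : Matrix.orthogonalGroup (Fin n) ℝ) (z : E n) :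
    act (U * V) z = act U (act V z) := by
  unfold act
  rw [Submonoid.coe_mul, map_mul]
  rfl

lemma act_apply (U : Matrix.orthogonalGroup (Fin n) ℝ) (z : E n) (i : Fin n) :
    act U z i = ∑ j, (U : Matrix (Fin n) (Fin n) ℝ) i j * z j := rfl

lemma act_meas : Measurable fun p : Matrix.orthogonalGroup (Fin n) ℝ × E n => act p.1 p.2 := by
  have h1 : Measurable fun p : Matrix.orthogonalGroup (Fin n) ℝ × E n =>
      fun i => ∑ j, (p.1 : Matrix (Fin n) (Fin n) ℝ) i j * p.2 j := by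
    rw [measurable_pi_iff]
    intro i
    refine Finset.measurable_fun_sum _ fun j _ => ?_
    have h2 : Continuous fun U : Matrix.orthogonalGroup (Fin n) ℝ =>
        (U : Matrix (Fin n) (Fin n) ℝ) i j := continuous_subtype_val.matrix_elem i j
    exact (h2.measurable.comp measurable_fst).mul (by fun_prop)
  exact (PiLp.volume_preserving_toLp (Fin n)).measurable.comp h1

/-- every isometry is given by a matrix -/
lemma exists_mat (O : E n ≃ₗᵢ[ℝ] E n) :
    ∃ V : Matrix.orthogonalGroup (Fin n) ℝ, ∀ z, act V z = O z := by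
  set u : unitary (E n →L[ℝ] E n) := (Unitary.linearIsometryEquiv (𝕜 := ℝ) (H := E n)).symm O
    with hu
  set Φ := Matrix.toEuclideanCLM (n := Fin n) (𝕜 := ℝ) with hΦ
  have h1 : Φ.symm (u : E n →L[ℝ] E n) ∈ unitary (Matrix (Fin n) (Fin n) ℝ) := by
    have h2 := u.2
    rw [Unitary.mem_iff] at h2 ⊢
    rw [← map_star Φ.symm, ← map_mul, ← map_mul, h2.1, h2.2, map_one]
    exact ⟨rfl, rfl⟩
  refine ⟨⟨Φ.symm (u : E n →L[ℝ] E n), h1⟩, fun z => ?_⟩
  unfold act
  simp only
  rw [← hΦ, StarAlgEquiv.apply_symm_apply]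
  rfl

lemma act_norm (U : Matrix.orthogonalGroup (Fin n) ℝ) (z : E n) : ‖act U z‖ = ‖z‖ := by
  have h1 : Matrix.toEuclideanCLM (n := Fin n) (𝕜 := ℝ) (U : Matrix (Fin n) (Fin n) ℝ) ∈
      unitary (E n →L[ℝ] E n) := by
    have h2 := U.2
    have h3 : (U : Matrix (Fin n) (Fin n) ℝ) ∈ unitary (Matrix (Fin n) (Fin n) ℝ) := h2
    rw [Unitary.mem_iff] at h3 ⊢
    rw [← map_star, ← map_mul, ← map_mul, h3.1, h3.2, map_one]
    exact ⟨rfl, rfl⟩
  exact Unitary.norm_map (⟨_, h1⟩ : unitary (E n →L[ℝ] E n)) z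

/-- functions of random rotations -/
noncomputable def Go (f : E n → ℂ) (r : ℝ) (W : E n ≃ₗᵢ[ℝ] E n)
    (U : Matrix.orthogonalGroup (Fin n) ℝ) (z : E n) : ℂ :=
  if ‖z‖ ≤ 1 then f (r • act U (W z)) else 0

lemma Go_RF {f : E n → ℂ} (hf : Measurable f) (hf1 : ∀ u, ‖f u‖ ≤ 1) (r : ℝ)
    (W : E n ≃ₗᵢ[ℝ] E n) (μ : Measure (Matrix.orthogonalGroup (Fin n) ℝ))
    [μ.IsMulRightInvariant] : RF μ (Go f r W) := by
  refine ⟨?_, fun ω z => ?_, fun ω z hz => ?_, fun O h y => ?_⟩
  · unfold Go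
    refine Measurable.ite ?_ ?_ measurable_const
    · exact measurableSet_le (by fun_prop) measurable_const
    · have h1 : Measurable fun p : Matrix.orthogonalGroup (Fin n) ℝ × E n => (p.1, W p.2) := by
        fun_prop
      have h2 : Measurable fun p : Matrix.orthogonalGroup (Fin n) ℝ × E n => act p.1 (W p.2) :=
        (act_meas.comp h1 :)
      have h3 : Measurable fun p : Matrix.orthogonalGroup (Fin n) ℝ × E n =>
        r • act p.1 (W p.2) := h2.const_smul r
      exact (hf.comp h3 :)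
  · unfold Go
    split_ifs
    · exact hf1 _
    · simp
  · unfold Go
    rw [if_neg (not_le.2 hz)]
  · obtain ⟨V, hV⟩ := exists_mat (W.symm.trans (O.trans W))
    have h1 : ∀ U : Matrix.orthogonalGroup (Fin n) ℝ,
        KK (Go f r W U) (O h) (O y) = KK (Go f r W (U * V)) h y := by
      intro U
      rw [← KK_rot]
      congr 1
      ext z
      unfold Go
      rw [O.norm_map, act_mul, hV]
      simp
    unfold HG
    simp only [h1]
    exact lintegral_mul_right_eq_self (μ := μ) (fun U => KK (Go f r W U) h y) V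

end Pool.Agent.P8H20.EL
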