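import Pool.Agent.P8H20.EL.Zon
import Pool.Agent.TH276.Torsion.Polar
import Pool.Agent.H153R4.Four

set_option autoImplicit false

/-! Functions of two vectors which are invariant under isometries. -/

namespace Pool.Agent.P8H20.EL

open MeasureTheory Set
open scoped ENNReal RealInnerProductSpace

/-- two pairs of vectors with the same Gram matrix -/
lemma iso2 {V : Type*} [NormedAddCommGroup V] [InnerProductSpace ℝ V] [CompleteSpace V]
    (h h' y y' : V) (h1 : ‖h‖ = ‖h'‖) (h2 : ‖y‖ = ‖y'‖) (h3 : ⟪h, y⟫ = ⟪h', y'⟫) :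
    ∃ O : V ≃ₗᵢ[ℝ] V, O h = h' ∧ O y = y' := by
  set O1 := (Submodule.span ℝ {h - h'})ᗮ.reflection with hO1
  have e1 : O1 h = h' := Submodule.reflection_sub h1
  set y1 := O1 y with hy1
  have e2 : ‖y1‖ = ‖y'‖ := by rw [hy1, LinearIsometryEquiv.norm_map, h2]
  set O2 := (Submodule.span ℝ {y1 - y'})ᗮ.reflection with hO2
  have e3 : O2 y1 = y' := Submodule.reflection_sub e2
  have e4 : O2 h' = h' := by
    apply Submodule.reflection_mem_subspace_eq_self
    rw [Submodule.mem_orthogonal_singleton_iff_inner_right, inner_sub_left]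
    have : ⟪y1, h'⟫ = ⟪y', h'⟫ := by
      rw [← e1, hy1, LinearIsometryEquiv.inner_map_map, real_inner_comm, h3, e1, real_inner_comm]
    rw [this, sub_self]
  exact ⟨O1.trans O2, by simp [e1, e4], by simp [← hy1, e3]⟩

/-- Euclidean space -/
abbrev E (n : ℕ) := EuclideanSpace ℝ (Fin n)

/-- invariance under isometries -/
def Inv {n : ℕ} (H : E n → E n → ℝ≥0∞) : Prop :=
  ∀ (O : E n ≃ₗᵢ[ℝ] E n) (h y : E n), H (O h) (O y) = H h y

lemma Inv.eq {n : ℕ} {H : E n → E n → ℝ≥0∞} (hH : Inv H) {h h' y y' : E n}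
    (h1 : ‖h‖ = ‖h'‖) (h2 : ‖y‖ = ‖y'‖) (h3 : ⟪h, y⟫ = ⟪h', y'⟫) : H h y = H h' y' := by
  obtain ⟨O, e1, e2⟩ := iso2 h h' y y' h1 h2 h3
  rw [← hH O h y, e1, e2]

variable {N : ℕ}

/-- the first point -/
noncomputable def pt0 (r : ℝ) : E (N + 2) := WithLp.toLp 2 (Fin.cons r 0)

/-- the second point -/
noncomputable def pt1 (R x : ℝ) : E (N + 2) :=
  WithLp.toLp 2 (Fin.cons (R * x) (Fin.cons (R * Real.sqrt (1 - x ^ 2)) 0))

lemma norm_pt0 {r : ℝ} (hr : 0 ≤ r) : ‖(pt0 r : E (N + 2))‖ = r := by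
  rw [EuclideanSpace.norm_eq, Fin.sum_univ_succ]
  simp only [pt0, Fin.cons_zero, Fin.cons_succ, Pi.zero_apply, norm_zero]
  simp [Real.sqrt_sq hr]

lemma norm_pt1 {R x : ℝ} (hR : 0 ≤ R) (hx : x ^ 2 ≤ 1) : ‖(pt1 R x : E (N + 2))‖ = R := by
  rw [EuclideanSpace.norm_eq, Fin.sum_univ_succ, Fin.sum_univ_succ]
  simp only [pt1, Fin.cons_zero, Fin.cons_succ, Pi.zero_apply, norm_zero, Real.norm_eq_abs,
    sq_abs]
  have : (R * x) ^ 2 + ((R * Real.sqrt (1 - x ^ 2)) ^ 2 + ∑ _i : Fin N, (0 : ℝ) ^ 2) = R ^ 2 := by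
    rw [mul_pow, mul_pow, Real.sq_sqrt (by linarith)]
    simp
    ring
  rw [this, Real.sqrt_sq hR]

lemma inner_pt (r R x : ℝ) : ⟪(pt0 r : E (N + 2)), pt1 R x⟫ = r * (R * x) := by
  rw [PiLp.inner_apply, Fin.sum_univ_succ]
  simp only [pt0, pt1, Fin.cons_zero, Fin.cons_succ, Pi.zero_apply, RCLike.inner_apply,
    conj_trivial]
  simp
  ring

/-- the canonical form -/
lemma Inv.canon {H : E (N + 2) → E (N + 2) → ℝ≥0∞} (hH : Inv H) (h y : E (N + 2)) (x : ℝ)
    (hx : x ^ 2 ≤ 1) (hxy : ⟪h, y⟫ = ‖h‖ * (‖y‖ * x)) :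
    H h y = H (pt0 ‖h‖) (pt1 ‖y‖ x) :=
  hH.eq (norm_pt0 (norm_nonneg _)).symm (norm_pt1 (norm_nonneg _) hx).symm
    (by rw [inner_pt, hxy])

lemma pt0_meas : Measurable fun r : ℝ => (pt0 r : E (N + 2)) := by
  unfold pt0
  apply (PiLp.volume_preserving_toLp (Fin (N + 2))).measurable.comp
  rw [measurable_pi_iff]
  intro k
  refine Fin.cases ?_ (fun k => ?_) k
  · simpa using measurable_id'
  · simp

lemma pt1_meas : Measurable fun p : ℝ × ℝ => (pt1 p.1 p.2 : E (N + 2)) := by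
  unfold pt1
  apply (PiLp.volume_preserving_toLp (Fin (N + 2))).measurable.comp
  rw [measurable_pi_iff]
  intro k
  refine Fin.cases ?_ (fun k => ?_) k
  · simp only [Fin.cons_zero]
    fun_prop
  · simp only [Fin.cons_succ]
    refine Fin.cases ?_ (fun k => ?_) k
    · simp only [Fin.cons_zero]
      fun_prop
    · simp

/-- the vector `(u, z)` -/
noncomputable def vec (u : ℝ) (z : E (N + 1)) : E (N + 2) := WithLp.toLp 2 (Fin.cons u z.ofLp)

lemma norm_vec (u : ℝ) (z : E (N + 1)) : ‖(vec u z : E (N + 2))‖ = hyp u ‖z‖ := by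
  rw [EuclideanSpace.norm_eq, Fin.sum_univ_succ, hyp, EuclideanSpace.norm_sq_eq]
  simp only [vec, Fin.cons_zero, Fin.cons_succ, Real.norm_eq_abs, sq_abs]

lemma inner_vec (r u : ℝ) (z : E (N + 1)) : ⟪(pt0 r : E (N + 2)), vec u z⟫ = r * u := by
  rw [PiLp.inner_apply, Fin.sum_univ_succ]
  simp only [pt0, vec, Fin.cons_zero, Fin.cons_succ, Pi.zero_apply, RCLike.inner_apply,
    conj_trivial]
  simp
  ring

/-- splitting off the first coordinate -/
lemma lint_vec (F : E (N + 2) → ℝ≥0∞) (hF : Measurable F) :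
    ∫⁻ y, F y = ∫⁻ u : ℝ, ∫⁻ z : E (N + 1), F (vec u z) := by
  have h1 := (PiLp.volume_preserving_toLp (Fin (N + 2))).lintegral_comp_emb
    (MeasurableEquiv.toLp 2 (Fin (N + 2) → ℝ)).measurableEmbedding F
  have hmp := (volume_preserving_piFinSuccAbove (fun _ : Fin (N + 2) => ℝ) 0).symm
  have hFm : Measurable fun x : Fin (N + 2) → ℝ => F (WithLp.toLp 2 x) :=
    hF.comp (PiLp.volume_preserving_toLp (Fin (N + 2))).measurable
  have h2 := hmp.lintegral_comp hFm
  have hm' : Measurable fun a : ℝ × (Fin (N + 1) → ℝ) => F (WithLp.toLp 2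
      ((MeasurableEquiv.piFinSuccAbove (fun _ : Fin (N + 2) => ℝ) 0).symm a)) :=
    hFm.comp hmp.measurable
  rw [← h1, ← h2, Measure.volume_eq_prod, lintegral_prod _ hm'.aemeasurable]
  refine lintegral_congr fun u => ?_
  have h3 := (PiLp.volume_preserving_toLp (Fin (N + 1))).lintegral_comp_emb
    (MeasurableEquiv.toLp 2 (Fin (N + 1) → ℝ)).measurableEmbedding (fun z => F (vec u z))
  rw [← h3]
  refine lintegral_congr fun x => ?_
  congr 1
  unfold vec
  congr 1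
  show (Fin.insertNth (α := fun _ => ℝ) 0 u x : Fin (N + 2) → ℝ) = _
  rw [Fin.insertNth_zero']

/-- **the integral over the second vector in zonal coordinates** -/
theorem lint_zonal (hN : 1 ≤ N) {H : E (N + 2) → E (N + 2) → ℝ≥0∞} (hH : Inv H)
    (hm : Measurable (Function.uncurry H)) {r : ℝ} (hr : 0 < r) :
    ∫⁻ y, H (pt0 r) y = (volume : Measure (E (N + 1))).toSphere univ *
      ∫⁻ x in Ioo (-1 : ℝ) 1, ∫⁻ R in Ioi (0 : ℝ), ENNReal.ofReal (R ^ (N + 1) * wt N x) *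
        H (pt0 r) (pt1 R x) := by
  have hHr : Measurable (H (pt0 r)) := hm.comp measurable_prodMk_left
  have hF : Measurable fun p : ℝ × ℝ => H (pt0 r) (pt1 p.1 p.2) := hHr.comp pt1_meas
  rw [zonal N hN (fun p : ℝ × ℝ => H (pt0 r) (pt1 p.1 p.2)) hF, lint_vec _ hHr]
  have hcan : ∀ (u : ℝ) (z : E (N + 1)), 0 < ‖z‖ → H (pt0 r) (vec u z) =
      H (pt0 r) (pt1 (hyp u ‖z‖) (u / hyp u ‖z‖)) := by
    intro u z hz
    have h1 := hyp_pos u hz
    have h2 := hyp_sq u ‖z‖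
    have hx : (u / hyp u ‖z‖) ^ 2 ≤ 1 := by
      rw [div_pow, div_le_one (by positivity), h2]
      nlinarith [sq_nonneg ‖z‖]
    have := hH.canon (pt0 r) (vec u z) (u / hyp u ‖z‖) hx (by
      rw [inner_vec, norm_pt0 hr.le, norm_vec]
      field_simp)
    rw [this, norm_pt0 hr.le, norm_vec]
  have h1 : ∀ u : ℝ, ∫⁻ z : E (N + 1), H (pt0 r) (vec u z) =
      (volume : Measure (E (N + 1))).toSphere univ * ∫⁻ ρ in Ioi (0 : ℝ), ENNReal.ofReal (ρ ^ N) *
        H (pt0 r) (pt1 (hyp u ρ) (u / hyp u ρ)) := by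
    intro u
    have hvm : Measurable fun z : E (N + 1) => (vec u z : E (N + 2)) := by
      unfold vec
      apply (PiLp.volume_preserving_toLp (Fin (N + 2))).measurable.comp
      rw [measurable_pi_iff]
      intro k
      refine Fin.cases ?_ (fun k => ?_) k
      · simp
      · simp only [Fin.cons_succ]
        fun_prop
    have hpol := Pool.Agent.TH276.Torsion.lintegral_polar (volume : Measure (E (N + 1)))
      (hHr.comp hvm)
    have h2 : ∀ θ : Metric.sphere (0 : E (N + 1)) 1, ∫⁻ τ in Ioi (0 : ℝ),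
        ENNReal.ofReal (τ ^ (Module.finrank ℝ (E (N + 1)) - 1)) *
          (H (pt0 r) ∘ fun z : E (N + 1) => (vec u z : E (N + 2))) (τ • (θ : E (N + 1))) =
        ∫⁻ ρ in Ioi (0 : ℝ), ENNReal.ofReal (ρ ^ N) *
          H (pt0 r) (pt1 (hyp u ρ) (u / hyp u ρ)) := by
      intro θ
      refine setLIntegral_congr_fun measurableSet_Ioi fun τ hτ => ?_
      have hn : ‖τ • (θ : E (N + 1))‖ = τ := by
        rw [norm_smul, Real.norm_eq_abs, abs_of_pos hτ]
        simp
      simp only [finrank_euclideanSpace_fin, Nat.add_sub_cancel, Function.comp]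
      rw [hcan u _ (by rw [hn]; exact hτ), hn]
    simp only [h2, lintegral_const] at hpol
    rw [mul_comm, ← hpol]
    rfl
  simp only [h1]
  have hm2 : Measurable fun p : ℝ × ℝ => ENNReal.ofReal (p.2 ^ N) *
      H (pt0 r) (pt1 (hyp p.1 p.2) (p.1 / hyp p.1 p.2)) := by
    refine (measurable_snd.pow_const _).ennreal_ofReal.mul ?_
    exact hF.comp (hyp_meas.prodMk (measurable_fst.div hyp_meas))
  rw [lintegral_const_mul _ (hm2.lintegral_prod_right'), lintegral_lintegral_swap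
    hm2.aemeasurable]

end Pool.Agent.P8H20.EL
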