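import Pool.Agent.P8H20.EL.Inv

set_option autoImplicit false

/-! The key lemma, part 1: changes of variables. -/

namespace Pool.Agent.P8H20.EL

open MeasureTheory Set
open Pool.Agent.H153R4 (dd)
open scoped ENNReal RealInnerProductSpace

variable {N : ℕ}

lemma lint_even (F : ℝ → ℝ≥0∞) (hF : Measurable F) :
    ∫⁻ u : ℝ, F |u| = 2 * ∫⁻ u in Ioi (0 : ℝ), F u := by
  have hFa : Measurable fun u : ℝ => F |u| := hF.comp measurable_norm
  rw [← lintegral_add_compl _ (measurableSet_Ioi (a := (0 : ℝ)))]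
  have h1 : ∫⁻ u in Ioi (0 : ℝ), F |u| = ∫⁻ u in Ioi (0 : ℝ), F u :=
    setLIntegral_congr_fun measurableSet_Ioi fun u hu => by rw [abs_of_pos hu]
  have h2 : ∫⁻ u in (Ioi (0 : ℝ))ᶜ, F |u| = ∫⁻ u in Ioi (0 : ℝ), F u := by
    rw [compl_Ioi, ← restrict_Iio_eq_restrict_Iic, ← h1, ← lintegral_indicator measurableSet_Iio,
      ← lintegral_indicator measurableSet_Ioi]
    have hmp := Measure.measurePreserving_neg (volume : Measure ℝ)
    rw [← hmp.lintegral_comp (hFa.indicator measurableSet_Iio)]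
    refine lintegral_congr fun u => ?_
    by_cases hu : 0 < u
    · rw [indicator_of_mem (by simpa using hu), indicator_of_mem (by simpa using hu), abs_neg]
    · rw [indicator_of_notMem (by simpa using hu), indicator_of_notMem (by simpa using hu)]
  rw [h1, h2, two_mul]

/-- splitting off the first coordinate -/
lemma lint_split (F : E (N + 2) → ℝ≥0∞) (hF : Measurable F) :
    ∫⁻ y, F y = ∫⁻ u : ℝ, ∫⁻ z : Fin (N + 1) → ℝ, F (WithLp.toLp 2 (Fin.cons u z)) := by
  have h1 := (PiLp.volume_preserving_toLp (Fin (N + 2))).lintegral_comp_emb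
    (MeasurableEquiv.toLp 2 (Fin (N + 2) → ℝ)).measurableEmbedding F
  have hmp := (volume_preserving_piFinSuccAbove (fun _ : Fin (N + 2) => ℝ) 0).symm
  have hFm : Measurable fun x : Fin (N + 2) → ℝ => F (WithLp.toLp 2 x) :=
    hF.comp (PiLp.volume_preserving_toLp (Fin (N + 2))).measurable
  have h2 := hmp.lintegral_comp hFm
  have hm' : Measurable fun a : ℝ × (Fin (N + 1) → ℝ) => F (WithLp.toLp 2
      ((MeasurableEquiv.piFinSuccAbove (fun _ : Fin (N + 2) => ℝ) 0).symm a)) :=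
    hFm.comp hmp.measurable
  rw [← h1, ← h2, Measure.volume_eq_prod, lintegral_prod _ hm'.aemeasurable]
  refine lintegral_congr fun u => lintegral_congr fun z => ?_
  congr 2
  show (Fin.insertNth (α := fun _ => ℝ) 0 u z : Fin (N + 2) → ℝ) = _
  rw [Fin.insertNth_zero']

lemma lint_smul {m : ℕ} (r : ℝ) (hr : 0 < r) (F : (Fin m → ℝ) → ℝ≥0∞) (hF : Measurable F) :
    ∫⁻ z, F z = ENNReal.ofReal (r ^ m) * ∫⁻ z, F (r • z) := by
  have h := Measure.map_addHaar_smul (volume : Measure (Fin m → ℝ)) hr.ne'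
  have h2 : ∫⁻ z, F (r • z) = ENNReal.ofReal |(r ^ m)⁻¹| * ∫⁻ z, F z := by
    rw [← lintegral_map hF (measurable_const_smul r), h, lintegral_smul_measure,
      Module.finrank_fin_fun, smul_eq_mul]
  rw [h2, ← mul_assoc, ← ENNReal.ofReal_mul (by positivity), abs_of_pos (by positivity),
    mul_inv_cancel₀ (by positivity), ENNReal.ofReal_one, one_mul]

/-- the region where the coordinate `m` is the largest -/
def Rg {n : ℕ} (m : Fin n) : Set (E n) := {h | ∀ j, |h j| ≤ |h m|}

lemma Rg_meas {n : ℕ} (m : Fin n) : MeasurableSet (Rg m) := by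
  unfold Rg
  rw [show {h : E n | ∀ j, |h j| ≤ |h m|} = ⋂ j, {h : E n | |h j| ≤ |h m|} by ext; simp]
  exact MeasurableSet.iInter fun j => measurableSet_le (by fun_prop) (by fun_prop)

lemma Rg_cover {n : ℕ} : (univ : Set (E (n + 1))) ⊆ ⋃ m, Rg m := by
  intro h _
  obtain ⟨m, _, hm⟩ := Finset.exists_max_image Finset.univ (fun j => |h j|)
    (Finset.univ_nonempty (α := Fin (n + 1)))
  exact mem_iUnion.2 ⟨m, fun j => hm j (Finset.mem_univ j)⟩

/-- the values on the canonical pairs -/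
noncomputable def Lam (H : E (N + 2) → E (N + 2) → ℝ≥0∞) (r R x : ℝ) : ℝ≥0∞ :=
  H (pt0 r) (pt1 R x)

lemma Lam_meas {H : E (N + 2) → E (N + 2) → ℝ≥0∞} (hm : Measurable (Function.uncurry H)) :
    Measurable fun p : ℝ × ℝ × ℝ => Lam H p.1 p.2.1 p.2.2 := by
  unfold Lam
  exact hm.comp ((pt0_meas.comp measurable_fst).prodMk (pt1_meas.comp measurable_snd))

section

variable {κ M c0 : ℝ} {c : Fin (N + 1) → ℝ}

lemma fx_sq (hG : Good κ M c0 c) (η : Fin (N + 1) → ℝ) : fx c0 c η ^ 2 ≤ 1 := by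
  by_cases h : ∃ l, η l ≠ 0
  · have := fx_mem hG η h
    nlinarith [this.1, this.2]
  · push Not at h
    have hpos := AS_pos hG η
    unfold fx
    rw [div_pow, Real.sq_sqrt hpos.le, div_le_one hpos]
    unfold fP fA fS
    simp [h]

/-- the point `h = (u, |u| η)` -/
lemma H_val {H : E (N + 2) → E (N + 2) → ℝ≥0∞} (hH : Inv H) (hG : Good κ M c0 c) {t : ℝ}
    (ht : 0 < t) (u : ℝ) (η : Fin (N + 1) → ℝ) :
    H (WithLp.toLp 2 (Fin.cons u (|u| • η))) (dd (t • Fin.cons c0 c)
      (WithLp.toLp 2 (Fin.cons u (|u| • η)))) =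
    Lam H (|u| * Real.sqrt (fA η)) (2 * t * |u| * Real.sqrt (fS c0 c η)) (fx c0 c η) := by
  have hA := fA_ge η
  have hS := fS_ge hG η
  have hκ : 0 < κ ^ 2 := by have := hG.k0; positivity
  have hS0 : 0 < fS c0 c η := by linarith
  have hA0 : 0 < fA η := by linarith
  have hpos := AS_pos hG η
  set h : E (N + 2) := WithLp.toLp 2 (Fin.cons u (|u| • η)) with hh
  have n1 : ‖h‖ = |u| * Real.sqrt (fA η) := by
    rw [EuclideanSpace.norm_eq, Fin.sum_univ_succ, hh]
    simp only [Fin.cons_zero, Fin.cons_succ, Pi.smul_apply, smul_eq_mul, Real.norm_eq_abs, sq_abs,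
      mul_pow]
    rw [← Finset.mul_sum, ← Real.sqrt_sq (abs_nonneg u), ← Real.sqrt_mul (by positivity)]
    congr 1
    unfold fA
    rw [sq_abs]
    ring
  have n2 : ‖dd (t • Fin.cons c0 c) h‖ = 2 * t * |u| * Real.sqrt (fS c0 c η) := by
    rw [EuclideanSpace.norm_eq, Fin.sum_univ_succ, hh]
    simp only [dd, Fin.cons_zero, Fin.cons_succ, Pi.smul_apply, smul_eq_mul, Real.norm_eq_abs,
      sq_abs, mul_pow]
    rw [← Real.sqrt_sq (show 0 ≤ 2 * t * |u| by positivity), ← Real.sqrt_mul (by positivity)]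
    congr 1
    unfold fS
    rw [mul_pow, mul_pow, sq_abs, mul_add, Finset.mul_sum]
    congr 1
    · ring
    · exact Finset.sum_congr rfl fun j _ => by ring
  have n3 : ⟪h, dd (t • Fin.cons c0 c) h⟫ = 2 * t * u ^ 2 * fP c0 c η := by
    rw [PiLp.inner_apply, Fin.sum_univ_succ, hh]
    simp only [dd, Fin.cons_zero, Fin.cons_succ, Pi.smul_apply, smul_eq_mul, RCLike.inner_apply,
      conj_trivial]
    unfold fP
    rw [mul_add, Finset.mul_sum]
    congr 1
    · ring
    · refine Finset.sum_congr rfl fun j _ => ?_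
      have : |u| * |u| = u ^ 2 := by rw [← sq, sq_abs]
      linear_combination (2 * t * c j * η j ^ 2) * this
  refine (hH.canon _ _ (fx c0 c η) (fx_sq hG η) ?_).trans ?_
  swap
  · rw [n1, n2]
    rfl
  · rw [n3, n1, n2]
    unfold fx
    have e : Real.sqrt (fA η * fS c0 c η) = Real.sqrt (fA η) * Real.sqrt (fS c0 c η) :=
      Real.sqrt_mul hA0.le _
    rw [e]
    have h1 := Real.sqrt_pos.2 hA0
    have h2 := Real.sqrt_pos.2 hS0
    have : |u| * |u| = u ^ 2 := by rw [← sq, sq_abs]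
    field_simp
    rw [sq_abs]
    ring

lemma dd_meas {n : ℕ} (s : Fin n → ℝ) : Measurable (dd s) := by
  unfold dd
  apply (PiLp.volume_preserving_toLp (Fin n)).measurable.comp
  rw [measurable_pi_iff]
  intro j
  fun_prop

/-- the integral over the region of the first coordinate -/
lemma lint_Rg {H : E (N + 2) → E (N + 2) → ℝ≥0∞} (hH : Inv H)
    (hm : Measurable (Function.uncurry H)) (hG : Good κ M c0 c) {t : ℝ} (ht : 0 < t) :
    ∫⁻ h in Rg (0 : Fin (N + 2)), H h (dd (t • Fin.cons c0 c) h) =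
      2 * ∫⁻ u in Ioi (0 : ℝ), ENNReal.ofReal (u ^ (N + 1)) *
        ∫⁻ η in Icc (-1 : Fin (N + 1) → ℝ) 1, Lam H (u * Real.sqrt (fA η))
          (2 * t * u * Real.sqrt (fS c0 c η)) (fx c0 c η) := by
  have hm1 : Measurable fun h : E (N + 2) => H h (dd (t • Fin.cons c0 c) h) :=
    hm.comp (measurable_id.prodMk (dd_meas _))
  have hm2 : Measurable fun p : ℝ × (Fin (N + 1) → ℝ) => Lam H (p.1 * Real.sqrt (fA p.2))
      (2 * t * p.1 * Real.sqrt (fS c0 c p.2)) (fx c0 c p.2) := by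
    refine (Lam_meas hm).comp (Measurable.prodMk ?_ (Measurable.prodMk ?_ ?_))
    · unfold fA
      fun_prop
    · unfold fS
      fun_prop
    · exact (meas_fx c0 c).comp measurable_snd
  have hev := lint_even (fun u : ℝ => ENNReal.ofReal (u ^ (N + 1)) *
        ∫⁻ η in Icc (-1 : Fin (N + 1) → ℝ) 1, Lam H (u * Real.sqrt (fA η))
          (2 * t * u * Real.sqrt (fS c0 c η)) (fx c0 c η))
      ((measurable_id.pow_const _).ennreal_ofReal.mul hm2.lintegral_prod_right')
  rw [← hev, ← lintegral_indicator (Rg_meas _), lint_split _ (hm1.indicator (Rg_meas _))]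
  refine lintegral_congr_ae ?_
  have hne : ∀ᵐ u : ℝ, u ≠ 0 := by
    have := Measure.ae_ne (volume : Measure ℝ) 0
    exact this
  filter_upwards [hne] with u hu
  have hu' : 0 < |u| := abs_pos.2 hu
  have hF : Measurable fun z : Fin (N + 1) → ℝ => (Rg (0 : Fin (N + 2))).indicator
      (fun h => H h (dd (t • Fin.cons c0 c) h)) (WithLp.toLp 2 (Fin.cons u z)) := by
    refine (hm1.indicator (Rg_meas _)).comp ?_
    apply (PiLp.volume_preserving_toLp (Fin (N + 2))).measurable.comp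
    rw [measurable_pi_iff]
    intro k
    refine Fin.cases ?_ (fun k => ?_) k
    · simp
    · simp only [Fin.cons_succ]
      fun_prop
  rw [lint_smul |u| hu' _ hF, ← lintegral_indicator measurableSet_Icc]
  congr 1
  refine lintegral_congr fun η => ?_
  have hiff : WithLp.toLp 2 (Fin.cons u (|u| • η)) ∈ Rg (0 : Fin (N + 2)) ↔
      η ∈ Icc (-1 : Fin (N + 1) → ℝ) 1 := by
    unfold Rg
    rw [mem_ofPred_eq, Fin.forall_fin_succ]
    simp only [Fin.cons_zero, Fin.cons_succ, Pi.smul_apply, smul_eq_mul, le_refl, true_and,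
      abs_mul, abs_abs, mem_Icc, Pi.le_def, ← forall_and, Pi.neg_apply, Pi.one_apply, ← abs_le]
    exact forall_congr' fun j => by
      rw [mul_le_iff_le_one_right hu']
  by_cases hη : η ∈ Icc (-1 : Fin (N + 1) → ℝ) 1
  · rw [indicator_of_mem (hiff.2 hη), indicator_of_mem hη, H_val hH hG ht]
  · rw [indicator_of_notMem (fun h => hη (hiff.1 h)), indicator_of_notMem hη]

end

end Pool.Agent.P8H20.EL
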