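import Pool.Agent.P8H20.EL.Key1

set_option autoImplicit false

/-! The key lemma, part 2. -/

namespace Pool.Agent.P8H20.EL

open MeasureTheory Set
open Pool.Agent.H153R4 (dd)
open scoped ENNReal RealInnerProductSpace

variable {N : ℕ}

/-- the window -/
noncomputable def Wd (a b r R : ℝ) : ℝ≥0∞ := if a * r ≤ R ∧ R ≤ b * r then 1 else 0

lemma Wd_meas (a b : ℝ) : Measurable fun p : ℝ × ℝ => Wd a b p.1 p.2 := by
  unfold Wd
  have h1 : MeasurableSet {p : ℝ × ℝ | a * p.1 ≤ p.2} :=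
    measurableSet_le (by fun_prop) (by fun_prop)
  have h2 : MeasurableSet {p : ℝ × ℝ | p.2 ≤ b * p.1} :=
    measurableSet_le (by fun_prop) (by fun_prop)
  exact Measurable.ite (h1.inter h2) measurable_const measurable_const

lemma Wd_lint (a b r : ℝ) (F : ℝ → ℝ≥0∞) :
    ∫⁻ R, Wd a b r R * F R = ∫⁻ R in Icc (a * r) (b * r), F R := by
  rw [← lintegral_indicator measurableSet_Icc]
  refine lintegral_congr fun R => ?_
  by_cases h : R ∈ Icc (a * r) (b * r)
  · rw [indicator_of_mem h, Wd, if_pos (show a * r ≤ R ∧ R ≤ b * r from h), one_mul]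
  · rw [indicator_of_notMem h, Wd, if_neg (show ¬ (a * r ≤ R ∧ R ≤ b * r) from h), zero_mul]

/-- substitutions `u → r`, `t → R` -/
lemma subst2 (A S A2 s0 s1 : ℝ) (hA : 1 ≤ A) (hA2 : A ≤ A2) (hs0 : 0 < s0) (hS : s0 ≤ S)
    (hS1 : S ≤ s1) {T : ℝ} (hT : 0 < T) (L : ℝ → ℝ → ℝ≥0∞) :
    ∫⁻ u in Ioi (0 : ℝ), ∫⁻ t in Ioc T (2 * T), ENNReal.ofReal (u ^ (N + 1)) *
        L (u * Real.sqrt A) (2 * t * u * Real.sqrt S) ≤
      ENNReal.ofReal (1 / (2 * Real.sqrt s0)) * ∫⁻ r in Ioi (0 : ℝ), ENNReal.ofReal (r ^ N) *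
        ∫⁻ R, Wd (2 * (Real.sqrt s0 / Real.sqrt A2) * T) (4 * Real.sqrt s1 * T) r R * L r R := by
  have hA0 : 0 < A := by linarith
  have hsA := Real.sqrt_pos.2 hA0
  have hsA1 : 1 ≤ Real.sqrt A := by rwa [Real.one_le_sqrt]
  have hsA2 : Real.sqrt A ≤ Real.sqrt A2 := Real.sqrt_le_sqrt hA2
  have hss0 := Real.sqrt_pos.2 hs0
  have hS0 : 0 < S := by linarith
  have hsS := Real.sqrt_pos.2 hS0
  have hsS0 : Real.sqrt s0 ≤ Real.sqrt S := Real.sqrt_le_sqrt hS
  have hsS1 : Real.sqrt S ≤ Real.sqrt s1 := Real.sqrt_le_sqrt hS1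
  have hsA2' : 0 < Real.sqrt A2 := by linarith
  rw [sub_scale (Real.sqrt A) hsA, ← lintegral_const_mul' _ _ ENNReal.ofReal_ne_top]
  refine setLIntegral_mono' measurableSet_Ioi fun r hr => ?_
  have hr' : 0 < r := hr
  set q : ℝ := 2 * (r / Real.sqrt A) * Real.sqrt S with hq
  have hq0 : 0 < q := by positivity
  set F : ℝ → ℝ≥0∞ := fun t => ENNReal.ofReal ((r / Real.sqrt A) ^ (N + 1)) *
    L (r / Real.sqrt A * Real.sqrt A) (2 * t * (r / Real.sqrt A) * Real.sqrt S) with hF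
  have h1 : ∫⁻ t in Ioc T (2 * T), F t =
      ∫⁻ R in Ioi (0 : ℝ), ENNReal.ofReal (1 / q) * (Ioc T (2 * T)).indicator F (R / q) := by
    rw [← sub_scale q hq0, setLIntegral_indicator measurableSet_Ioc, inter_eq_left.2]
    intro t ht
    exact lt_trans hT ht.1
  rw [h1, ← lintegral_const_mul' _ _ ENNReal.ofReal_ne_top,
    ← lintegral_const_mul' _ _ ENNReal.ofReal_ne_top,
    ← lintegral_const_mul' _ _ ENNReal.ofReal_ne_top]
  refine (setLIntegral_le_lintegral _ _).trans (lintegral_mono fun R => ?_)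
  by_cases hR : R / q ∈ Ioc T (2 * T)
  · rw [indicator_of_mem hR, hF]
    simp only
    have e1 : r / Real.sqrt A * Real.sqrt A = r := by field_simp
    have e2 : 2 * (R / q) * (r / Real.sqrt A) * Real.sqrt S = R := by
      rw [hq]
      field_simp
    have hw : Wd (2 * (Real.sqrt s0 / Real.sqrt A2) * T) (4 * Real.sqrt s1 * T) r R = 1 := by
      unfold Wd
      rw [if_pos]
      have h3 := hR.1
      have h4 := hR.2
      rw [lt_div_iff₀ hq0] at h3
      rw [div_le_iff₀ hq0] at h4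
      constructor
      · refine le_trans ?_ h3.le
        rw [hq]
        have : Real.sqrt s0 / Real.sqrt A2 ≤ Real.sqrt S / Real.sqrt A := by gcongr
        calc 2 * (Real.sqrt s0 / Real.sqrt A2) * T * r ≤
              2 * (Real.sqrt S / Real.sqrt A) * T * r := by gcongr
          _ = _ := by ring
      · refine h4.trans ?_
        rw [hq]
        have : r / Real.sqrt A ≤ r := div_le_self hr'.le hsA1
        calc 2 * T * (2 * (r / Real.sqrt A) * Real.sqrt S) ≤
              2 * T * (2 * r * Real.sqrt s1) := by gcongr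
          _ = _ := by ring
    rw [e1, e2, hw, one_mul, ← mul_assoc, ← mul_assoc, ← mul_assoc]
    refine mul_le_mul' ?_ le_rfl
    rw [← ENNReal.ofReal_mul (by positivity), ← ENNReal.ofReal_mul (by positivity),
      ← ENNReal.ofReal_mul (by positivity)]
    apply ENNReal.ofReal_le_ofReal
    have e3 : 1 / Real.sqrt A * (1 / q) * (r / Real.sqrt A) ^ (N + 1) =
        1 / (2 * Real.sqrt S) * (1 / r) * (r / Real.sqrt A) ^ (N + 1) := by
      rw [hq]
      field_simp
    rw [e3]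
    have e4 : (r / Real.sqrt A) ^ (N + 1) ≤ r ^ (N + 1) :=
      pow_le_pow_left₀ (by positivity) (div_le_self hr'.le hsA1) _
    calc 1 / (2 * Real.sqrt S) * (1 / r) * (r / Real.sqrt A) ^ (N + 1) ≤
          1 / (2 * Real.sqrt s0) * (1 / r) * r ^ (N + 1) := by gcongr
      _ = 1 / (2 * Real.sqrt s0) * r ^ N := by
          rw [pow_succ]
          field_simp
  · rw [indicator_of_notMem hR]
    simp

section

variable {κ M c0 : ℝ} {c : Fin (N + 1) → ℝ}

/-- the lower constant of the window -/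
noncomputable def wa (N : ℕ) (κ : ℝ) : ℝ := 2 * (κ / Real.sqrt (N + 2))

/-- the upper constant of the window -/
noncomputable def wb (N : ℕ) (M : ℝ) : ℝ := 4 * Real.sqrt (M ^ 2 * (N + 2))

lemma J0 {H : E (N + 2) → E (N + 2) → ℝ≥0∞} (hH : Inv H)
    (hm : Measurable (Function.uncurry H)) (hG : Good κ M c0 c) {T : ℝ} (hT : 0 < T) :
    ∫⁻ t in Ioc T (2 * T), ∫⁻ h in Rg (0 : Fin (N + 2)), H h (dd (t • Fin.cons c0 c) h) ≤
      ENNReal.ofReal (1 / κ) * ∫⁻ r in Ioi (0 : ℝ), ENNReal.ofReal (r ^ N) *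
        ∫⁻ R, Wd (wa N κ * T) (wb N M * T) r R *
          ∫⁻ η in Icc (-1 : Fin (N + 1) → ℝ) 1, Lam H r R (fx c0 c η) := by
  have hκ := hG.k0
  -- the integrand
  set G : ℝ → ℝ → (Fin (N + 1) → ℝ) → ℝ≥0∞ := fun t u η => ENNReal.ofReal (u ^ (N + 1)) *
    Lam H (u * Real.sqrt (fA η)) (2 * t * u * Real.sqrt (fS c0 c η)) (fx c0 c η) with hGd
  have hGm : Measurable fun p : ℝ × ℝ × (Fin (N + 1) → ℝ) => G p.1 p.2.1 p.2.2 := by
    rw [hGd]
    simp only
    refine ((measurable_fst.comp measurable_snd).pow_const _).ennreal_ofReal.mul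
      ((Lam_meas hm).comp (Measurable.prodMk ?_ (Measurable.prodMk ?_ ?_)))
    · unfold fA
      fun_prop
    · unfold fS
      fun_prop
    · exact (meas_fx c0 c).comp (measurable_snd.comp measurable_snd)
  have h1 : ∀ t ∈ Ioc T (2 * T), ∫⁻ h in Rg (0 : Fin (N + 2)), H h (dd (t • Fin.cons c0 c) h) =
      2 * ∫⁻ u in Ioi (0 : ℝ), ∫⁻ η in Icc (-1 : Fin (N + 1) → ℝ) 1, G t u η := by
    intro t ht
    rw [lint_Rg hH hm hG (lt_trans hT ht.1)]
    congr 1
    refine lintegral_congr fun u => ?_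
    rw [← lintegral_const_mul' _ _ ENNReal.ofReal_ne_top]
  rw [setLIntegral_congr_fun measurableSet_Ioc h1, lintegral_const_mul' _ _ (by norm_num)]
  -- the order of integration
  have s1 : ∫⁻ t in Ioc T (2 * T), ∫⁻ u in Ioi (0 : ℝ),
      ∫⁻ η in Icc (-1 : Fin (N + 1) → ℝ) 1, G t u η =
      ∫⁻ η in Icc (-1 : Fin (N + 1) → ℝ) 1, ∫⁻ u in Ioi (0 : ℝ),
        ∫⁻ t in Ioc T (2 * T), G t u η := by
    rw [lintegral_lintegral_swap]
    swap
    · have : Measurable fun p : (ℝ × ℝ) × (Fin (N + 1) → ℝ) => G p.1.1 p.1.2 p.2 :=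
        hGm.comp ((measurable_fst.comp measurable_fst).prodMk
          ((measurable_snd.comp measurable_fst).prodMk measurable_snd))
      exact (this.lintegral_prod_right'
        (ν := volume.restrict (Icc (-1 : Fin (N + 1) → ℝ) 1))).aemeasurable
    have s2 : ∀ u : ℝ, ∫⁻ t in Ioc T (2 * T), ∫⁻ η in Icc (-1 : Fin (N + 1) → ℝ) 1, G t u η =
        ∫⁻ η in Icc (-1 : Fin (N + 1) → ℝ) 1, ∫⁻ t in Ioc T (2 * T), G t u η := by
      intro u
      rw [lintegral_lintegral_swap]
      exact (hGm.comp (measurable_fst.prodMk (measurable_const.prodMk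
        measurable_snd))).aemeasurable
    simp only [s2]
    rw [lintegral_lintegral_swap]
    have : Measurable fun p : (ℝ × (Fin (N + 1) → ℝ)) × ℝ => G p.2 p.1.1 p.1.2 :=
      hGm.comp (measurable_snd.prodMk ((measurable_fst.comp measurable_fst).prodMk
        (measurable_snd.comp measurable_fst)))
    exact (this.lintegral_prod_right' (ν := volume.restrict (Ioc T (2 * T)))).aemeasurable
  rw [s1]
  -- the substitutions
  have h2 : ∀ η ∈ Icc (-1 : Fin (N + 1) → ℝ) 1, ∫⁻ u in Ioi (0 : ℝ),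
      ∫⁻ t in Ioc T (2 * T), G t u η ≤ ENNReal.ofReal (1 / (2 * κ)) *
        ∫⁻ r in Ioi (0 : ℝ), ENNReal.ofReal (r ^ N) *
          ∫⁻ R, Wd (wa N κ * T) (wb N M * T) r R * Lam H r R (fx c0 c η) := by
    intro η hη
    have hη' : ∀ l, |η l| ≤ 1 := fun l => abs_le.2 ⟨hη.1 l, hη.2 l⟩
    have a1 := fA_le hη'
    have a2 := fS_le hG hη'
    have h3 := subst2 (N := N) (fA η) (fS c0 c η) (N + 2) (κ ^ 2) (M ^ 2 * (N + 2)) (fA_ge η)
      (by push_cast at a1; linarith) (by positivity) (fS_ge hG η)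
      (by
        push_cast at a2
        nlinarith [sq_nonneg M]) hT
      (fun r R => Lam H r R (fx c0 c η))
    rw [Real.sqrt_sq hκ.le] at h3
    exact h3
  refine (mul_le_mul' le_rfl (setLIntegral_mono' measurableSet_Icc h2)).trans ?_
  rw [lintegral_const_mul' _ _ ENNReal.ofReal_ne_top, ← mul_assoc]
  have e1 : (2 : ℝ≥0∞) * ENNReal.ofReal (1 / (2 * κ)) = ENNReal.ofReal (1 / κ) := by
    rw [show (2 : ℝ≥0∞) = ENNReal.ofReal 2 by simp, ← ENNReal.ofReal_mul (by norm_num)]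
    congr 1
    field_simp
  rw [e1]
  gcongr
  -- back
  have hLm : Measurable fun p : ℝ × ℝ × (Fin (N + 1) → ℝ) => Wd (wa N κ * T) (wb N M * T) p.1 p.2.1
      * Lam H p.1 p.2.1 (fx c0 c p.2.2) := by
    refine ((Wd_meas _ _).comp (measurable_fst.prodMk (measurable_fst.comp measurable_snd))).mul
      ((Lam_meas hm).comp (measurable_fst.prodMk ((measurable_fst.comp measurable_snd).prodMk
        ((meas_fx c0 c).comp (measurable_snd.comp measurable_snd)))))
  rw [lintegral_lintegral_swap]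
  swap
  · have : Measurable fun p : ((Fin (N + 1) → ℝ) × ℝ) × ℝ => Wd (wa N κ * T) (wb N M * T) p.1.2 p.2
        * Lam H p.1.2 p.2 (fx c0 c p.1.1) :=
      hLm.comp ((measurable_snd.comp measurable_fst).prodMk (measurable_snd.prodMk
        (measurable_fst.comp measurable_fst)))
    exact ((measurable_snd.pow_const N).ennreal_ofReal.mul
      (this.lintegral_prod_right' (ν := volume))).aemeasurable
  refine lintegral_mono fun r => ?_
  rw [lintegral_const_mul' _ _ ENNReal.ofReal_ne_top]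
  gcongr
  rw [lintegral_lintegral_swap]
  swap
  · exact (hLm.comp (measurable_const.prodMk (measurable_snd.prodMk measurable_fst))).aemeasurable
  refine lintegral_mono fun R => ?_
  refine le_of_eq ?_
  rw [lintegral_const_mul']
  unfold Wd
  split_ifs <;> simp

end

end Pool.Agent.P8H20.EL
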