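import Pool.Agent.P8H20.EL.Key2

set_option autoImplicit false

/-! The key lemma, part 3. -/

namespace Pool.Agent.P8H20.EL

open MeasureTheory Set
open Pool.Agent.H153R4 (dd)
open scoped ENNReal RealInnerProductSpace

variable {N : ℕ}

lemma holder_one {X : Type*} [MeasurableSpace X] (ν : Measure X) (g : X → ℝ≥0∞)
    (hg : AEMeasurable g ν) (a : ℝ) (ha0 : 0 ≤ a) (ha : a ≤ 1) :
    ∫⁻ x, g x ^ a ∂ν ≤ (ν univ) ^ (1 - a) * (∫⁻ x, g x ∂ν) ^ a := by
  have h := ENNReal.lintegral_mul_norm_pow_le (μ := ν) (f := fun _ => 1) (g := g)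
    aemeasurable_const hg (p := 1 - a) (q := a) (by linarith) ha0 (by ring)
  simpa using h

/-- admissible functions -/
structure Adm (B2 : ℝ≥0∞) (ρ0 : ℝ) (H : E (N + 2) → E (N + 2) → ℝ≥0∞) : Prop where
  inv : Inv H
  meas : Measurable (Function.uncurry H)
  le1 : ∀ h y, H h y ≤ 1
  int : ∀ h, ∫⁻ y, H h y ≤ B2
  supp : ∀ h y, ρ0 < ‖h‖ → H h y = 0

/-- the measure of the sphere -/
noncomputable def sg (N : ℕ) : ℝ≥0∞ := (volume : Measure (E (N + 1))).toSphere univ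

lemma sg_pos (N : ℕ) : sg N ≠ 0 := by
  unfold sg
  rw [Measure.toSphere_apply_univ]
  refine mul_ne_zero (by simp) ?_
  exact (Metric.measure_ball_pos volume _ one_pos).ne'

lemma sg_fin (N : ℕ) : sg N ≠ ⊤ := measure_ne_top _ _

lemma mass_bd (hN : 1 ≤ N) {B2 : ℝ≥0∞} {ρ0 : ℝ} {H : E (N + 2) → E (N + 2) → ℝ≥0∞}
    (hA : Adm B2 ρ0 H) {r : ℝ} (hr : 0 < r) {u v : ℝ} (hu : 0 < u) :
    ∫⁻ R in Icc u v, ∫⁻ x in Ioo (-1 : ℝ) 1, Lam H r R x * ENNReal.ofReal (wt N x) ≤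
      ENNReal.ofReal (u ^ (-((N : ℝ) + 1))) * ((sg N)⁻¹ * B2) := by
  have h1 := lint_zonal hN hA.inv hA.meas hr
  have h2 : ∫⁻ x in Ioo (-1 : ℝ) 1, ∫⁻ R in Ioi (0 : ℝ), ENNReal.ofReal (R ^ (N + 1) * wt N x) *
      H (pt0 r) (pt1 R x) = ∫⁻ R in Ioi (0 : ℝ), ∫⁻ x in Ioo (-1 : ℝ) 1,
        ENNReal.ofReal (R ^ (N + 1) * wt N x) * H (pt0 r) (pt1 R x) := by
    rw [lintegral_lintegral_swap]
    refine (Measurable.mul ?_ ?_).aemeasurable
    · exact ((measurable_snd.pow_const _).mul ((wt_meas N).comp measurable_fst)).ennreal_ofReal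
    · exact (Lam_meas hA.meas).comp (measurable_const.prodMk (measurable_snd.prodMk measurable_fst))
  rw [h2] at h1
  have h3 : ∫⁻ R in Ioi (0 : ℝ), ∫⁻ x in Ioo (-1 : ℝ) 1,
        ENNReal.ofReal (R ^ (N + 1) * wt N x) * H (pt0 r) (pt1 R x) ≤ (sg N)⁻¹ * B2 := by
    have h4 := hA.int (pt0 r)
    rw [h1] at h4
    have h5 : (sg N)⁻¹ * (sg N * ∫⁻ R in Ioi (0 : ℝ), ∫⁻ x in Ioo (-1 : ℝ) 1,
        ENNReal.ofReal (R ^ (N + 1) * wt N x) * H (pt0 r) (pt1 R x)) ≤ (sg N)⁻¹ * B2 :=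
      mul_le_mul' le_rfl h4
    rwa [← mul_assoc, ENNReal.inv_mul_cancel (sg_pos N) (sg_fin N), one_mul] at h5
  refine le_trans ?_ (mul_le_mul' le_rfl h3)
  rw [← lintegral_const_mul' _ _ ENNReal.ofReal_ne_top]
  refine le_trans ?_ (lintegral_mono_set (fun R hR => lt_of_lt_of_le hu hR.1 :
    Icc u v ⊆ Ioi 0))
  refine setLIntegral_mono' measurableSet_Icc fun R hR => ?_
  rw [← lintegral_const_mul' _ _ ENNReal.ofReal_ne_top]
  refine setLIntegral_mono' measurableSet_Ioo fun x hx => ?_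
  have hR0 : 0 < R := lt_of_lt_of_le hu hR.1
  have hw : 0 ≤ wt N x := by
    unfold wt
    apply Real.rpow_nonneg
    nlinarith [hx.1, hx.2]
  rw [mul_comm (Lam H r R x), ← mul_assoc, ← ENNReal.ofReal_mul (by positivity)]
  refine mul_le_mul' (ENNReal.ofReal_le_ofReal ?_) le_rfl
  have h6 : 1 ≤ u ^ (-((N : ℝ) + 1)) * R ^ (N + 1) := by
    have h7 : u ^ (N + 1) ≤ R ^ (N + 1) := pow_le_pow_left₀ hu.le hR.1 _
    rw [Real.rpow_neg hu.le, ← Nat.cast_succ, Real.rpow_natCast, inv_mul_eq_div,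
      one_le_div (by positivity)]
    exact h7
  nlinarith

section

variable {κ M c0 : ℝ} {c : Fin (N + 1) → ℝ}

lemma wa_pos (hκ : 0 < κ) : 0 < wa N κ := by
  unfold wa
  have : (0 : ℝ) < N + 2 := by positivity
  have := Real.sqrt_pos.2 this
  positivity

lemma wb_pos (hM : 1 ≤ M) : 0 < wb N M := by
  unfold wb
  have : (0 : ℝ) < M ^ 2 * (N + 2) := by positivity
  have := Real.sqrt_pos.2 this
  positivity

lemma r_bd (hN : 1 ≤ N) (hG : Good κ M c0 c) {B2 : ℝ≥0∞} {ρ0 : ℝ}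
    {H : E (N + 2) → E (N + 2) → ℝ≥0∞} (hA : Adm B2 ρ0 H) {a : ℝ} (ha0 : 0 < a) (ha : a < 1)
    {C : ℝ≥0∞} (hC : ∀ G : ℝ → ℝ≥0∞, Measurable G → (∀ x, G x ≤ 1) →
      ∫⁻ η in Icc (-1 : Fin (N + 1) → ℝ) 1, G (fx c0 c η) ≤
        C * (∫⁻ x in Ioo (-1 : ℝ) 1, G x * ENNReal.ofReal (wt N x)) ^ a) (hCt : C ≠ ⊤)
    {r T : ℝ} (hr : 0 < r) (hT : 0 < T) :
    ∫⁻ R, Wd (wa N κ * T) (wb N M * T) r R *
          ∫⁻ η in Icc (-1 : Fin (N + 1) → ℝ) 1, Lam H r R (fx c0 c η) ≤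
      C * ((sg N)⁻¹ * B2) ^ a * ENNReal.ofReal ((wb N M) ^ (1 - a) *
        (wa N κ) ^ (-((N : ℝ) + 1) * a) * (T * r) ^ (1 - ((N : ℝ) + 2) * a)) := by
  have hwa := wa_pos (N := N) hG.k0
  have hwb := wb_pos (N := N) hG.m1
  rw [Wd_lint]
  have h1 : ∀ R, ∫⁻ η in Icc (-1 : Fin (N + 1) → ℝ) 1, Lam H r R (fx c0 c η) ≤
      C * (∫⁻ x in Ioo (-1 : ℝ) 1, Lam H r R x * ENNReal.ofReal (wt N x)) ^ a := by
    intro R
    refine hC (Lam H r R) ?_ (fun x => hA.le1 _ _)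
    exact (Lam_meas hA.meas).comp (measurable_const.prodMk (measurable_const.prodMk measurable_id))
  refine (lintegral_mono h1).trans ?_
  rw [lintegral_const_mul' _ _ hCt]
  have hgm : Measurable fun R : ℝ => ∫⁻ x in Ioo (-1 : ℝ) 1, Lam H r R x *
      ENNReal.ofReal (wt N x) := by
    have : Measurable fun p : ℝ × ℝ => Lam H r p.1 p.2 * ENNReal.ofReal (wt N p.2) :=
      ((Lam_meas hA.meas).comp (measurable_const.prodMk
        (measurable_fst.prodMk measurable_snd))).mul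
        ((wt_meas N).comp measurable_snd).ennreal_ofReal
    exact this.lintegral_prod_right' (ν := volume.restrict (Ioo (-1 : ℝ) 1))
  have h2 := holder_one (volume.restrict (Icc (wa N κ * T * r) (wb N M * T * r))) _
    hgm.aemeasurable a ha0.le ha.le
  have hu : 0 < wa N κ * T * r := by positivity
  have h3 := mass_bd hN hA hr (u := wa N κ * T * r) (v := wb N M * T * r) hu
  have h4 : (volume.restrict (Icc (wa N κ * T * r) (wb N M * T * r))) univ ≤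
      ENNReal.ofReal (wb N M * T * r) := by
    rw [Measure.restrict_apply_univ, Real.volume_Icc]
    exact ENNReal.ofReal_le_ofReal (by linarith)
  have h5 := h2.trans (mul_le_mul' (ENNReal.rpow_le_rpow h4 (by linarith : 0 ≤ 1 - a))
    (ENNReal.rpow_le_rpow h3 ha0.le))
  refine (mul_le_mul' le_rfl h5).trans (le_of_eq ?_)
  rw [ENNReal.mul_rpow_of_nonneg _ _ ha0.le, ENNReal.ofReal_rpow_of_pos (by positivity),
    ENNReal.ofReal_rpow_of_pos (by positivity)]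
  have h6 : ENNReal.ofReal ((wb N M * T * r) ^ (1 - a)) *
      ENNReal.ofReal (((wa N κ * T * r) ^ (-((N : ℝ) + 1))) ^ a) =
      ENNReal.ofReal ((wb N M) ^ (1 - a) * (wa N κ) ^ (-((N : ℝ) + 1) * a) *
        (T * r) ^ (1 - ((N : ℝ) + 2) * a)) := by
    rw [← ENNReal.ofReal_mul (by positivity)]
    congr 1
    have e1 : (1 - ((N : ℝ) + 2) * a) = (1 - a) + (-((N : ℝ) + 1) * a) := by ring
    rw [← Real.rpow_mul (by positivity), e1, Real.rpow_add (by positivity), mul_assoc (wb N M),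
      mul_assoc (wa N κ), Real.mul_rpow (x := wb N M) (y := T * r) (by positivity) (by positivity),
      Real.mul_rpow (x := wa N κ) (y := T * r) (by positivity) (by positivity)]
    ring
  rw [← h6]
  ring

lemma rint_fin (e : ℝ) (he : -1 < e) (ρ0 : ℝ) :
    ∫⁻ r in Ioc 0 ρ0, ENNReal.ofReal (r ^ e) < ⊤ := by
  rcases le_or_gt ρ0 0 with h | h
  · rw [Ioc_eq_empty (by simpa using h)]
    simp
  · have h1 := intervalIntegral.intervalIntegrable_rpow' (a := 0) (b := ρ0) (r := e) he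
    rw [intervalIntegrable_iff_integrableOn_Ioc_of_le h.le] at h1
    exact h1.lintegral_lt_top

lemma key0 (hN : 1 ≤ N) (hG : Good κ M c0 c) {B2 : ℝ≥0∞} (hB2 : B2 ≠ ⊤) (ρ0 : ℝ)
    {a : ℝ} (ha0 : 0 < a) (ha : a < 1) :
    ∃ K : ℝ≥0∞, K ≠ ⊤ ∧ ∀ H : E (N + 2) → E (N + 2) → ℝ≥0∞, Adm B2 ρ0 H →
      ∀ T : ℝ, 0 < T →
      ∫⁻ t in Ioc T (2 * T), ∫⁻ h in Rg (0 : Fin (N + 2)), H h (dd (t • Fin.cons c0 c) h) ≤
        K * ENNReal.ofReal (T ^ (1 - ((N : ℝ) + 2) * a)) := by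
  obtain ⟨C, hCt, hC⟩ := lemS hN hG a ha0 ha
  have hκ := hG.k0
  have hwa := wa_pos (N := N) hG.k0
  have hwb := wb_pos (N := N) hG.m1
  set w : ℝ := (wb N M) ^ (1 - a) * (wa N κ) ^ (-((N : ℝ) + 1) * a) with hw
  have hw0 : 0 ≤ w := by positivity
  set e : ℝ := 1 - ((N : ℝ) + 2) * a with he
  set I : ℝ≥0∞ := ∫⁻ r in Ioc 0 ρ0, ENNReal.ofReal (r ^ ((N : ℝ) + e)) with hI
  have hIf : I < ⊤ := rint_fin _ (by
    rw [he]
    have : 0 < (N : ℝ) + 2 := by positivity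
    nlinarith) ρ0
  refine ⟨ENNReal.ofReal (1 / κ) * (C * ((sg N)⁻¹ * B2) ^ a * ENNReal.ofReal w * I), ?_, ?_⟩
  · refine ENNReal.mul_ne_top ENNReal.ofReal_ne_top (ENNReal.mul_ne_top (ENNReal.mul_ne_top
      (ENNReal.mul_ne_top hCt ?_) ENNReal.ofReal_ne_top) hIf.ne)
    refine (ENNReal.rpow_lt_top_of_nonneg ha0.le (ENNReal.mul_ne_top ?_ hB2)).ne
    rw [ENNReal.inv_ne_top]
    exact sg_pos N
  intro H hA T hT
  refine (J0 hA.inv hA.meas hG hT).trans ?_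
  rw [mul_assoc]
  refine mul_le_mul' le_rfl ?_
  have h1 : ∀ r ∈ Ioi (0 : ℝ), ENNReal.ofReal (r ^ N) * ∫⁻ R, Wd (wa N κ * T) (wb N M * T) r R *
      ∫⁻ η in Icc (-1 : Fin (N + 1) → ℝ) 1, Lam H r R (fx c0 c η) ≤
      (Ioc 0 ρ0).indicator (fun r => C * ((sg N)⁻¹ * B2) ^ a * ENNReal.ofReal w *
        ENNReal.ofReal (T ^ e) * ENNReal.ofReal (r ^ ((N : ℝ) + e))) r := by
    intro r hr
    have hr' : 0 < r := hr
    by_cases hρ : r ≤ ρ0
    · rw [indicator_of_mem (show r ∈ Ioc 0 ρ0 from ⟨hr, hρ⟩)]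
      refine (mul_le_mul' le_rfl (r_bd hN hG hA ha0 ha hC hCt hr' hT)).trans (le_of_eq ?_)
      rw [← he, ← hw, Real.mul_rpow hT.le hr'.le, ENNReal.ofReal_mul hw0,
        ENNReal.ofReal_mul (p := T ^ e) (by positivity), Real.rpow_add hr', Real.rpow_natCast,
        ENNReal.ofReal_mul (p := r ^ N) (by positivity)]
      ring
    · have hz : ∀ R x, Lam H r R x = 0 := fun R x =>
        hA.supp _ _ (by rw [norm_pt0 hr'.le]; exact not_le.1 hρ)
      simp only [hz]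
      simp
  refine (setLIntegral_mono' measurableSet_Ioi h1).trans ?_
  rw [setLIntegral_indicator measurableSet_Ioc, inter_eq_left.2 (fun r hr => hr.1)]
  have hne : C * ((sg N)⁻¹ * B2) ^ a * ENNReal.ofReal w * ENNReal.ofReal (T ^ e) ≠ ⊤ := by
    refine ENNReal.mul_ne_top (ENNReal.mul_ne_top
      (ENNReal.mul_ne_top hCt ?_) ENNReal.ofReal_ne_top) ENNReal.ofReal_ne_top
    refine (ENNReal.rpow_lt_top_of_nonneg ha0.le (ENNReal.mul_ne_top ?_ hB2)).ne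
    rw [ENNReal.inv_ne_top]
    exact sg_pos N
  rw [lintegral_const_mul' _ _ hne]
  apply le_of_eq
  rw [← hI]
  ring

end

/-- permutation of the coordinates -/
noncomputable def pm {n : ℕ} (σ : Equiv.Perm (Fin n)) : E n ≃ₗᵢ[ℝ] E n :=
  LinearIsometryEquiv.piLpCongrLeft 2 ℝ ℝ σ

lemma pm_apply {n : ℕ} (σ : Equiv.Perm (Fin n)) (h : E n) (j : Fin n) :
    pm σ h j = h (σ.symm j) := rfl

lemma lint_pm {n : ℕ} (m i : Fin n) (s : Fin n → ℝ) {H : E n → E n → ℝ≥0∞} (hH : Inv H)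
    (hm : Measurable (Function.uncurry H)) :
    ∫⁻ h in Rg m, H h (dd s h) = ∫⁻ h in Rg i, H h (dd (s ∘ Equiv.swap i m) h) := by
  set O := pm (Equiv.swap i m) with hO
  have hm1 : Measurable fun h : E n => H h (dd s h) := hm.comp (measurable_id.prodMk (dd_meas _))
  rw [← lintegral_indicator (Rg_meas _), ← lintegral_indicator (Rg_meas _),
    ← O.measurePreserving.lintegral_comp (hm1.indicator (Rg_meas _))]
  refine lintegral_congr fun h => ?_
  have e1 : dd s (O h) = O (dd (s ∘ Equiv.swap i m) h) := by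
    ext j
    rw [hO, pm_apply]
    simp only [dd, Function.comp, Equiv.symm_swap, Equiv.swap_apply_self]
    rw [pm_apply, Equiv.symm_swap]
  have hiff : O h ∈ Rg m ↔ h ∈ Rg i := by
    unfold Rg
    rw [mem_ofPred_eq, mem_ofPred_eq, hO]
    simp only [pm_apply, Equiv.symm_swap, Equiv.swap_apply_right]
    constructor
    · intro h1 j
      have := h1 (Equiv.swap i m j)
      rwa [Equiv.swap_apply_self] at this
    · intro h1 j
      exact h1 _
  by_cases hh : h ∈ Rg i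
  · rw [indicator_of_mem (hiff.2 hh), indicator_of_mem hh, e1, hH]
  · rw [indicator_of_notMem (fun h => hh (hiff.1 h)), indicator_of_notMem hh]

/-- **The key lemma.** -/
theorem key (hN : 1 ≤ N) (c : Fin (N + 2) → ℝ) (hc0 : ∀ j, c j ≠ 0) (hc : Function.Injective c)
    {B2 : ℝ≥0∞} (hB2 : B2 ≠ ⊤) (ρ0 : ℝ) {a : ℝ} (ha0 : 0 < a) (ha : a < 1) :
    ∃ K : ℝ≥0∞, K ≠ ⊤ ∧ ∀ H : E (N + 2) → E (N + 2) → ℝ≥0∞, Adm B2 ρ0 H →
      ∀ T : ℝ, 0 < T → ∫⁻ t in Ioc T (2 * T), ∫⁻ h, H h (dd (t • c) h) ≤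
        K * ENNReal.ofReal (T ^ (1 - ((N : ℝ) + 2) * a)) := by
  have h1 : ∀ m : Fin (N + 2), ∃ K : ℝ≥0∞, K ≠ ⊤ ∧ ∀ H : E (N + 2) → E (N + 2) → ℝ≥0∞,
      Adm B2 ρ0 H → ∀ T : ℝ, 0 < T → ∫⁻ t in Ioc T (2 * T), ∫⁻ h in Rg m, H h (dd (t • c) h) ≤
        K * ENNReal.ofReal (T ^ (1 - ((N : ℝ) + 2) * a)) := by
    intro m
    obtain ⟨c', hc'⟩ : ∃ c' : Fin (N + 2) → ℝ, c' = c ∘ Equiv.swap 0 m := ⟨_, rfl⟩
    have hinj : Function.Injective c' := by
      rw [hc']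
      exact hc.comp (Equiv.injective _)
    have hc0' : ∀ j, c' j ≠ 0 := fun j => by
      rw [hc']
      exact hc0 _
    obtain ⟨κ, M, hG⟩ := exists_good (c' 0) (Fin.tail c') (hc0' _) (fun l => hc0' _)
      (fun l e => by
        have := hinj e
        simp at this)
      (fun l l' e => by
        have := hinj e
        simpa using this)
    obtain ⟨K, hK, h⟩ := key0 hN hG hB2 ρ0 ha0 ha
    refine ⟨K, hK, fun H hA T hT => ?_⟩
    have h2 := h H hA T hT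
    refine le_trans (le_of_eq ?_) h2
    refine lintegral_congr fun t => ?_
    rw [Fin.cons_self_tail]
    have h3 := lint_pm m 0 (t • c) hA.inv hA.meas
    rw [h3, hc']
    rfl
  choose K hK h using h1
  refine ⟨∑ m, K m, ENNReal.sum_ne_top.2 fun m _ => hK m, fun H hA T hT => ?_⟩
  have hdm : Measurable fun p : ℝ × E (N + 2) => dd (p.1 • c) p.2 := by
    unfold dd
    apply (PiLp.volume_preserving_toLp (Fin (N + 2))).measurable.comp
    rw [measurable_pi_iff]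
    intro j
    simp only [Pi.smul_apply, smul_eq_mul]
    fun_prop
  have hHm : Measurable fun p : ℝ × E (N + 2) => H p.2 (dd (p.1 • c) p.2) :=
    hA.meas.comp (measurable_snd.prodMk hdm)
  have h3 : ∀ t : ℝ, ∫⁻ h, H h (dd (t • c) h) ≤ ∑ m, ∫⁻ h in Rg m, H h (dd (t • c) h) := by
    intro t
    rw [← setLIntegral_univ]
    refine (lintegral_mono_set Rg_cover).trans ((lintegral_iUnion_le _ _).trans ?_)
    rw [tsum_fintype]
  refine (lintegral_mono h3).trans ?_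
  rw [lintegral_finsetSum _ (fun m _ => ?_)]
  · rw [Finset.sum_mul]
    exact Finset.sum_le_sum fun m _ => h m H hA T hT
  · exact hHm.lintegral_prod_right' (ν := volume.restrict (Rg m))

end Pool.Agent.P8H20.EL
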