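import Pool.Agent.P8H20.EL.Alg

set_option autoImplicit false

/-! The lower bound of the gradient. -/

namespace Pool.Agent.P8H20.EL

open Finset

variable {N : ℕ} {κ M c0 : ℝ} {c : Fin N → ℝ}

lemma cont_fL (c0 : ℝ) (c : Fin N → ℝ) (t : ℝ) : Continuous fun η : Fin N → ℝ => fL c0 c η t := by
  unfold fL fA fS fP
  fun_prop

/-- for small `η` no value is small -/
lemma near_zero (hG : Good κ M c0 c) : ∃ δ : ℝ, 0 < δ ∧ δ ≤ 1 ∧ ∀ η : Fin N → ℝ, ‖η‖ < δ →
    ∀ j, κ ^ 3 / 2 ≤ |fL c0 c η (c j)| := by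
  have hk := hG.k0
  have h0 : ∀ j, κ ^ 3 ≤ |fL c0 c (0 : Fin N → ℝ) (c j)| := by
    intro j
    have e : fL c0 c (0 : Fin N → ℝ) (c j) = -(c0 * (c j - c0) ^ 2) := by
      unfold fL fA fS fP
      simp
      ring
    rw [e, abs_neg, abs_mul, abs_pow]
    calc κ ^ 3 = κ * κ ^ 2 := by ring
      _ ≤ |c0| * |c j - c0| ^ 2 := by
        have a1 := hG.c0k
        have a2 := hG.c0c j
        gcongr
  have h1 : ∀ j, ∀ᶠ η : Fin N → ℝ in nhds 0, κ ^ 3 / 2 < |fL c0 c η (c j)| := by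
    intro j
    have hc : Filter.Tendsto (fun η : Fin N → ℝ => |fL c0 c η (c j)|) (nhds 0)
        (nhds |fL c0 c (0 : Fin N → ℝ) (c j)|) := ((cont_fL c0 c (c j)).abs.tendsto 0)
    apply hc.eventually
    apply Ioi_mem_nhds
    have : 0 < κ ^ 3 := by positivity
    linarith [h0 j]
  have h2 := (Filter.eventually_all.2 h1)
  rw [Metric.eventually_nhds_iff] at h2
  obtain ⟨ε, hε, h3⟩ := h2
  refine ⟨min ε 1, lt_min hε one_pos, min_le_right _ _, fun η hη j => ?_⟩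
  exact (h3 (by rw [dist_zero_right]; exact lt_of_lt_of_le hη (min_le_left _ _)) j).le

/-- two coordinates -/
lemma two_coord (hG : Good κ M c0 c) (l j : Fin N) (hlj : l ≠ j) (hN : ∀ k, k ≠ l → k = j) :
    ∃ K : ℝ, 0 ≤ K ∧ ∀ η : Fin N → ℝ, (∀ k, |η k| ≤ 1) →
      κ ^ 2 * fpsi c0 (c j) (η j) ≤ |η j * fL c0 c η (c j)| + K * |η l| := by
  classical
  have hu : (univ : Finset (Fin N)) = {l, j} := by
    ext k
    simp only [mem_univ, Finset.mem_insert, Finset.mem_singleton, true_iff]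
    by_cases h : k = l
    · exact Or.inl h
    · exact Or.inr (hN k h)
  set R : ℝ × ℝ → ℝ := fun p => 2 * c j * ((c0 ^ 2 + c j ^ 2 * p.1) + c l ^ 2 * (1 + p.1) +
    c l ^ 2 * p.2) - (c l * (c0 ^ 2 + c j ^ 2 * p.1) + c l ^ 2 * (c0 + c j * p.1) +
    c l ^ 3 * p.2) - c j ^ 2 * ((c0 + c j * p.1) + c l * (1 + p.1) + c l * p.2) with hR
  have hRc : Continuous R := by rw [hR]; fun_prop
  obtain ⟨K, hK⟩ := (isCompact_Icc (a := ((0 : ℝ), (0 : ℝ))) (b := ((1 : ℝ), (1 : ℝ)))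
    ).exists_bound_of_continuousOn hRc.continuousOn
  refine ⟨max K 0, le_max_right _ _, fun η hη => ?_⟩
  have hsq : ∀ k, η k ^ 2 ≤ 1 := fun k => by
    rw [← sq_abs]
    exact pow_le_one₀ (abs_nonneg _) (hη k)
  have hid : fL c0 c η (c j) = (c j - c0) ^ 2 * (c j * η j ^ 2 - c0) +
      η l ^ 2 * R (η j ^ 2, η l ^ 2) := by
    unfold fL fA fS fP
    rw [hu, sum_pair hlj, sum_pair hlj, sum_pair hlj, hR]
    simp only
    ring
  have hb : |R (η j ^ 2, η l ^ 2)| ≤ max K 0 :=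
    (hK _ ⟨⟨sq_nonneg _, sq_nonneg _⟩, ⟨hsq _, hsq _⟩⟩).trans (le_max_left _ _)
  have h1 : (c j - c0) ^ 2 * (η j * (c j * η j ^ 2 - c0)) =
      η j * fL c0 c η (c j) - η j * (η l ^ 2 * R (η j ^ 2, η l ^ 2)) := by
    rw [hid]
    ring
  have h2 : κ ^ 2 ≤ (c j - c0) ^ 2 := by
    rw [← sq_abs (c j - c0)]
    exact pow_le_pow_left₀ hG.k0.le (hG.c0c j) 2
  have h3 : |η j * (η l ^ 2 * R (η j ^ 2, η l ^ 2))| ≤ max K 0 * |η l| := by
    rw [abs_mul, abs_mul, abs_pow, pow_two]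
    have a1 := hη j
    have a2 := hη l
    have a3 := abs_nonneg (η j)
    have a4 := abs_nonneg (η l)
    have a5 := abs_nonneg (R (η j ^ 2, η l ^ 2))
    calc |η j| * (|η l| * |η l| * |R (η j ^ 2, η l ^ 2)|)
        ≤ 1 * (1 * |η l| * max K 0) := by gcongr
      _ = max K 0 * |η l| := by ring
  calc κ ^ 2 * fpsi c0 (c j) (η j) ≤ (c j - c0) ^ 2 * |η j * (c j * η j ^ 2 - c0)| :=
        mul_le_mul_of_nonneg_right h2 (abs_nonneg _)
    _ = |(c j - c0) ^ 2 * (η j * (c j * η j ^ 2 - c0))| := by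
        rw [abs_mul ((c j - c0) ^ 2), abs_of_nonneg (sq_nonneg (c j - c0))]
    _ ≤ |η j * fL c0 c η (c j)| + |η j * (η l ^ 2 * R (η j ^ 2, η l ^ 2))| := by
        rw [h1]
        exact abs_sub _ _
    _ ≤ _ := by linarith

/-- products of the factors -/
lemma prod_psi_le (hG : Good κ M c0 c) {η : Fin N → ℝ} (hη : ∀ k, |η k| ≤ 1) (s : Finset (Fin N)) :
    ∏ k ∈ s, fpsi c0 (c k) (η k) ≤ (2 * M) ^ N := by
  have hm := hG.m1
  calc ∏ k ∈ s, fpsi c0 (c k) (η k) ≤ ∏ _k ∈ s, (2 * M) := by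
        refine prod_le_prod (fun k _ => psi_nonneg _ _ _) fun k _ => ?_
        refine (psi_le hG k (hη k)).trans ?_
        have := hη k
        nlinarith [abs_nonneg (η k)]
    _ = (2 * M) ^ s.card := by rw [prod_const]
    _ ≤ (2 * M) ^ N := by
        refine pow_le_pow_right₀ (by linarith) ?_
        exact (card_le_univ s).trans (by simp)

lemma prod_psi_le_one (hG : Good κ M c0 c) {η : Fin N → ℝ} (hη : ∀ k, |η k| ≤ 1)
    (s : Finset (Fin N)) (j : Fin N) (hj : j ∈ s) :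
    ∏ k ∈ s, fpsi c0 (c k) (η k) ≤ (2 * M) ^ N * fpsi c0 (c j) (η j) := by
  rw [← Finset.mul_prod_erase s _ hj, mul_comm]
  exact mul_le_mul_of_nonneg_right (prod_psi_le hG hη _) (psi_nonneg _ _ _)

lemma prod_psi_le_pow (hG : Good κ M c0 c) {η : Fin N → ℝ} (hη : ∀ k, |η k| ≤ 1)
    (s : Finset (Fin N)) :
    ∏ k ∈ s, fpsi c0 (c k) (η k) ≤ (2 * M) ^ N * ‖η‖ ^ s.card := by
  have hm := hG.m1
  calc ∏ k ∈ s, fpsi c0 (c k) (η k) ≤ ∏ _k ∈ s, (2 * M * ‖η‖) := by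
        refine prod_le_prod (fun k _ => psi_nonneg _ _ _) fun k _ => ?_
        refine (psi_le hG k (hη k)).trans ?_
        have : |η k| ≤ ‖η‖ := norm_le_pi_norm η k
        gcongr
    _ = (2 * M) ^ s.card * ‖η‖ ^ s.card := by rw [prod_const, mul_pow]
    _ ≤ (2 * M) ^ N * ‖η‖ ^ s.card := by
        refine mul_le_mul_of_nonneg_right ?_ (by positivity)
        refine pow_le_pow_right₀ (by linarith) ?_
        exact (card_le_univ s).trans (by simp)

lemma norm_le_D (hN : 0 < N) {ε : ℝ} {η : Fin N → ℝ}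
    (h : ∀ j, ε ≤ |fL c0 c η (c j)|) : ε * ‖η‖ ≤ fD c0 c η := by
  have : Nonempty (Fin N) := ⟨⟨0, hN⟩⟩
  obtain ⟨j, hj⟩ := Finite.exists_max fun j => ‖η j‖
  have h1 : ‖η‖ ≤ ‖η j‖ := (pi_norm_le_iff_of_nonneg (norm_nonneg _)).2 hj
  calc ε * ‖η‖ ≤ |fL c0 c η (c j)| * ‖η j‖ := by
        have := h j
        gcongr
    _ = |η j * fL c0 c η (c j)| := by rw [abs_mul, Real.norm_eq_abs, mul_comm]
    _ ≤ fD c0 c η := by
        unfold fD
        exact single_le_sum (f := fun j => |η j * fL c0 c η (c j)|) (fun _ _ => abs_nonneg _)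
          (mem_univ j)

/-- **The lower bound of the gradient.** -/
theorem lower (hN : 2 ≤ N) (hG : Good κ M c0 c) : ∃ b : ℝ, 0 < b ∧ ∀ η : Fin N → ℝ,
    (∀ k, |η k| ≤ 1) → ∀ l, b * ∏ k ∈ univ.erase l, fpsi c0 (c k) (η k) ≤
      fD c0 c η * ‖η‖ ^ (N - 2) := by
  classical
  obtain ⟨δ, hδ0, hδ1, hδ⟩ := near_zero hG
  have hk := hG.k0
  have hm := hG.m1
  set ε := min (κ ^ 5 / (2 * M ^ 2)) (κ ^ 3 / 2) with hε
  have hε0 : 0 < ε := lt_min (by positivity) (by positivity)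
  set Q := (2 * M) ^ N with hQ
  have hQ0 : 0 < Q := by positivity
  -- constants for two coordinates
  have hK : ∃ K : ℝ, 0 ≤ K ∧ ∀ l j : Fin N, l ≠ j → (∀ k, k ≠ l → k = j) →
      ∀ η : Fin N → ℝ, (∀ k, |η k| ≤ 1) →
      κ ^ 2 * fpsi c0 (c j) (η j) ≤ |η j * fL c0 c η (c j)| + K * |η l| := by
    have h1 : ∀ p : Fin N × Fin N, ∃ K : ℝ, 0 ≤ K ∧ (p.1 ≠ p.2 → (∀ k, k ≠ p.1 → k = p.2) →
      ∀ η : Fin N → ℝ, (∀ k, |η k| ≤ 1) →
      κ ^ 2 * fpsi c0 (c p.2) (η p.2) ≤ |η p.2 * fL c0 c η (c p.2)| + K * |η p.1|) := by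
      intro p
      by_cases h : p.1 ≠ p.2 ∧ ∀ k, k ≠ p.1 → k = p.2
      · obtain ⟨K, hK0, hK⟩ := two_coord hG p.1 p.2 h.1 h.2
        exact ⟨K, hK0, fun _ _ => hK⟩
      · exact ⟨0, le_rfl, fun h1 h2 => absurd ⟨h1, h2⟩ h⟩
    choose K hK0 hK using h1
    refine ⟨∑ p, K p, sum_nonneg fun _ _ => hK0 _, fun l j hlj hk η hη => ?_⟩
    refine (hK (l, j) hlj hk η hη).trans ?_
    have h2 : K (l, j) ≤ ∑ p, K p := single_le_sum (f := K) (fun _ _ => hK0 _) (mem_univ _)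
    have := abs_nonneg (η l)
    simp only
    nlinarith
  obtain ⟨K, hK0, hK⟩ := hK
  -- the constant
  set b := min (ε / Q) (min (δ ^ (N - 2) * ε / (Q * (2 * M)))
    (δ ^ (N - 2) * κ ^ 2 / (Q * (1 + K / ε)))) with hb
  have hb0 : 0 < b := by
    refine lt_min (by positivity) (lt_min (by positivity) (by positivity))
  refine ⟨b, hb0, fun η hη l => ?_⟩
  have hD0 : 0 ≤ fD c0 c η := sum_nonneg fun _ _ => abs_nonneg _
  have hP0 : 0 ≤ ∏ k ∈ univ.erase l, fpsi c0 (c k) (η k) :=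
    prod_nonneg fun _ _ => psi_nonneg _ _ _
  by_cases hA : ∀ j, ε ≤ |fL c0 c η (c j)|
  · -- all values are large
    have h1 := norm_le_D (c0 := c0) (c := c) (by omega) hA
    have h2 := prod_psi_le_pow hG hη (univ.erase l)
    rw [card_erase_of_mem (mem_univ l), card_univ, Fintype.card_fin, ← hQ] at h2
    have e1 : ‖η‖ ^ (N - 1) = ‖η‖ * ‖η‖ ^ (N - 2) := by
      rw [← pow_succ']
      congr 1
      omega
    calc b * ∏ k ∈ univ.erase l, fpsi c0 (c k) (η k)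
        ≤ (ε / Q) * (Q * ‖η‖ ^ (N - 1)) :=
          mul_le_mul (min_le_left _ _) h2 hP0 (by positivity)
      _ = (ε * ‖η‖) * ‖η‖ ^ (N - 2) := by rw [e1]; field_simp
      _ ≤ fD c0 c η * ‖η‖ ^ (N - 2) := by gcongr
  push Not at hA
  obtain ⟨j, hj⟩ := hA
  have hs : δ ≤ ‖η‖ := by
    by_contra hc
    push Not at hc
    have := hδ η hc j
    have : ε ≤ κ ^ 3 / 2 := min_le_right _ _
    linarith
  have hs2 : δ ^ (N - 2) ≤ ‖η‖ ^ (N - 2) := pow_le_pow_left₀ hδ0.le hs _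
  -- it is enough to bound by `D`
  suffices hsuf : b * ∏ k ∈ univ.erase l, fpsi c0 (c k) (η k) ≤ δ ^ (N - 2) * fD c0 c η by
    calc _ ≤ δ ^ (N - 2) * fD c0 c η := hsuf
      _ ≤ ‖η‖ ^ (N - 2) * fD c0 c η := by gcongr
      _ = _ := mul_comm _ _
  have hone : ∀ k, k ≠ l → ε * |η k| ≤ fD c0 c η →
      b * ∏ k ∈ univ.erase l, fpsi c0 (c k) (η k) ≤ δ ^ (N - 2) * fD c0 c η := by
    intro k hkl hkD
    have h1 := prod_psi_le_one hG hη (univ.erase l) k (mem_erase.2 ⟨hkl, mem_univ _⟩)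
    have h2 := psi_le hG k (hη k)
    calc b * ∏ k ∈ univ.erase l, fpsi c0 (c k) (η k)
        ≤ (δ ^ (N - 2) * ε / (Q * (2 * M))) * (Q * (2 * M * |η k|)) := by
          refine mul_le_mul ((min_le_right _ _).trans (min_le_left _ _)) (h1.trans ?_) hP0
            (by positivity)
          gcongr
      _ = δ ^ (N - 2) * (ε * |η k|) := by field_simp
      _ ≤ _ := by gcongr
  -- another index
  have hother : ∃ k, k ≠ l := by
    have : Nontrivial (Fin N) := Fin.nontrivial_iff_two_le.2 hN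
    exact exists_ne l
  by_cases hB : ε ≤ fD c0 c η
  · obtain ⟨k, hkl⟩ := hother
    refine hone k hkl ?_
    have := hη k
    nlinarith [abs_nonneg (η k)]
  push Not at hB
  have hbig : ∀ k, k ≠ j → ε ≤ |fL c0 c η (c k)| := by
    intro k hkj
    by_contra hc
    push Not at hc
    have e1 : ε ≤ κ ^ 5 / (2 * M ^ 2) := min_le_left _ _
    exact three hG η k j hkj (((L0_le hη).trans_lt hB).trans_le e1) (hc.trans_le e1)
      (hj.trans_le e1)
  have hsm : ∀ k, k ≠ j → ε * |η k| ≤ fD c0 c η := by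
    intro k hkj
    calc ε * |η k| ≤ |fL c0 c η (c k)| * |η k| := by
          have := hbig k hkj
          gcongr
      _ = |η k * fL c0 c η (c k)| := by rw [abs_mul, mul_comm]
      _ ≤ fD c0 c η := by
          unfold fD
          exact single_le_sum (f := fun j => |η j * fL c0 c η (c j)|) (fun _ _ => abs_nonneg _)
            (mem_univ k)
  by_cases hC : ∃ k, k ≠ l ∧ k ≠ j
  · obtain ⟨k, hkl, hkj⟩ := hC
    exact hone k hkl (hsm k hkj)
  push Not at hC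
  have hlj : l ≠ j := by
    intro h
    obtain ⟨k, hkl⟩ := hother
    exact (hkl ((hC k hkl).trans h.symm))
  have h1 := hK l j hlj hC η hη
  have h2 : |η j * fL c0 c η (c j)| ≤ fD c0 c η := by
    unfold fD
    exact single_le_sum (f := fun j => |η j * fL c0 c η (c j)|) (fun _ _ => abs_nonneg _)
      (mem_univ j)
  have h3 : K * |η l| ≤ K / ε * fD c0 c η := by
    have := hsm l hlj
    calc K * |η l| = K / ε * (ε * |η l|) := by field_simp
      _ ≤ _ := by gcongr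
  have h4 : κ ^ 2 * fpsi c0 (c j) (η j) ≤ (1 + K / ε) * fD c0 c η := by linarith
  have h5 := prod_psi_le_one hG hη (univ.erase l) j (mem_erase.2 ⟨hlj.symm, mem_univ _⟩)
  calc b * ∏ k ∈ univ.erase l, fpsi c0 (c k) (η k)
      ≤ (δ ^ (N - 2) * κ ^ 2 / (Q * (1 + K / ε))) * (Q * fpsi c0 (c j) (η j)) := by
        refine mul_le_mul ((min_le_right _ _).trans (min_le_right _ _)) h5 hP0
          (by positivity)
    _ = δ ^ (N - 2) / (1 + K / ε) * (κ ^ 2 * fpsi c0 (c j) (η j)) := by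
        have : 1 + K / ε ≠ 0 := by positivity
        field_simp
    _ ≤ δ ^ (N - 2) / (1 + K / ε) * ((1 + K / ε) * fD c0 c η) := by gcongr
    _ = _ := by
        have : 1 + K / ε ≠ 0 := by positivity
        field_simp

end Pool.Agent.P8H20.EL
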