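import Pool.Agent.P8H20.EL.Psi

set_option autoImplicit false

/-! The distribution of the angle. -/

namespace Pool.Agent.P8H20.EL

open MeasureTheory Set
open scoped ENNReal

variable {N : ℕ} {κ M c0 : ℝ} {c : Fin (N + 1) → ℝ}

lemma psi_pos_fin (c0 t : ℝ) (ht : t ≠ 0) : ∃ F : Set ℝ, F.Finite ∧ ∀ s ∉ F,
    0 < fpsi c0 t s := by
  refine ⟨{0, Real.sqrt (c0 / t), -Real.sqrt (c0 / t)}, Set.toFinite _, fun s hs => ?_⟩
  simp only [mem_insert_iff, mem_singleton_iff, not_or] at hs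
  unfold fpsi
  rw [abs_pos]
  refine mul_ne_zero hs.1 fun h => ?_
  have h1 : s ^ 2 = c0 / t := by
    field_simp
    linarith
  have h2 : |s| = Real.sqrt (c0 / t) := by rw [← h1, Real.sqrt_sq_eq_abs]
  rcases abs_choice s with h3 | h3
  · exact hs.2.1 (by rw [← h2, h3])
  · exact hs.2.2 (by rw [← h2, h3, neg_neg])

lemma ae_psi_pos {m : ℕ} (c0 : ℝ) (c : Fin m → ℝ) (hc : ∀ l, c l ≠ 0) :
    ∀ᵐ η : Fin m → ℝ, ∀ k, 0 < fpsi c0 (c k) (η k) := by
  rw [ae_all_iff]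
  intro k
  obtain ⟨F, hF, h⟩ := psi_pos_fin c0 (c k) (hc k)
  have h1 : ∀ᵐ η : Fin m → ℝ, ∀ v ∈ F, η k ≠ v := by
    rw [ae_ball_iff hF.countable]
    intro v _
    rw [volume_pi]
    exact Measure.ae_eval_ne (fun _ : Fin m => (volume : Measure ℝ)) k v
  filter_upwards [h1] with η hη
  exact h _ fun hm => hη _ hm rfl

/-- the weight -/
noncomputable def wt (N : ℕ) (x : ℝ) : ℝ := (1 - x ^ 2) ^ (((N : ℝ) - 1) / 2)

lemma wt_nonneg (N : ℕ) {x : ℝ} (hx : x ∈ Ioo (-1 : ℝ) 1) : 0 ≤ wt N x := by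
  unfold wt
  apply Real.rpow_nonneg
  nlinarith [hx.1, hx.2]

lemma one_sub_fx (hG : Good κ M c0 c) {η : Fin (N + 1) → ℝ} (hη : ∀ k, |η k| ≤ 1) :
    κ ^ 2 / (((N + 1 : ℕ) + 1) * (M ^ 2 * ((N + 1 : ℕ) + 1))) * ‖η‖ ^ 2 ≤
      1 - fx c0 c η ^ 2 := by
  have hpos := AS_pos hG η
  have hk := hG.k0
  have hm := hG.m1
  have hgr := gram_ge hG η
  have hA := fA_le hη
  have hS := fS_le hG hη
  have hA1 := fA_ge η
  have hS1 := fS_ge hG η
  have hn : ‖η‖ ^ 2 ≤ ∑ l, η l ^ 2 := by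
    obtain ⟨j, hj⟩ := Finite.exists_max fun j => ‖η j‖
    have h1 : ‖η‖ ≤ ‖η j‖ := (pi_norm_le_iff_of_nonneg (norm_nonneg _)).2 hj
    calc ‖η‖ ^ 2 ≤ ‖η j‖ ^ 2 := pow_le_pow_left₀ (norm_nonneg _) h1 2
      _ = η j ^ 2 := by rw [Real.norm_eq_abs, sq_abs]
      _ ≤ _ := Finset.single_le_sum (f := fun l => η l ^ 2) (fun _ _ => sq_nonneg _)
        (Finset.mem_univ j)
  have e : 1 - fx c0 c η ^ 2 = (fA η * fS c0 c η - fP c0 c η ^ 2) / (fA η * fS c0 c η) := by
    unfold fx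
    rw [div_pow, Real.sq_sqrt hpos.le, sub_div, div_self hpos.ne']
  rw [e, le_div_iff₀ hpos]
  have hAS : fA η * fS c0 c η ≤ ((N + 1 : ℕ) + 1) * (M ^ 2 * ((N + 1 : ℕ) + 1)) := by
    have := hpos
    have h0 : 0 ≤ fS c0 c η := le_trans (by positivity) hS1
    gcongr
  set Q : ℝ := ((N + 1 : ℕ) + 1) * (M ^ 2 * ((N + 1 : ℕ) + 1)) with hQ
  have hQ0 : 0 < Q := by positivity
  calc κ ^ 2 / Q * ‖η‖ ^ 2 * (fA η * fS c0 c η) ≤ κ ^ 2 / Q * ‖η‖ ^ 2 * Q := by gcongr
    _ = κ ^ 2 * ‖η‖ ^ 2 := by field_simp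
    _ ≤ κ ^ 2 * ∑ l, η l ^ 2 := by gcongr
    _ ≤ _ := hgr

/-- the product of the factors -/
noncomputable def Psi (c0 : ℝ) (c : Fin (N + 1) → ℝ) (l : Fin (N + 1)) (η : Fin (N + 1) → ℝ) : ℝ :=
  ∏ k ∈ Finset.univ.erase l, fpsi c0 (c k) (η k)

/-- **the pointwise inequality** -/
lemma pointwise (hN : 1 ≤ N) (hG : Good κ M c0 c) : ∃ C : ℝ, 0 < C ∧ ∀ η : Fin (N + 1) → ℝ,
    (∀ k, |η k| ≤ 1) → ∃ l, Psi c0 c l η ≤
      C * (wt N (fx c0 c η) * |η l * fL c0 c η (c l) * rho c0 c η|) := by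
  obtain ⟨b, hb, hlow⟩ := lower (by omega) hG
  have hk := hG.k0
  have hm := hG.m1
  set Q : ℝ := ((N + 1 : ℕ) + 1) * (M ^ 2 * ((N + 1 : ℕ) + 1)) with hQ
  have hQ0 : 0 < Q := by positivity
  set r : ℝ := 1 / (Q * Real.sqrt Q) with hr
  have hr0 : 0 < r := by positivity
  set v : ℝ := (κ ^ 2 / Q) ^ (((N : ℝ) - 1) / 2) with hv
  have hv0 : 0 < v := by positivity
  refine ⟨(N + 1) / (b * r * v), by positivity, fun η hη => ?_⟩
  obtain ⟨l, hl⟩ := Finite.exists_max fun j => |η j * fL c0 c η (c j)|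
  refine ⟨l, ?_⟩
  have hpos := AS_pos hG η
  have hA := fA_le hη
  have hS := fS_le hG hη
  have hA1 := fA_ge η
  have hS1 := fS_ge hG η
  have hAS : fA η * fS c0 c η ≤ Q := by
    have h0 : 0 ≤ fS c0 c η := le_trans (by positivity) hS1
    rw [hQ]
    gcongr
  have hrho : r ≤ rho c0 c η := by
    unfold rho
    rw [hr]
    have : Real.sqrt (fA η * fS c0 c η) ≤ Real.sqrt Q := Real.sqrt_le_sqrt hAS
    apply one_div_le_one_div_of_le
    · positivity
    · gcongr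
  have hD : fD c0 c η ≤ (N + 1) * |η l * fL c0 c η (c l)| := by
    unfold fD
    refine (Finset.sum_le_card_nsmul _ _ _ fun k _ => hl k).trans (le_of_eq ?_)
    rw [Finset.card_univ, Fintype.card_fin, nsmul_eq_mul]
    push_cast
    ring
  have hw : v * ‖η‖ ^ (N - 1) ≤ wt N (fx c0 c η) := by
    have h1 := one_sub_fx hG hη
    rw [← hQ] at h1
    have hexp : 0 ≤ ((N : ℝ) - 1) / 2 := by
      have : (1 : ℝ) ≤ N := by exact_mod_cast hN
      linarith
    have e1 : ‖η‖ ^ (N - 1) = (‖η‖ ^ 2) ^ (((N : ℝ) - 1) / 2) := by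
      rw [← Real.rpow_natCast, ← Real.rpow_natCast, ← Real.rpow_mul (norm_nonneg _)]
      congr 1
      rw [Nat.cast_sub hN]
      push_cast
      ring
    rw [hv, e1, ← Real.mul_rpow (by positivity) (by positivity)]
    unfold wt
    exact Real.rpow_le_rpow (by positivity) h1 hexp
  have h1 := hlow η hη l
  have hN1 : N + 1 - 2 = N - 1 := by omega
  rw [hN1] at h1
  have hw0 : 0 ≤ wt N (fx c0 c η) := le_trans (by positivity) hw
  have hm0 := abs_nonneg (η l * fL c0 c η (c l))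
  have hrp := rho_pos hG η
  rw [abs_mul, abs_of_pos hrp]
  unfold Psi
  calc ∏ k ∈ Finset.univ.erase l, fpsi c0 (c k) (η k)
      = 1 / b * (b * ∏ k ∈ Finset.univ.erase l, fpsi c0 (c k) (η k)) := by field_simp
    _ ≤ 1 / b * (fD c0 c η * ‖η‖ ^ (N - 1)) := by gcongr
    _ ≤ 1 / b * (((N + 1) * |η l * fL c0 c η (c l)|) * ‖η‖ ^ (N - 1)) := by gcongr
    _ = (N + 1) / (b * r * v) * ((v * ‖η‖ ^ (N - 1)) * (|η l * fL c0 c η (c l)| * r)) := by
        field_simp
    _ ≤ _ := by gcongr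

lemma erase_prod (l : Fin (N + 1)) (f : Fin (N + 1) → ℝ) :
    ∏ k ∈ Finset.univ.erase l, f k = ∏ k, f (l.succAbove k) := by
  rw [Fin.univ_succAbove N l, Finset.erase_cons, Finset.prod_map]
  rfl

lemma Psi_ins (l : Fin (N + 1)) (s : ℝ) (η : Fin N → ℝ) :
    Psi c0 c l (l.insertNth s η) = ∏ k, fpsi c0 (c (l.succAbove k)) (η k) := by
  unfold Psi
  rw [erase_prod]
  simp only [Fin.insertNth_apply_succAbove]

/-- the integral of the factors -/
lemma J_fin (c0 : ℝ) (hc0 : c0 ≠ 0) (c' : Fin N → ℝ) (hc : ∀ l, c' l ≠ 0) (a : ℝ) (ha0 : 0 < a)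
    (ha : a < 1) :
    ∫⁻ η in Icc (-1 : Fin N → ℝ) 1, ENNReal.ofReal ((∏ k, fpsi c0 (c' k) (η k)) ^ (-a)) < ⊤ := by
  have h1 : Integrable (fun x : Fin N → ℝ =>
      ∏ j, (Icc (-1 : ℝ) 1).indicator (fun y => fpsi c0 (c' j) y ^ (-a)) (x j)) := by
    rw [volume_pi]
    exact Integrable.fintype_prod (fun j => (integrable_indicator_iff measurableSet_Icc).2
      (psi_int c0 (c' j) hc0 (hc j) a ha0 ha))
  refine lt_of_le_of_lt ?_ h1.hasFiniteIntegral
  refine le_trans ?_ (setLIntegral_le_lintegral (Icc (-1 : Fin N → ℝ) 1) _)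
  apply setLIntegral_mono' measurableSet_Icc
  intro h hh
  rw [← ofReal_norm]
  apply ENNReal.ofReal_le_ofReal
  refine le_trans (le_of_eq ?_) (le_abs_self _)
  rw [← Real.finsetProd_rpow _ _ (fun i _ => psi_nonneg _ _ _)]
  apply Finset.prod_congr rfl
  intro j _
  rw [indicator_of_mem (show h j ∈ Icc (-1 : ℝ) 1 from ⟨hh.1 j, hh.2 j⟩)]

lemma meas_fx (c0 : ℝ) {m : ℕ} (c : Fin m → ℝ) : Measurable fun η : Fin m → ℝ => fx c0 c η := by
  unfold fx fP fA fS
  fun_prop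

lemma meas_fL (c0 : ℝ) {m : ℕ} (c : Fin m → ℝ) (t : ℝ) :
    Measurable fun η : Fin m → ℝ => fL c0 c η t := (cont_fL c0 c t).measurable

lemma meas_rho (c0 : ℝ) (c : Fin (N + 1) → ℝ) : Measurable fun η : Fin (N + 1) → ℝ =>
    rho c0 c η := by
  unfold rho fA fS
  fun_prop

/-- splitting off a coordinate -/
lemma split (l : Fin (N + 1)) (F : (Fin (N + 1) → ℝ) → ℝ≥0∞) (hF : Measurable F) :
    ∫⁻ η in Icc (-1 : Fin (N + 1) → ℝ) 1, F η =
      ∫⁻ η in Icc (-1 : Fin N → ℝ) 1, ∫⁻ s in Icc (-1 : ℝ) 1, F (l.insertNth s η) := by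
  have hmp := (volume_preserving_piFinSuccAbove (fun _ : Fin (N + 1) => ℝ) l).symm
  have h1 := hmp.lintegral_comp (hF.indicator (measurableSet_Icc (a := (-1 : Fin (N + 1) → ℝ))
    (b := 1)))
  have hm' : Measurable fun a : ℝ × (Fin N → ℝ) => (Icc (-1 : Fin (N + 1) → ℝ) 1).indicator F
      ((MeasurableEquiv.piFinSuccAbove (fun _ : Fin (N + 1) => ℝ) l).symm a) :=
    (hF.indicator measurableSet_Icc).comp hmp.measurable
  rw [← lintegral_indicator measurableSet_Icc, ← h1, Measure.volume_eq_prod,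
    lintegral_prod_symm _ hm'.aemeasurable, ← lintegral_indicator measurableSet_Icc]
  refine lintegral_congr fun η => ?_
  have he : ∀ s : ℝ, (MeasurableEquiv.piFinSuccAbove (fun _ : Fin (N + 1) => ℝ) l).symm (s, η) =
      l.insertNth s η := fun s => rfl
  simp only [he]
  by_cases hη : η ∈ Icc (-1 : Fin N → ℝ) 1
  · rw [indicator_of_mem hη, ← lintegral_indicator measurableSet_Icc]
    refine lintegral_congr fun s => ?_
    by_cases hs : s ∈ Icc (-1 : ℝ) 1
    · have hm : (l.insertNth s η : Fin (N + 1) → ℝ) ∈ Icc (-1 : Fin (N + 1) → ℝ) 1 := by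
        constructor
        · intro k
          refine Fin.succAboveCases l ?_ (fun k => ?_) k
          · simpa using hs.1
          · simpa using hη.1 k
        · intro k
          refine Fin.succAboveCases l ?_ (fun k => ?_) k
          · simpa using hs.2
          · simpa using hη.2 k
      rw [indicator_of_mem hs, indicator_of_mem hm]
    · rw [indicator_of_notMem hs, indicator_of_notMem]
      intro hm
      apply hs
      have h1 := hm.1 l
      have h2 := hm.2 l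
      simp only [Fin.insertNth_apply_same, Pi.neg_apply, Pi.one_apply] at h1 h2
      exact ⟨h1, h2⟩
  · rw [indicator_of_notMem hη]
    rw [lintegral_eq_zero_iff' (by
      exact ((hF.indicator measurableSet_Icc).comp (hmp.measurable.comp
        measurable_prodMk_right)).aemeasurable)]
    refine ae_of_all _ fun s => ?_
    show indicator _ _ _ = 0
    rw [indicator_of_notMem]
    intro hm
    apply hη
    constructor
    · intro k
      have h1 := hm.1 (l.succAbove k)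
      simpa only [Fin.insertNth_apply_succAbove, Pi.neg_apply, Pi.one_apply] using h1
    · intro k
      have h1 := hm.2 (l.succAbove k)
      simpa only [Fin.insertNth_apply_succAbove, Pi.neg_apply, Pi.one_apply] using h1

end Pool.Agent.P8H20.EL
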