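import Pool.Agent.P8H20.EL.LemS

set_option autoImplicit false

/-! The distribution of the angle: the integral inequality. -/

namespace Pool.Agent.P8H20.EL

open MeasureTheory Set
open scoped ENNReal

variable {N : ℕ} {κ M c0 : ℝ} {c : Fin (N + 1) → ℝ}

lemma good_ne (hG : Good κ M c0 c) : c0 ≠ 0 ∧ ∀ l, c l ≠ 0 := by
  have hk := hG.k0
  refine ⟨fun h => ?_, fun l h => ?_⟩
  · have := hG.c0k
    rw [h, abs_zero] at this
    linarith
  · have := hG.ck l
    rw [h, abs_zero] at this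
    linarith

/-- the term of the coordinate `l` -/
noncomputable def Tl (c0 : ℝ) (c : Fin (N + 1) → ℝ) (G : ℝ → ℝ≥0∞) (l : Fin (N + 1))
    (η : Fin (N + 1) → ℝ) : ℝ≥0∞ :=
  ENNReal.ofReal |η l * fL c0 c η (c l) * rho c0 c η| *
    (G (fx c0 c η) * ENNReal.ofReal (wt N (fx c0 c η)))

lemma wt_meas (N : ℕ) : Measurable (wt N) := by
  unfold wt
  fun_prop

lemma Tl_meas {G : ℝ → ℝ≥0∞} (hGm : Measurable G) (l : Fin (N + 1)) :
    Measurable (Tl c0 c G l) := by
  unfold Tl
  have h1 := meas_fx c0 c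
  have h2 := meas_fL c0 c (c l)
  have h3 := meas_rho c0 c
  have h4 : Measurable fun η : Fin (N + 1) → ℝ => |η l * fL c0 c η (c l) * rho c0 c η| :=
    ((((measurable_pi_apply l).mul h2).mul h3).norm)
  exact h4.ennreal_ofReal.mul ((hGm.comp h1).mul ((wt_meas N).comp h1).ennreal_ofReal)

/-- **The distribution of the angle between `h` and `C h`.** -/
theorem lemS (hN : 1 ≤ N) (hG : Good κ M c0 c) (a : ℝ) (ha0 : 0 < a) (ha : a < 1) :
    ∃ C : ℝ≥0∞, C ≠ ⊤ ∧ ∀ G : ℝ → ℝ≥0∞, Measurable G → (∀ x, G x ≤ 1) →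
      ∫⁻ η in Icc (-1 : Fin (N + 1) → ℝ) 1, G (fx c0 c η) ≤
        C * (∫⁻ x in Ioo (-1 : ℝ) 1, G x * ENNReal.ofReal (wt N x)) ^ a := by
  obtain ⟨C1, hC1, hpt⟩ := pointwise hN hG
  obtain ⟨hc0, hc⟩ := good_ne hG
  set J : Fin (N + 1) → ℝ≥0∞ := fun l => ∫⁻ η in Icc (-1 : Fin N → ℝ) 1,
    ENNReal.ofReal ((∏ k, fpsi c0 (c (l.succAbove k)) (η k)) ^ (-a)) with hJ
  have hJf : ∀ l, J l < ⊤ := fun l => J_fin c0 hc0 _ (fun k => hc _) a ha0 ha
  refine ⟨∑ l, ENNReal.ofReal C1 ^ a * (J l * (4 ^ a * 2 ^ (1 - a))), ?_, ?_⟩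
  · refine (ENNReal.sum_lt_top.2 fun l _ => ?_).ne
    refine ENNReal.mul_lt_top (ENNReal.rpow_lt_top_of_nonneg ha0.le ENNReal.ofReal_ne_top)
      (ENNReal.mul_lt_top (hJf l) (ENNReal.mul_lt_top
        (ENNReal.rpow_lt_top_of_nonneg ha0.le (by norm_num))
        (ENNReal.rpow_lt_top_of_nonneg (by linarith) (by norm_num))))
  intro G hGm hG1
  -- pointwise
  have h1 : ∀ᵐ η ∂(volume.restrict (Icc (-1 : Fin (N + 1) → ℝ) 1)),
      G (fx c0 c η) ≤ ∑ l, ENNReal.ofReal C1 ^ a *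
        (ENNReal.ofReal ((Psi c0 c l η) ^ (-a)) * Tl c0 c G l η ^ a) := by
    rw [ae_restrict_iff' measurableSet_Icc]
    filter_upwards [ae_psi_pos c0 c hc] with η hη hm
    have habs : ∀ k, |η k| ≤ 1 := fun k => abs_le.2 ⟨hm.1 k, hm.2 k⟩
    obtain ⟨l, hl⟩ := hpt η habs
    have hP : 0 < Psi c0 c l η := Finset.prod_pos fun k _ => hη k
    have hPe : ENNReal.ofReal (Psi c0 c l η) ≠ 0 := by
      rw [Ne, ENNReal.ofReal_eq_zero, not_le]
      exact hP
    set g := G (fx c0 c η) with hg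
    have e1 : g * ENNReal.ofReal (Psi c0 c l η) ≤ ENNReal.ofReal C1 * Tl c0 c G l η := by
      have h2 := ENNReal.ofReal_le_ofReal hl
      have hw0 : 0 ≤ wt N (fx c0 c η) := by
        by_contra hneg
        push Not at hneg
        have : C1 * (wt N (fx c0 c η) * |η l * fL c0 c η (c l) * rho c0 c η|) ≤ 0 := by
          have := abs_nonneg (η l * fL c0 c η (c l) * rho c0 c η)
          have := mul_nonpos_of_nonpos_of_nonneg hneg.le this
          exact mul_nonpos_of_nonneg_of_nonpos hC1.le this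
        linarith
      rw [ENNReal.ofReal_mul hC1.le, ENNReal.ofReal_mul hw0] at h2
      calc g * ENNReal.ofReal (Psi c0 c l η)
          ≤ g * (ENNReal.ofReal C1 * (ENNReal.ofReal (wt N (fx c0 c η)) *
            ENNReal.ofReal |η l * fL c0 c η (c l) * rho c0 c η|)) := by gcongr
        _ = ENNReal.ofReal C1 * Tl c0 c G l η := by
            unfold Tl
            rw [← hg]
            ring
    have e2 : g ≤ ENNReal.ofReal C1 * Tl c0 c G l η * (ENNReal.ofReal (Psi c0 c l η))⁻¹ := by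
      rw [← div_eq_mul_inv, ENNReal.le_div_iff_mul_le (Or.inl hPe)
        (Or.inl ENNReal.ofReal_ne_top)]
      exact e1
    have e3 : g ≤ g ^ a := by
      calc g = g ^ (1 : ℝ) := (ENNReal.rpow_one g).symm
        _ ≤ g ^ a := ENNReal.rpow_le_rpow_of_exponent_ge (hG1 _) ha.le
    calc g ≤ g ^ a := e3
      _ ≤ (ENNReal.ofReal C1 * Tl c0 c G l η * (ENNReal.ofReal (Psi c0 c l η))⁻¹) ^ a :=
        ENNReal.rpow_le_rpow e2 ha0.le
      _ = ENNReal.ofReal C1 ^ a *
        (ENNReal.ofReal ((Psi c0 c l η) ^ (-a)) * Tl c0 c G l η ^ a) := by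
          rw [ENNReal.mul_rpow_of_nonneg _ _ ha0.le, ENNReal.mul_rpow_of_nonneg _ _ ha0.le,
            ← ENNReal.rpow_neg_one, ← ENNReal.rpow_mul, neg_one_mul,
            ENNReal.ofReal_rpow_of_pos hP]
          ring
      _ ≤ _ := Finset.single_le_sum (f := fun l => ENNReal.ofReal C1 ^ a *
        (ENNReal.ofReal ((Psi c0 c l η) ^ (-a)) * Tl c0 c G l η ^ a)) (fun _ _ => zero_le)
          (Finset.mem_univ l)
  have hPm : ∀ l, Measurable fun η : Fin (N + 1) → ℝ => ENNReal.ofReal ((Psi c0 c l η) ^ (-a)) := by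
    intro l
    have : Measurable fun η : Fin (N + 1) → ℝ => Psi c0 c l η := by
      unfold Psi
      exact Finset.measurable_prod _ fun k _ => (psi_meas c0 (c k)).comp (measurable_pi_apply k)
    exact (this.pow_const _).ennreal_ofReal
  have hFm : ∀ l, Measurable fun η : Fin (N + 1) → ℝ =>
      ENNReal.ofReal ((Psi c0 c l η) ^ (-a)) * Tl c0 c G l η ^ a :=
    fun l => (hPm l).mul ((Tl_meas hGm l).pow_const a)
  have hFm2 : ∀ l, Measurable fun η : Fin (N + 1) → ℝ => ENNReal.ofReal C1 ^ a *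
      (ENNReal.ofReal ((Psi c0 c l η) ^ (-a)) * Tl c0 c G l η ^ a) :=
    fun l => (hFm l).const_mul _
  refine (lintegral_mono_ae h1).trans ?_
  rw [lintegral_finsetSum _ fun l _ => hFm2 l, Finset.sum_mul]
  refine Finset.sum_le_sum fun l _ => ?_
  rw [lintegral_const_mul _ (hFm l), mul_assoc]
  refine mul_le_mul_right ?_ _
  rw [split l _ (hFm l)]
  set X := ∫⁻ x in Ioo (-1 : ℝ) 1, G x * ENNReal.ofReal (wt N x) with hX
  have h2 : ∀ η : Fin N → ℝ, ∫⁻ s in Icc (-1 : ℝ) 1,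
      ENNReal.ofReal ((Psi c0 c l (l.insertNth s η)) ^ (-a)) * Tl c0 c G l (l.insertNth s η) ^ a ≤
      ENNReal.ofReal ((∏ k, fpsi c0 (c (l.succAbove k)) (η k)) ^ (-a)) *
        (4 ^ a * 2 ^ (1 - a) * X ^ a) := by
    intro η
    simp only [Psi_ins]
    have hTm : Measurable fun s : ℝ => Tl c0 c G l (l.insertNth s η) := by
      have hins : Measurable fun s : ℝ => (l.insertNth s η : Fin (N + 1) → ℝ) := by
        rw [measurable_pi_iff]
        intro k
        refine Fin.succAboveCases l ?_ (fun k => ?_) k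
        · simpa using measurable_id'
        · simp
      exact (Tl_meas hGm l).comp hins
    rw [lintegral_const_mul _ (hTm.pow_const a)]
    refine mul_le_mul_right ?_ _
    have h3 := ENNReal.lintegral_mul_norm_pow_le (μ := volume.restrict (Icc (-1 : ℝ) 1))
      hTm.aemeasurable (measurable_const (a := (1 : ℝ≥0∞))).aemeasurable (p := a) (q := 1 - a)
      ha0.le (by linarith) (by ring)
    simp only [ENNReal.one_rpow, mul_one, lintegral_const, Measure.restrict_apply_univ,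
      Real.volume_Icc, one_mul] at h3
    refine h3.trans ?_
    have h4 : ∫⁻ s in Icc (-1 : ℝ) 1, Tl c0 c G l (l.insertNth s η) ≤ 4 * X := by
      have := one_dim_fx hG l η (fun x => G x * ENNReal.ofReal (wt N x))
      simp only [Tl, Fin.insertNth_apply_same] at this ⊢
      exact this
    have e5 : ENNReal.ofReal (1 - -1) = 2 := by norm_num
    rw [e5]
    calc (∫⁻ s in Icc (-1 : ℝ) 1, Tl c0 c G l (l.insertNth s η)) ^ a * 2 ^ (1 - a)
        ≤ (4 * X) ^ a * 2 ^ (1 - a) := by gcongr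
      _ = _ := by
        rw [ENNReal.mul_rpow_of_nonneg _ _ ha0.le]
        ring
  refine (lintegral_mono h2).trans (le_of_eq ?_)
  have hm2 : Measurable fun η : Fin N → ℝ =>
      ENNReal.ofReal ((∏ k, fpsi c0 (c (l.succAbove k)) (η k)) ^ (-a)) :=
    ((Finset.measurable_prod _ fun k _ => (psi_meas c0 (c (l.succAbove k))).comp
      (measurable_pi_apply k)).pow_const _).ennreal_ofReal
  rw [lintegral_mul_const _ hm2]
  ring

end Pool.Agent.P8H20.EL
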