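import Pool.Agent.P8H20.EL.Lb

set_option autoImplicit false

/-! The one-dimensional change of variables and the one-dimensional integrals. -/

namespace Pool.Agent.P8H20.EL

open MeasureTheory Set
open scoped ENNReal

lemma aff_pos {a m u v w : ℝ} (hu : 0 < a + m * u) (hw : 0 < a + m * w) (h1 : u ≤ v)
    (h2 : v ≤ w) : 0 < a + m * v := by
  rcases le_total 0 m with hm | hm
  · nlinarith
  · nlinarith

/-- one monotone piece -/
lemma piece (σ τ a m : ℝ) (hσ : σ = 1 ∨ σ = -1) (hτ : τ = 1 ∨ τ = -1) (X ρ : ℝ → ℝ)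
    (hρ : ∀ s, 0 < ρ s)
    (hX : ∀ s, HasDerivAt X (s * (a + m * s ^ 2) * ρ s) s) (U : Set ℝ)
    (hU : ∀ s, s ≠ 0 → X s ∈ U) (K : ℝ → ℝ≥0∞) :
    ∫⁻ s in {s | s ∈ Icc (-1 : ℝ) 1 ∧ 0 < σ * s ∧ 0 < τ * (a + m * s ^ 2)},
      ENNReal.ofReal |s * (a + m * s ^ 2) * ρ s| * K (X s) ≤ ∫⁻ x in U, K x := by
  set D : Set ℝ := {s | s ∈ Icc (-1 : ℝ) 1 ∧ 0 < σ * s ∧ 0 < τ * (a + m * s ^ 2)} with hD
  have hDm : MeasurableSet D := by
    have h1 : MeasurableSet {s : ℝ | 0 < σ * s} :=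
      measurableSet_lt measurable_const (by fun_prop)
    have h2 : MeasurableSet {s : ℝ | 0 < τ * (a + m * s ^ 2)} :=
      measurableSet_lt measurable_const (by fun_prop)
    exact measurableSet_Icc.inter (h1.inter h2)
  have hconv : Convex ℝ D := by
    rw [convex_iff_ordConnected]
    constructor
    intro x hx z hz y hy
    refine ⟨⟨hx.1.1.trans hy.1, hy.2.trans hz.1.2⟩, ?_, ?_⟩
    · rcases hσ with h | h
      · rw [h]; have := hx.2.1; rw [h] at this; linarith [hy.1]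
      · rw [h]; have := hz.2.1; rw [h] at this; linarith [hy.2]
    · have h1 := hx.2.2
      have h2 := hz.2.2
      have e : ∀ s : ℝ, τ * (a + m * s ^ 2) = τ * a + τ * m * s ^ 2 := fun s => by ring
      rw [e] at h1 h2 ⊢
      rcases hσ with h | h
      · have hx0 := hx.2.1
        rw [h, one_mul] at hx0
        refine aff_pos h1 h2 ?_ ?_
        · exact pow_le_pow_left₀ hx0.le hy.1 2
        · exact pow_le_pow_left₀ (hx0.le.trans hy.1) hy.2 2
      · have hz0 := hz.2.1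
        rw [h] at hz0
        refine aff_pos h2 h1 ?_ ?_
        · nlinarith [hy.2]
        · nlinarith [hy.1, hy.2]
  have hcont : ContinuousOn X D := fun s _ => (hX s).continuousAt.continuousWithinAt
  have hder : ∀ s, deriv X s = s * (a + m * s ^ 2) * ρ s := fun s => (hX s).deriv
  have hinj : InjOn X D := by
    have hsg : ∀ s ∈ D, 0 < (σ * τ) * (s * (a + m * s ^ 2) * ρ s) := by
      intro s hs
      have : (σ * τ) * (s * (a + m * s ^ 2) * ρ s) = (σ * s) * (τ * (a + m * s ^ 2)) * ρ s := by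
        ring
      rw [this]
      exact mul_pos (mul_pos hs.2.1 hs.2.2) (hρ s)
    have hst : σ * τ = 1 ∨ σ * τ = -1 := by
      rcases hσ with h | h <;> rcases hτ with h' | h' <;> simp [h, h']
    rcases hst with h | h
    · refine (strictMonoOn_of_deriv_pos hconv hcont fun s hs => ?_).injOn
      have := hsg s (interior_subset hs)
      rw [h, one_mul] at this
      rw [hder]
      exact this
    · refine (strictAntiOn_of_deriv_neg hconv hcont fun s hs => ?_).injOn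
      have := hsg s (interior_subset hs)
      rw [h] at this
      rw [hder]
      linarith
  rw [← lintegral_image_eq_lintegral_abs_deriv_mul hDm (fun s _ => (hX s).hasDerivWithinAt) hinj]
  refine lintegral_mono_set ?_
  rintro _ ⟨s, hs, rfl⟩
  refine hU s ?_
  intro h0
  have := hs.2.1
  rw [h0, mul_zero] at this
  exact lt_irrefl _ this

/-- at most four monotone pieces -/
lemma four_pieces (a m : ℝ) (X ρ : ℝ → ℝ) (hρ : ∀ s, 0 < ρ s)
    (hX : ∀ s, HasDerivAt X (s * (a + m * s ^ 2) * ρ s) s) (U : Set ℝ)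
    (hU : ∀ s, s ≠ 0 → X s ∈ U) (K : ℝ → ℝ≥0∞) :
    ∫⁻ s in Icc (-1 : ℝ) 1, ENNReal.ofReal |s * (a + m * s ^ 2) * ρ s| * K (X s) ≤
      4 * ∫⁻ x in U, K x := by
  set F : ℝ → ℝ≥0∞ := fun s => ENNReal.ofReal |s * (a + m * s ^ 2) * ρ s| * K (X s) with hF
  set D : ℝ → ℝ → Set ℝ := fun σ τ =>
    {s | s ∈ Icc (-1 : ℝ) 1 ∧ 0 < σ * s ∧ 0 < τ * (a + m * s ^ 2)} with hD
  have hDm : ∀ σ τ, MeasurableSet (D σ τ) := by
    intro σ τ
    have h1 : MeasurableSet {s : ℝ | 0 < σ * s} :=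
      measurableSet_lt measurable_const (by fun_prop)
    have h2 : MeasurableSet {s : ℝ | 0 < τ * (a + m * s ^ 2)} :=
      measurableSet_lt measurable_const (by fun_prop)
    exact measurableSet_Icc.inter (h1.inter h2)
  have hp : ∀ σ τ : ℝ, (σ = 1 ∨ σ = -1) → (τ = 1 ∨ τ = -1) →
      ∫⁻ s in D σ τ, F s ≤ ∫⁻ x in U, K x := fun σ τ hσ hτ =>
    piece σ τ a m hσ hτ X ρ hρ hX U hU K
  have h0 : ∫⁻ s in Icc (-1 : ℝ) 1, F s ≤ ∫⁻ s in (D 1 1 ∪ D 1 (-1)) ∪ (D (-1) 1 ∪ D (-1) (-1)),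
      F s := by
    have hm : MeasurableSet ((D 1 1 ∪ D 1 (-1)) ∪ (D (-1) 1 ∪ D (-1) (-1))) :=
      ((hDm _ _).union (hDm _ _)).union ((hDm _ _).union (hDm _ _))
    rw [← lintegral_indicator measurableSet_Icc, ← lintegral_indicator hm]
    refine lintegral_mono fun s => ?_
    by_cases hs : s ∈ Icc (-1 : ℝ) 1
    · rw [indicator_of_mem hs]
      by_cases hs2 : s ∈ (D 1 1 ∪ D 1 (-1)) ∪ (D (-1) 1 ∪ D (-1) (-1))
      · rw [indicator_of_mem hs2]
      · have hz : s * (a + m * s ^ 2) = 0 := by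
          by_contra hne
          apply hs2
          have h1 : s ≠ 0 := left_ne_zero_of_mul hne
          have h2 : a + m * s ^ 2 ≠ 0 := right_ne_zero_of_mul hne
          rcases lt_or_gt_of_ne h1 with h1' | h1' <;> rcases lt_or_gt_of_ne h2 with h2' | h2'
          · right; right
            exact ⟨hs, by linarith, by linarith⟩
          · right; left
            exact ⟨hs, by linarith, by linarith⟩
          · left; right
            exact ⟨hs, by linarith, by linarith⟩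
          · left; left
            exact ⟨hs, by linarith, by linarith⟩
        rw [hF]
        simp only
        rw [hz, zero_mul, abs_zero, ENNReal.ofReal_zero, zero_mul]
        exact zero_le
    · rw [indicator_of_notMem hs]
      exact zero_le
  refine h0.trans ((lintegral_union_le _ _ _).trans ?_)
  have h1 := (lintegral_union_le F (D 1 1) (D 1 (-1))).trans
    (add_le_add (hp 1 1 (Or.inl rfl) (Or.inl rfl)) (hp 1 (-1) (Or.inl rfl) (Or.inr rfl)))
  have h2 := (lintegral_union_le F (D (-1) 1) (D (-1) (-1))).trans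
    (add_le_add (hp (-1) 1 (Or.inr rfl) (Or.inl rfl)) (hp (-1) (-1) (Or.inr rfl) (Or.inr rfl)))
  refine (add_le_add h1 h2).trans (le_of_eq ?_)
  ring

/-- cosine of the angle -/
noncomputable def fx {N : ℕ} (c0 : ℝ) (c η : Fin N → ℝ) : ℝ :=
  fP c0 c η / Real.sqrt (fA η * fS c0 c η)

variable {N : ℕ} {κ M c0 : ℝ} {c : Fin (N + 1) → ℝ}

lemma fA_ins (l : Fin (N + 1)) (s : ℝ) (η : Fin N → ℝ) :
    fA (l.insertNth s η) = (1 + ∑ k, η k ^ 2) + s ^ 2 := by
  unfold fA
  rw [Fin.sum_univ_succAbove _ l]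
  simp only [Fin.insertNth_apply_same, Fin.insertNth_apply_succAbove]
  ring

lemma fP_ins (l : Fin (N + 1)) (s : ℝ) (η : Fin N → ℝ) :
    fP c0 c (l.insertNth s η) = (c0 + ∑ k, c (l.succAbove k) * η k ^ 2) + c l * s ^ 2 := by
  unfold fP
  rw [Fin.sum_univ_succAbove _ l]
  simp only [Fin.insertNth_apply_same, Fin.insertNth_apply_succAbove]
  ring

lemma fS_ins (l : Fin (N + 1)) (s : ℝ) (η : Fin N → ℝ) :
    fS c0 c (l.insertNth s η) = (c0 ^ 2 + ∑ k, c (l.succAbove k) ^ 2 * η k ^ 2) +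
      c l ^ 2 * s ^ 2 := by
  unfold fS
  rw [Fin.sum_univ_succAbove _ l]
  simp only [Fin.insertNth_apply_same, Fin.insertNth_apply_succAbove]
  ring

/-- the factor -/
noncomputable def rho (c0 : ℝ) (c η : Fin (N + 1) → ℝ) : ℝ :=
  1 / (fA η * fS c0 c η * Real.sqrt (fA η * fS c0 c η))

lemma AS_pos (hG : Good κ M c0 c) (η : Fin (N + 1) → ℝ) : 0 < fA η * fS c0 c η := by
  have h1 := fA_ge η
  have h2 := fS_ge hG η
  have h3 := hG.k0
  have : 0 < κ ^ 2 := by positivity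
  exact mul_pos (by linarith) (by linarith)

lemma rho_pos (hG : Good κ M c0 c) (η : Fin (N + 1) → ℝ) : 0 < rho c0 c η := by
  unfold rho
  have := AS_pos hG η
  positivity

lemma fx_deriv (hG : Good κ M c0 c) (l : Fin (N + 1)) (η : Fin N → ℝ) (s : ℝ) :
    HasDerivAt (fun s : ℝ => fx c0 c (l.insertNth s η))
      (s * fL c0 c (l.insertNth s η) (c l) * rho c0 c (l.insertNth s η)) s := by
  have hpos := AS_pos hG (l.insertNth s η)
  have hA : HasDerivAt (fun s : ℝ => fA (l.insertNth s η : Fin (N + 1) → ℝ)) (2 * s) s := by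
    simp only [fA_ins]
    have := (hasDerivAt_pow 2 s).const_add (1 + ∑ k, η k ^ 2)
    simpa using this
  have hP : HasDerivAt (fun s : ℝ => fP c0 c (l.insertNth s η : Fin (N + 1) → ℝ))
      (c l * (2 * s)) s := by
    simp only [fP_ins]
    have := ((hasDerivAt_pow 2 s).const_mul (c l)).const_add
      (c0 + ∑ k, c (l.succAbove k) * η k ^ 2)
    simpa using this
  have hS : HasDerivAt (fun s : ℝ => fS c0 c (l.insertNth s η : Fin (N + 1) → ℝ))
      (c l ^ 2 * (2 * s)) s := by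
    simp only [fS_ins]
    have := ((hasDerivAt_pow 2 s).const_mul (c l ^ 2)).const_add
      (c0 ^ 2 + ∑ k, c (l.succAbove k) ^ 2 * η k ^ 2)
    simpa using this
  have hAS := hA.mul hS
  have hsq := hAS.sqrt hpos.ne'
  have h := hP.div hsq (Real.sqrt_pos.2 hpos).ne'
  refine h.congr_deriv ?_
  set A := fA (l.insertNth s η : Fin (N + 1) → ℝ) with hAd
  set P := fP c0 c (l.insertNth s η : Fin (N + 1) → ℝ) with hPd
  set S := fS c0 c (l.insertNth s η : Fin (N + 1) → ℝ) with hSd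
  have hL : fL c0 c (l.insertNth s η) (c l) = 2 * c l * A * S - P * S - c l ^ 2 * P * A := rfl
  have hr : rho c0 c (l.insertNth s η) = 1 / (A * S * Real.sqrt (A * S)) := rfl
  rw [hL, hr]
  have hs0 : Real.sqrt (A * S) ≠ 0 := (Real.sqrt_pos.2 hpos).ne'
  have hs1 : Real.sqrt (A * S) ^ 2 = A * S := Real.sq_sqrt hpos.le
  simp only [Pi.mul_apply, ← hAd, ← hSd]
  have hne : A * S ≠ 0 := hpos.ne'
  rw [hs1]
  field_simp
  rw [hs1]
  ring

lemma fL_ins (l : Fin (N + 1)) (s : ℝ) (η : Fin N → ℝ) :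
    fL c0 c (l.insertNth s η) (c l) = fL c0 c (l.insertNth 0 η) (c l) +
      c l * ((c0 ^ 2 + ∑ k, c (l.succAbove k) ^ 2 * η k ^ 2) -
        2 * c l * (c0 + ∑ k, c (l.succAbove k) * η k ^ 2) +
        c l ^ 2 * (1 + ∑ k, η k ^ 2)) * s ^ 2 := by
  unfold fL
  rw [fA_ins, fP_ins, fS_ins, fA_ins, fP_ins, fS_ins]
  ring

lemma fx_mem (hG : Good κ M c0 c) (η : Fin (N + 1) → ℝ) (h : ∃ l, η l ≠ 0) :
    fx c0 c η ∈ Ioo (-1 : ℝ) 1 := by
  have hpos := AS_pos hG η
  have hgr := gram_ge hG η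
  have hk := hG.k0
  have h2 : 0 < ∑ l, η l ^ 2 := by
    obtain ⟨l, hl⟩ := h
    have : η l ^ 2 ≤ ∑ l, η l ^ 2 :=
      Finset.single_le_sum (f := fun l => η l ^ 2) (fun _ _ => sq_nonneg _) (Finset.mem_univ l)
    have h3 : 0 < η l ^ 2 := by positivity
    linarith
  have h3 : fP c0 c η ^ 2 < fA η * fS c0 c η := by
    have : 0 < κ ^ 2 * ∑ l, η l ^ 2 := by positivity
    linarith
  have h4 : |fP c0 c η| < Real.sqrt (fA η * fS c0 c η) := by
    rw [← Real.sqrt_sq_eq_abs]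
    exact Real.sqrt_lt_sqrt (sq_nonneg _) h3
  have h5 := Real.sqrt_pos.2 hpos
  unfold fx
  rw [mem_Ioo, lt_div_iff₀ h5, div_lt_iff₀ h5]
  rw [abs_lt] at h4
  constructor <;> linarith [h4.1, h4.2]

/-- the one-dimensional inequality for the cosine -/
lemma one_dim_fx (hG : Good κ M c0 c) (l : Fin (N + 1)) (η : Fin N → ℝ) (K : ℝ → ℝ≥0∞) :
    ∫⁻ s in Icc (-1 : ℝ) 1, ENNReal.ofReal |s * fL c0 c (l.insertNth s η) (c l) *
      rho c0 c (l.insertNth s η)| * K (fx c0 c (l.insertNth s η)) ≤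
      4 * ∫⁻ x in Ioo (-1 : ℝ) 1, K x := by
  have h := four_pieces (fL c0 c (l.insertNth 0 η) (c l))
    (c l * ((c0 ^ 2 + ∑ k, c (l.succAbove k) ^ 2 * η k ^ 2) -
        2 * c l * (c0 + ∑ k, c (l.succAbove k) * η k ^ 2) +
        c l ^ 2 * (1 + ∑ k, η k ^ 2)))
    (fun s => fx c0 c (l.insertNth s η)) (fun s => rho c0 c (l.insertNth s η))
    (fun s => rho_pos hG _) (fun s => by rw [← fL_ins]; exact fx_deriv hG l η s)
    (Ioo (-1 : ℝ) 1) (fun s hs => fx_mem hG _ ⟨l, by simpa using hs⟩) K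
  simp only [← fL_ins] at h
  exact h

end Pool.Agent.P8H20.EL
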