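import Pool.Agent.P8H20.EL.One

set_option autoImplicit false

/-! Integrability of negative powers of the factors. -/

namespace Pool.Agent.P8H20.EL

open MeasureTheory Set
open scoped ENNReal

lemma int_abs (a : ℝ) (ha : a < 1) (R : ℝ) (hR : 0 ≤ R) :
    IntegrableOn (fun y : ℝ => |y| ^ (-a)) (Icc (-R) R) := by
  have h1 : IntegrableOn (fun y : ℝ => |y| ^ (-a)) (Ioc 0 R) := by
    have h := intervalIntegral.intervalIntegrable_rpow' (a := 0) (b := R) (r := -a) (by linarith)
    rw [intervalIntegrable_iff_integrableOn_Ioc_of_le hR] at h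
    refine h.congr_fun (fun x hx => ?_) measurableSet_Ioc
    simp only [abs_of_pos hx.1]
  have h2 : IntegrableOn (fun y : ℝ => |y| ^ (-a)) (Icc 0 R) := by
    rwa [integrableOn_Icc_iff_integrableOn_Ioc]
  have h3 : IntegrableOn (fun y : ℝ => |y| ^ (-a)) (Icc (-R) 0) := by
    have := h2.comp_neg
    simpa using this
  have : Icc (-R) R = Icc (-R) 0 ∪ Icc 0 R := by
    rw [Icc_union_Icc_eq_Icc] <;> linarith
  rw [this]
  exact h3.union h2

lemma int_abs_sub (a : ℝ) (ha : a < 1) (σ : ℝ) :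
    IntegrableOn (fun y : ℝ => |y - σ| ^ (-a)) (Icc (-1) 1) := by
  have h1 := (integrable_indicator_iff (measurableSet_Icc)).2
    (int_abs a ha (1 + |σ|) (by positivity))
  have h2 := h1.comp_sub_right σ
  refine h2.integrableOn.congr_fun (fun y hy => ?_) measurableSet_Icc
  have hm : y - σ ∈ Icc (-(1 + |σ|)) (1 + |σ|) := by
    have := neg_abs_le σ
    have := le_abs_self σ
    constructor <;> linarith [hy.1, hy.2]
  simp only [indicator_of_mem hm]

/-- one of the three distances -/
noncomputable def m3 (σ s : ℝ) : ℝ := min |s| (min |s - σ| |s + σ|)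

lemma psi_ge (c0 t : ℝ) (hc0 : c0 ≠ 0) (ht : t ≠ 0) : ∃ σ b : ℝ, 0 < b ∧ ∀ s : ℝ,
    b * m3 σ s ≤ fpsi c0 t s := by
  rcases lt_or_gt_of_ne (mul_ne_zero ht hc0) with h | h
  · -- no further zero
    refine ⟨0, |c0|, abs_pos.2 hc0, fun s => ?_⟩
    have h1 : |c0| ≤ |t * s ^ 2 - c0| := by
      rw [← sq_le_sq]
      nlinarith [sq_nonneg (t * s ^ 2), sq_nonneg s]
    calc |c0| * m3 0 s ≤ |c0| * |s| := mul_le_mul_of_nonneg_left (min_le_left _ _) (abs_nonneg _)
      _ ≤ |t * s ^ 2 - c0| * |s| := by gcongr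
      _ = fpsi c0 t s := by unfold fpsi; rw [abs_mul, mul_comm]
  · have hq : 0 < c0 / t := by
      rcases lt_or_gt_of_ne ht with ht' | ht'
      · exact div_pos_of_neg_of_neg (by nlinarith) ht'
      · exact div_pos (by nlinarith) ht'
    set σ := Real.sqrt (c0 / t) with hσ
    have hσ0 : 0 < σ := Real.sqrt_pos.2 hq
    have hσ2 : t * σ ^ 2 = c0 := by
      rw [hσ, Real.sq_sqrt hq.le]
      field_simp
    refine ⟨σ, |t| * (σ / 2) ^ 2, by positivity, fun s => ?_⟩
    have e : fpsi c0 t s = |t| * (|s| * |s - σ| * |s + σ|) := by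
      unfold fpsi
      rw [← abs_mul, ← abs_mul, ← abs_mul]
      congr 1
      rw [← hσ2]
      ring
    rw [e, mul_assoc]
    refine mul_le_mul_of_nonneg_left ?_ (abs_nonneg _)
    have h3 : m3 σ s ≤ |s| := min_le_left _ _
    have h4 : m3 σ s ≤ |s - σ| := (min_le_right _ _).trans (min_le_left _ _)
    have h5 : m3 σ s ≤ |s + σ| := (min_le_right _ _).trans (min_le_right _ _)
    have hm0 : 0 ≤ m3 σ s := le_min (abs_nonneg _) (le_min (abs_nonneg _) (abs_nonneg _))
    have a1 : σ ≤ |s| + |s - σ| := by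
      have := abs_sub s (s - σ)
      rw [sub_sub_cancel, abs_of_pos hσ0] at this
      exact this
    have a2 : σ ≤ |s| + |s + σ| := by
      have := abs_sub (s + σ) s
      rw [add_sub_cancel_left, abs_of_pos hσ0] at this
      linarith
    have a3 : σ ≤ |s - σ| + |s + σ| := by
      have := abs_sub (s + σ) (s - σ)
      have e2 : s + σ - (s - σ) = 2 * σ := by ring
      rw [e2, abs_of_pos (by positivity)] at this
      linarith
    have p1 := abs_nonneg s
    have p2 := abs_nonneg (s - σ)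
    have p3 := abs_nonneg (s + σ)
    rcases le_total (σ / 2) |s| with b1 | b1
    · rcases le_total (σ / 2) |s - σ| with b2 | b2
      · calc (σ / 2) ^ 2 * m3 σ s = (σ / 2) * (σ / 2) * m3 σ s := by ring
          _ ≤ |s| * |s - σ| * |s + σ| := by gcongr
      · have b3 : σ / 2 ≤ |s + σ| := by linarith
        calc (σ / 2) ^ 2 * m3 σ s = (σ / 2) * m3 σ s * (σ / 2) := by ring
          _ ≤ |s| * |s - σ| * |s + σ| := by gcongr
    · have b2 : σ / 2 ≤ |s - σ| := by linarith
      have b3 : σ / 2 ≤ |s + σ| := by linarith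
      calc (σ / 2) ^ 2 * m3 σ s = m3 σ s * (σ / 2) * (σ / 2) := by ring
        _ ≤ |s| * |s - σ| * |s + σ| := by gcongr

lemma psi_meas (c0 t : ℝ) : Measurable (fpsi c0 t) := by
  unfold fpsi
  fun_prop

lemma psi_int (c0 t : ℝ) (hc0 : c0 ≠ 0) (ht : t ≠ 0) (a : ℝ) (ha0 : 0 < a) (ha : a < 1) :
    IntegrableOn (fun s => fpsi c0 t s ^ (-a)) (Icc (-1) 1) := by
  obtain ⟨σ, b, hb, h⟩ := psi_ge c0 t hc0 ht
  have h1 := int_abs_sub a ha 0
  have h2 := int_abs_sub a ha σ
  have h3 := int_abs_sub a ha (-σ)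
  have h4 := (((h1.add h2).add h3).const_mul (b ^ (-a)))
  have hfin : ∀ᵐ s ∂(volume.restrict (Icc (-1 : ℝ) 1)), s ∉ ({0, σ, -σ} : Set ℝ) :=
    Set.Countable.ae_notMem (Set.toFinite _).countable _
  refine Integrable.mono' h4 ((psi_meas c0 t).pow_const _).aestronglyMeasurable ?_
  filter_upwards [hfin] with s hs
  simp only [Pi.add_apply, sub_zero, sub_neg_eq_add]
  rw [Real.norm_eq_abs, abs_of_nonneg (Real.rpow_nonneg (psi_nonneg _ _ _) _)]
  have q1 : 0 ≤ |s| ^ (-a) := Real.rpow_nonneg (abs_nonneg _) _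
  have q2 : 0 ≤ |s - σ| ^ (-a) := Real.rpow_nonneg (abs_nonneg _) _
  have q3 : 0 ≤ |s + σ| ^ (-a) := Real.rpow_nonneg (abs_nonneg _) _
  have hba : 0 < b ^ (-a) := Real.rpow_pos_of_pos hb _
  rcases (psi_nonneg c0 t s).eq_or_lt with h0 | h0
  · rw [← h0, Real.zero_rpow (by linarith)]
    positivity
  · have hm0 : 0 ≤ m3 σ s := le_min (abs_nonneg _) (le_min (abs_nonneg _) (abs_nonneg _))
    rcases hm0.eq_or_lt with hm | hm
    · -- the minimum vanishes
      exfalso
      have hz : s = 0 ∨ s - σ = 0 ∨ s + σ = 0 := by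
        unfold m3 at hm
        rcases min_choice |s| (min |s - σ| |s + σ|) with h5 | h5
        · left; rw [h5] at hm; exact abs_eq_zero.1 hm.symm
        · rcases min_choice |s - σ| |s + σ| with h6 | h6
          · right; left; rw [h5, h6] at hm; exact abs_eq_zero.1 hm.symm
          · right; right; rw [h5, h6] at hm; exact abs_eq_zero.1 hm.symm
      apply hs
      simp only [mem_insert_iff, mem_singleton_iff]
      rcases hz with h | h | h
      · exact Or.inl h
      · exact Or.inr (Or.inl (by linarith))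
      · exact Or.inr (Or.inr (by linarith))
    · have h5 : fpsi c0 t s ^ (-a) ≤ (b * m3 σ s) ^ (-a) :=
        Real.rpow_le_rpow_of_nonpos (mul_pos hb hm) (h s) (by linarith)
      refine h5.trans ?_
      rw [Real.mul_rpow hb.le hm.le]
      refine mul_le_mul_of_nonneg_left ?_ hba.le
      unfold m3
      rcases min_choice |s| (min |s - σ| |s + σ|) with h5 | h5
      · rw [h5]; linarith
      · rcases min_choice |s - σ| |s + σ| with h6 | h6
        · rw [h5, h6]; linarith
        · rw [h5, h6]; linarith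

end Pool.Agent.P8H20.EL
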