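import Pool.Agent.P8H20.EL.LemS2

set_option autoImplicit false

/-! Zonal coordinates. -/

namespace Pool.Agent.P8H20.EL

open MeasureTheory Set
open scoped ENNReal

lemma sub_scale (q : ℝ) (hq : 0 < q) (F : ℝ → ℝ≥0∞) :
    ∫⁻ R in Ioi (0 : ℝ), F R = ∫⁻ ρ in Ioi (0 : ℝ), ENNReal.ofReal (1 / q) * F (ρ / q) := by
  have him : (fun ρ : ℝ => ρ / q) '' Ioi 0 = Ioi 0 := by
    ext R
    constructor
    · rintro ⟨ρ, hρ, rfl⟩
      exact div_pos hρ hq
    · intro hR
      exact ⟨R * q, mul_pos hR hq, by field_simp⟩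
  have h := lintegral_image_eq_lintegral_abs_deriv_mul (s := Ioi (0 : ℝ)) (f := fun ρ => ρ / q)
    (f' := fun _ => 1 / q) measurableSet_Ioi
    (fun x _ => ((hasDerivAt_id x).div_const q).hasDerivWithinAt)
    (fun x _ y _ hxy => by
      simp only at hxy
      field_simp at hxy
      exact hxy) F
  rw [him] at h
  rw [h]
  have : |1 / q| = 1 / q := abs_of_pos (by positivity)
  simp only [this]

/-- the hypotenuse -/
noncomputable def hyp (u ρ : ℝ) : ℝ := Real.sqrt (u ^ 2 + ρ ^ 2)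

lemma hyp_pos (u : ℝ) {ρ : ℝ} (hρ : 0 < ρ) : 0 < hyp u ρ := Real.sqrt_pos.2 (by positivity)

lemma hyp_sq (u ρ : ℝ) : hyp u ρ ^ 2 = u ^ 2 + ρ ^ 2 := Real.sq_sqrt (by positivity)

lemma sub_cos (ρ : ℝ) (hρ : 0 < ρ) (F : ℝ → ℝ≥0∞) :
    ∫⁻ x in Ioo (-1 : ℝ) 1, F x =
      ∫⁻ u : ℝ, ENNReal.ofReal (ρ ^ 2 / hyp u ρ ^ 3) * F (u / hyp u ρ) := by
  have hsq : ∀ u : ℝ, 1 - (u / hyp u ρ) ^ 2 = ρ ^ 2 / hyp u ρ ^ 2 := by
    intro u
    have h1 := hyp_pos u hρ
    have h2 := hyp_sq u ρ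
    rw [div_pow, eq_div_iff (by positivity), sub_mul, div_mul_cancel₀ _ (by positivity)]
    linarith
  have him : (fun u : ℝ => u / hyp u ρ) '' univ = Ioo (-1) 1 := by
    ext x
    constructor
    · rintro ⟨u, _, rfl⟩
      have h1 := hyp_pos u hρ
      have h2 := hsq u
      have h3 : 0 < ρ ^ 2 / hyp u ρ ^ 2 := by positivity
      rw [mem_Ioo, ← abs_lt, ← sq_lt_one_iff_abs_lt_one]
      simp only
      linarith
    · intro hx
      have hx2 : 0 < 1 - x ^ 2 := by nlinarith [hx.1, hx.2]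
      have hs := Real.sqrt_pos.2 hx2
      refine ⟨ρ * x / Real.sqrt (1 - x ^ 2), mem_univ _, ?_⟩
      have hs2 : Real.sqrt (1 - x ^ 2) ^ 2 = 1 - x ^ 2 := Real.sq_sqrt hx2.le
      have e : hyp (ρ * x / Real.sqrt (1 - x ^ 2)) ρ = ρ / Real.sqrt (1 - x ^ 2) := by
        unfold hyp
        rw [← Real.sqrt_sq (show 0 ≤ ρ / Real.sqrt (1 - x ^ 2) by positivity)]
        congr 1
        rw [div_pow, div_pow, hs2]
        field_simp
        ring
      simp only
      rw [e]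
      field_simp
  have hder : ∀ u : ℝ, HasDerivAt (fun u : ℝ => u / hyp u ρ) (ρ ^ 2 / hyp u ρ ^ 3) u := by
    intro u
    have h1 := hyp_pos u hρ
    have h2 := hyp_sq u ρ
    have h3 : HasDerivAt (fun u : ℝ => u ^ 2 + ρ ^ 2) (2 * u) u := by
      simpa using (hasDerivAt_pow 2 u).add_const (ρ ^ 2)
    have h4 : HasDerivAt (fun u : ℝ => hyp u ρ) (2 * u / (2 * hyp u ρ)) u :=
      h3.sqrt (by positivity)
    have h5 := (hasDerivAt_id u).div h4 h1.ne'
    refine h5.congr_deriv ?_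
    simp only [id]
    field_simp
    rw [h2]
    ring
  have hinj : InjOn (fun u : ℝ => u / hyp u ρ) univ := by
    have : StrictMono (fun u : ℝ => u / hyp u ρ) := by
      apply strictMono_of_deriv_pos
      intro u
      rw [(hder u).deriv]
      have := hyp_pos u hρ
      positivity
    exact this.injective.injOn
  have h := lintegral_image_eq_lintegral_abs_deriv_mul (s := univ) (f := fun u => u / hyp u ρ)
    (f' := fun u => ρ ^ 2 / hyp u ρ ^ 3) MeasurableSet.univ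
    (fun u _ => (hder u).hasDerivWithinAt) hinj F
  rw [him, Measure.restrict_univ] at h
  rw [h]
  refine lintegral_congr fun u => ?_
  have := hyp_pos u hρ
  rw [abs_of_pos (by positivity)]

lemma hyp_meas : Measurable fun p : ℝ × ℝ => hyp p.1 p.2 := by
  unfold hyp
  fun_prop

/-- zonal coordinates -/
lemma zonal (N : ℕ) (hN : 1 ≤ N) (F : ℝ × ℝ → ℝ≥0∞) (hF : Measurable F) :
    ∫⁻ x in Ioo (-1 : ℝ) 1, ∫⁻ R in Ioi (0 : ℝ), ENNReal.ofReal (R ^ (N + 1) * wt N x) * F (R, x) =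
      ∫⁻ ρ in Ioi (0 : ℝ), ∫⁻ u : ℝ, ENNReal.ofReal (ρ ^ N) *
        F (hyp u ρ, u / hyp u ρ) := by
  set q : ℝ → ℝ := fun x => Real.sqrt (1 - x ^ 2) with hq
  have hqm : Measurable q := by rw [hq]; fun_prop
  have h1 : ∫⁻ x in Ioo (-1 : ℝ) 1, ∫⁻ R in Ioi (0 : ℝ),
      ENNReal.ofReal (R ^ (N + 1) * wt N x) * F (R, x) =
      ∫⁻ x in Ioo (-1 : ℝ) 1, ∫⁻ ρ in Ioi (0 : ℝ), ENNReal.ofReal (1 / q x) *
        (ENNReal.ofReal ((ρ / q x) ^ (N + 1) * wt N x) * F (ρ / q x, x)) := by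
    refine setLIntegral_congr_fun measurableSet_Ioo fun x hx => ?_
    have hx2 : 0 < 1 - x ^ 2 := by nlinarith [hx.1, hx.2]
    exact sub_scale (q x) (Real.sqrt_pos.2 hx2)
      (fun R => ENNReal.ofReal (R ^ (N + 1) * wt N x) * F (R, x))
  rw [h1]
  have hm : Measurable fun p : ℝ × ℝ => ENNReal.ofReal (1 / q p.1) *
        (ENNReal.ofReal ((p.2 / q p.1) ^ (N + 1) * wt N p.1) * F (p.2 / q p.1, p.1)) := by
    have a1 : Measurable fun p : ℝ × ℝ => q p.1 := hqm.comp measurable_fst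
    have a2 : Measurable fun p : ℝ × ℝ => wt N p.1 := (wt_meas N).comp measurable_fst
    refine (measurable_const.div a1).ennreal_ofReal.mul ?_
    refine (((measurable_snd.div a1).pow_const _).mul a2).ennreal_ofReal.mul ?_
    exact hF.comp ((measurable_snd.div a1).prodMk measurable_fst)
  rw [lintegral_lintegral_swap hm.aemeasurable]
  refine setLIntegral_congr_fun measurableSet_Ioi fun ρ hρ => ?_
  rw [sub_cos ρ hρ (fun x => ENNReal.ofReal (1 / q x) *
        (ENNReal.ofReal ((ρ / q x) ^ (N + 1) * wt N x) * F (ρ / q x, x)))]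
  refine lintegral_congr fun u => ?_
  have hρ' : 0 < ρ := hρ
  have hD := hyp_pos u hρ'
  have hD2 := hyp_sq u ρ
  set D := hyp u ρ with hDd
  have hqq : q (u / D) = ρ / D := by
    rw [hq]
    simp only
    rw [← Real.sqrt_sq (show 0 ≤ ρ / D by positivity)]
    congr 1
    rw [div_pow, div_pow]
    field_simp
    linarith
  have hw : wt N (u / D) = (ρ / D) ^ (N - 1) := by
    unfold wt
    have e : 1 - (u / D) ^ 2 = (ρ / D) ^ 2 := by
      rw [div_pow, div_pow]
      field_simp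
      linarith
    rw [e, ← Real.rpow_natCast, ← Real.rpow_natCast, ← Real.rpow_mul (by positivity)]
    congr 1
    rw [Nat.cast_sub hN]
    push_cast
    ring
  rw [hqq, hw]
  have e1 : ρ / (ρ / D) = D := by field_simp
  rw [e1, ← mul_assoc, ← mul_assoc, ← ENNReal.ofReal_mul (by positivity),
    ← ENNReal.ofReal_mul (by positivity)]
  congr 2
  obtain ⟨m, rfl⟩ : ∃ m, N = m + 1 := ⟨N - 1, by omega⟩
  simp only [Nat.add_sub_cancel]
  rw [div_pow]
  field_simp
  ring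

end Pool.Agent.P8H20.EL
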